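import Pool.Agent.Lib.MP_b07157_agO3.SD

/-!
# Interpolation from the independence of the conditions

The linear form `x` with `x(p) = 1`, `x(u) = x(w) = 0` has local expression `1`; multiplication by
its powers changes the degree and not the local expression.
-/

noncomputable section

namespace MPb07157.O3.G2a

open MvPolynomial

variable {r n : ℕ}

theorem Tay_mul (p u w : Fin 3 → ℂ) (φ : Polynomial ℂ) (F G : MvPolynomial (Fin 3) ℂ) :
    Tay p u w φ (F * G) = Tay p u w φ F * Tay p u w φ G := by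
  simp only [Tay, map_mul]

theorem Tay_sub (p u w : Fin 3 → ℂ) (φ : Polynomial ℂ) (F G : MvPolynomial (Fin 3) ℂ) :
    Tay p u w φ (F - G) = Tay p u w φ F - Tay p u w φ G := by
  simp only [Tay, map_sub]

theorem Tay_pow (p u w : Fin 3 → ℂ) (φ : Polynomial ℂ) (F : MvPolynomial (Fin 3) ℂ) (l : ℕ) :
    Tay p u w φ (F ^ l) = Tay p u w φ F ^ l := by
  simp only [Tay, map_pow]

/-- The dual linear form. -/
theorem dual_form {p u w : Fin 3 → ℂ} (h : LinearIndependent ℂ ![p, u, w]) :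
    ∃ x : MvPolynomial (Fin 3) ℂ, x.IsHomogeneous 1 ∧ eval p x = 1 ∧
      ∀ φ : Polynomial ℂ, Tay p u w φ x = 1 := by
  classical
  have hb : Fintype.card (Fin 3) = Module.finrank ℂ (Fin 3 → ℂ) := by simp
  let B := basisOfLinearIndependentOfCardEqFinrank h hb
  have hB : ∀ i, B i = ![p, u, w] i := fun i => by
    simp [B]
  let ξ : (Fin 3 → ℂ) →ₗ[ℂ] ℂ := B.coord 0
  have hξ : ∀ v : Fin 3 → ℂ, ξ v = ∑ i, ξ (Pi.single i 1) * v i := by
    intro v
    conv_lhs => rw [pi_eq_sum_univ' v]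
    rw [map_sum]
    refine Finset.sum_congr rfl fun i _ => ?_
    rw [map_smul, smul_eq_mul, mul_comm]
  have hc : ∀ i, ξ (B i) = if i = 0 then 1 else 0 := by
    intro i
    show B.repr (B i) 0 = _
    rw [B.repr_self, Finsupp.single_apply]
  have h0 : ξ p = 1 := by
    have := hc 0
    rwa [hB 0] at this
  have h1 : ξ u = 0 := by
    have := hc 1
    rwa [hB 1] at this
  have h2 : ξ w = 0 := by
    have := hc 2
    rwa [hB 2] at this
  refine ⟨∑ i, C (ξ (Pi.single i 1)) * X i, ?_, ?_, ?_⟩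
  · refine IsHomogeneous.sum _ _ _ fun i _ => ?_
    have := (isHomogeneous_C (Fin 3) (ξ (Pi.single i 1))).mul (isHomogeneous_X ℂ i)
    simpa using this
  · rw [map_sum]
    simp only [map_mul, eval_C, eval_X]
    exact (hξ p).symm.trans h0
  · intro φ
    unfold Tay
    rw [map_sum]
    have : ∀ i : Fin 3, (aeval (fun i => C (p i) + C (u i) * X 0 + C (w i) * (X 1 + Polynomial.aeval (X 0) φ)) (C (ξ (Pi.single i 1)) * X i : MvPolynomial (Fin 3) ℂ) : MvPolynomial (Fin 2) ℂ)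
        = C (ξ (Pi.single i 1) * p i) + C (ξ (Pi.single i 1) * u i) * X 0
          + C (ξ (Pi.single i 1) * w i) * (X 1 + Polynomial.aeval (X 0) φ) := by
      intro i
      rw [map_mul, aeval_C, aeval_X, algebraMap_eq]
      simp only [C_mul]
      ring
    simp only [this]
    rw [Finset.sum_add_distrib, Finset.sum_add_distrib, ← Finset.sum_mul, ← Finset.sum_mul,
      ← map_sum, ← map_sum, ← map_sum, ← hξ, ← hξ, ← hξ, h0, h1, h2]
    simp

/-- Interpolation, with a further property `Q` of the interpolating form. -/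
theorem interpQ {L : Fin r → Loc} (hL : ∀ j, LinearIndependent ℂ ![(L j).p, (L j).u, (L j).w])
    {Q : MvPolynomial (Fin 3) ℂ → Prop}
    (h : ∀ c : Fin r → (Fin 2 →₀ ℕ) → ℂ, ∃ τ : MvPolynomial (Fin 3) ℂ,
      (τ = 0 ∨ 6 ≤ n ∧ τ.IsHomogeneous (n - 6)) ∧
      (∀ j m, (L j).a * m 0 + (L j).b * m 1 + 2 * ((L j).a + (L j).b) < (L j).N →
        coeff m ((L j).tay τ) = c j m) ∧ Q τ)
    (j : Fin r) (k : ℕ) (σ : MvPolynomial (Fin 3) ℂ) (hσ : σ.IsHomogeneous k) :
    ∃ (τ ℓ₁ ℓ₂ : MvPolynomial (Fin 3) ℂ) (l₁ l₂ : ℕ),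
      (τ = 0 ∨ 6 ≤ n) ∧ τ.IsHomogeneous (n - 6) ∧ ℓ₁.IsHomogeneous l₁ ∧ ℓ₂.IsHomogeneous l₂ ∧
      eval (L j).p ℓ₁ ≠ 0 ∧ eval (L j).p ℓ₂ ≠ 0 ∧ n - 6 + l₁ = k + l₂ ∧
      (∀ i, i ≠ j → JJ (L i) (n - 6) τ) ∧ JJ (L j) (k + l₂) (ℓ₁ * τ - ℓ₂ * σ) ∧ Q τ := by
  classical
  obtain ⟨x, hx1, hxp, hxt⟩ := dual_form (hL j)
  obtain ⟨τ, hτ, hc, hQ⟩ := h (fun i m => if i = j then coeff m ((L j).tay σ) else 0)
  have hτh : τ.IsHomogeneous (n - 6) := by
    rcases hτ with h0 | h6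
    · rw [h0]; exact isHomogeneous_zero _ _ _
    · exact h6.2
  have hpow : ∀ l : ℕ, (x ^ l).IsHomogeneous l := by
    intro l
    have := hx1.pow l
    rwa [one_mul] at this
  refine ⟨τ, x ^ k, x ^ (n - 6), k, n - 6, ?_, hτh, hpow _, hpow _, ?_, ?_, ?_, ?_, ⟨?_, ?_⟩, hQ⟩
  · rcases hτ with h0 | h6
    · exact Or.inl h0
    · exact Or.inr h6.1
  · rw [map_pow, hxp, one_pow]; exact one_ne_zero
  · rw [map_pow, hxp, one_pow]; exact one_ne_zero
  · omega
  · intro i hi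
    refine ⟨hτh, fun m hm => ?_⟩
    by_contra hlt
    apply hm
    have := hc i m (by omega)
    rw [this, if_neg hi]
  · have h1 : (x ^ k * τ).IsHomogeneous (k + (n - 6)) := (hpow k).mul hτh
    have h2 : (x ^ (n - 6) * σ).IsHomogeneous (k + (n - 6)) := by
      have := (hpow (n - 6)).mul hσ
      rwa [add_comm] at this
    exact h1.sub h2
  · intro m hm
    by_contra hlt
    apply hm
    have h3 := hc j m (by omega)
    have h4 : (L j).tay (x ^ k * τ - x ^ (n - 6) * σ) = (L j).tay τ - (L j).tay σ := by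
      unfold Loc.tay
      rw [Tay_sub, Tay_mul, Tay_mul, Tay_pow, Tay_pow, hxt]
      simp
    rw [h4, coeff_sub, h3, if_pos rfl, sub_self]

end MPb07157.O3.G2a
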