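import Pool.Agent.Lib.MP_b07157_agO3.SD

/-!
# Forms of high multiplicity have high weight
-/

noncomputable section

namespace MPb07157.O3

open MvPolynomial MPb07157Q
open MPb07157.OK
open MPb07157.OB (Dat)

namespace G2b

variable {a b K K' : ℕ} {G G' : MvPolynomial (Fin 2) ℂ}

theorem wge_zero (a b K : ℕ) : WGe a b K 0 := by
  intro m hm
  exact absurd (coeff_zero m) hm

theorem wge_mono (h : WGe a b K G) (hK : K' ≤ K) : WGe a b K' G :=
  fun m hm => hK.trans (h m hm)

theorem wge_add (h : WGe a b K G) (h' : WGe a b K G') : WGe a b K (G + G') := by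
  intro m hm
  rw [coeff_add] at hm
  by_cases h1 : coeff m G = 0
  · refine h' m fun h2 => hm ?_
    rw [h1, h2, add_zero]
  · exact h m h1

theorem wge_sum {ι : Type*} (s : Finset ι) {g : ι → MvPolynomial (Fin 2) ℂ}
    (h : ∀ i ∈ s, WGe a b K (g i)) : WGe a b K (∑ i ∈ s, g i) := by
  classical
  induction s using Finset.induction_on with
  | empty => exact wge_zero a b K
  | insert i s hi ih =>
    rw [Finset.sum_insert hi]
    exact wge_add (h i (Finset.mem_insert_self i s))
      (ih fun j hj => h j (Finset.mem_insert_of_mem hj))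

theorem wge_mul (h : WGe a b K G) (h' : WGe a b K' G') : WGe a b (K + K') (G * G') := by
  classical
  intro m hm
  rw [coeff_mul] at hm
  obtain ⟨p, hp, hne⟩ := Finset.exists_ne_zero_of_sum_ne_zero hm
  have e : p.1 + p.2 = m := Finset.HasAntidiagonal.mem_antidiagonal.1 hp
  have h1 := h p.1 (left_ne_zero_of_mul hne)
  have h2 := h' p.2 (right_ne_zero_of_mul hne)
  have e0 : m 0 = p.1 0 + p.2 0 := by
    rw [← e]
    rfl
  have e1 : m 1 = p.1 1 + p.2 1 := by
    rw [← e]
    rfl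
  rw [e0, e1]
  nlinarith

theorem wge_C (a b : ℕ) (c : ℂ) : WGe a b 0 (C c) := fun _ _ => Nat.zero_le _

theorem wge_pow (h : WGe a b 1 G) (k : ℕ) : WGe a b k (G ^ k) := by
  induction k with
  | zero => exact fun _ _ => Nat.zero_le _
  | succ k ih =>
    rw [pow_succ]
    exact wge_mul ih h

theorem wge_prod {s : Finset (Fin 3)} {g : Fin 3 → MvPolynomial (Fin 2) ℂ}
    (h : ∀ i, WGe a b 1 (g i)) (m : Fin 3 → ℕ) :
    WGe a b (∑ i ∈ s, m i) (∏ i ∈ s, g i ^ m i) := by
  classical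
  induction s using Finset.induction_on with
  | empty => exact fun _ _ => Nat.zero_le _
  | insert i s hi ih =>
    rw [Finset.sum_insert hi, Finset.prod_insert hi]
    exact wge_mul (wge_pow (h i) (m i)) ih

theorem wge_one_of_coeff (ha : 0 < a) (hb : 0 < b) (h : coeff 0 G = 0) : WGe a b 1 G := by
  intro m hm
  have h1 : m ≠ 0 := by
    rintro rfl
    exact hm h
  by_contra h2
  refine h1 (Finsupp.ext fun i => ?_)
  have h3 : a * m 0 = 0 := by omega
  have h4 : b * m 1 = 0 := by omega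
  have h5 : m 0 = 0 := (Nat.mul_eq_zero.1 h3).resolve_left ha.ne'
  have h6 : m 1 = 0 := (Nat.mul_eq_zero.1 h4).resolve_left hb.ne'
  fin_cases i
  · exact h5
  · exact h6

theorem coeff_zero_aeval (φ : Polynomial ℂ) :
    coeff 0 (Polynomial.aeval (X 0 : MvPolynomial (Fin 2) ℂ) φ) = φ.eval 0 := by
  have h1 : ∀ G : MvPolynomial (Fin 2) ℂ, coeff 0 G = constantCoeff G := fun _ => rfl
  rw [h1, Polynomial.aeval_def, Polynomial.hom_eval₂, constantCoeff_X]
  have h2 : (constantCoeff : MvPolynomial (Fin 2) ℂ →+* ℂ).comp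
      (algebraMap ℂ (MvPolynomial (Fin 2) ℂ)) = RingHom.id ℂ := by
    ext
    simp
  rw [h2, Polynomial.eval₂_id]

/-- The image of a polynomial without terms of degree less than `R`. -/
theorem wge_aeval {R : ℕ} {g : Fin 3 → MvPolynomial (Fin 2) ℂ} (h : ∀ i, WGe a b 1 (g i))
    {P : MvPolynomial (Fin 3) ℂ} (hP : ∀ j < R, homogeneousComponent j P = 0) :
    WGe a b R (aeval g P) := by
  rw [aeval_def, eval₂_eq']
  refine wge_sum _ fun m hm => ?_
  have h1 : R ≤ ∑ i, m i := by
    by_contra hlt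
    have h2 := hP _ (not_le.1 hlt)
    have h3 : coeff m (homogeneousComponent (∑ i, m i) P) = coeff m P := by
      rw [coeff_homogeneousComponent, if_pos]
      rw [Finsupp.degree_eq_sum]
    rw [h2, coeff_zero] at h3
    exact (mem_support_iff.1 hm) h3.symm
  have h4 : WGe a b (0 + ∑ i, m i)
      (algebraMap ℂ (MvPolynomial (Fin 2) ℂ) (coeff m P) * ∏ i, g i ^ m i) :=
    wge_mul (wge_C a b _) (wge_prod h fun i => m i)
  rw [zero_add] at h4
  exact wge_mono h4 h1

theorem tay_eq (p u w : Fin 3 → ℂ) (φ : Polynomial ℂ) (F : MvPolynomial (Fin 3) ℂ) :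
    Tay p u w φ F = aeval (fun i => C (u i) * X 0 + C (w i) * (X 1 + Polynomial.aeval (X 0) φ))
      (translate p F) := by
  unfold Tay translate
  rw [← AlgHom.comp_apply]
  congr 1
  refine MvPolynomial.algHom_ext fun i => ?_
  rw [AlgHom.comp_apply, aeval_X, aeval_X, map_add, aeval_X, algHom_C]
  rw [algebraMap_eq]
  ring

/-- (G3) Forms of high multiplicity. -/
theorem jj_of_mu (L : Loc) (ha : 0 < L.a ∧ 0 < L.b) (hφ : L.φ.eval 0 = 0) :
    ∃ R, ∀ k σ, σ.IsHomogeneous k → Mu L.p R σ → JJ L k σ := by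
  refine ⟨L.N - 2 * (L.a + L.b), fun k σ hσ hμ => ⟨hσ, ?_⟩⟩
  show WGe L.a L.b (L.N - 2 * (L.a + L.b)) (Tay L.p L.u L.w L.φ σ)
  rw [tay_eq]
  refine wge_aeval (fun i => wge_one_of_coeff ha.1 ha.2 ?_) hμ
  rw [coeff_add, coeff_C_mul, coeff_C_mul, coeff_add, coeff_zero_aeval, hφ]
  simp

end G2b

end MPb07157.O3
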