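import Pool.Agent.Lib.MP_b07157_agO3.SD
import Pool.Agent.Lib.MP_b07157_agO3.G2a
import Pool.Agent.Lib.MP_b07157_agO3.G2b

/-!
# Interpolation
-/

noncomputable section

namespace MPb07157.O3

open MvPolynomial MPb07157Q
open MPb07157.OK
open MPb07157.OB (Dat)

variable {r n d : ℕ} {f P : MvPolynomial (Fin 3) ℂ} {v : Fin 3 → MvPolynomial (Fin 3) ℂ}
  {b : Fin r → Fin 3 → ℂ} {c : ℂ} {t : Fin 3 → Kf} {Sec : (Fin 3 → ℂ) → Kf → Prop}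

/-- (G2) The hypothesis `hI` from the independence, with a further property `Q` of the form. -/
theorem interpQ {L : Fin r → Loc} (hL : ∀ j, LinearIndependent ℂ ![(L j).p, (L j).u, (L j).w])
    (ha : ∀ j, 0 < (L j).a ∧ 0 < (L j).b) (hφ : ∀ j, (L j).φ.eval 0 = 0)
    {Q : MvPolynomial (Fin 3) ℂ → Prop}
    (h : ∀ c : Fin r → (Fin 2 →₀ ℕ) → ℂ, ∃ τ : MvPolynomial (Fin 3) ℂ,
      (τ = 0 ∨ 6 ≤ n ∧ τ.IsHomogeneous (n - 6)) ∧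
      (∀ j m, (L j).a * m 0 + (L j).b * m 1 + 2 * ((L j).a + (L j).b) < (L j).N →
        coeff m ((L j).tay τ) = c j m) ∧ Q τ)
    (j : Fin r) (k : ℕ) (σ : MvPolynomial (Fin 3) ℂ) (hσ : σ.IsHomogeneous k) :
    ∃ (τ ℓ₁ ℓ₂ : MvPolynomial (Fin 3) ℂ) (l₁ l₂ : ℕ),
      (τ = 0 ∨ 6 ≤ n) ∧ τ.IsHomogeneous (n - 6) ∧ ℓ₁.IsHomogeneous l₁ ∧ ℓ₂.IsHomogeneous l₂ ∧
      eval (L j).p ℓ₁ ≠ 0 ∧ eval (L j).p ℓ₂ ≠ 0 ∧ n - 6 + l₁ = k + l₂ ∧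
      (∀ i, i ≠ j → JJ (L i) (n - 6) τ) ∧ JJ (L j) (k + l₂) (ℓ₁ * τ - ℓ₂ * σ) ∧ Q τ :=
  G2a.interpQ hL h j k σ hσ

/-- (G2) The hypothesis `hI` from the independence. -/
theorem interp {L : Fin r → Loc} (hL : ∀ j, LinearIndependent ℂ ![(L j).p, (L j).u, (L j).w])
    (ha : ∀ j, 0 < (L j).a ∧ 0 < (L j).b) (hφ : ∀ j, (L j).φ.eval 0 = 0)
    (h : IndepW L n) (j : Fin r) (k : ℕ) (σ : MvPolynomial (Fin 3) ℂ) (hσ : σ.IsHomogeneous k) :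
    ∃ (τ ℓ₁ ℓ₂ : MvPolynomial (Fin 3) ℂ) (l₁ l₂ : ℕ),
      (τ = 0 ∨ 6 ≤ n) ∧ τ.IsHomogeneous (n - 6) ∧ ℓ₁.IsHomogeneous l₁ ∧ ℓ₂.IsHomogeneous l₂ ∧
      eval (L j).p ℓ₁ ≠ 0 ∧ eval (L j).p ℓ₂ ≠ 0 ∧ n - 6 + l₁ = k + l₂ ∧
      (∀ i, i ≠ j → JJ (L i) (n - 6) τ) ∧ JJ (L j) (k + l₂) (ℓ₁ * τ - ℓ₂ * σ) := by
  obtain ⟨τ, ℓ₁, ℓ₂, l₁, l₂, h1, h2, h3, h4, h5, h6, h7, h8, h9, -⟩ :=
    interpQ hL ha hφ (Q := fun _ => True)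
      (fun c => by obtain ⟨τ, hτ, hc⟩ := h c; exact ⟨τ, hτ, hc, trivial⟩) j k σ hσ
  exact ⟨τ, ℓ₁, ℓ₂, l₁, l₂, h1, h2, h3, h4, h5, h6, h7, h8, h9⟩

/-- (G3) Forms of high multiplicity. -/
theorem jj_of_mu (L : Loc) (h : LinearIndependent ℂ ![L.p, L.u, L.w]) (ha : 0 < L.a ∧ 0 < L.b)
    (hφ : L.φ.eval 0 = 0) :
    ∃ R, ∀ k σ, σ.IsHomogeneous k → Mu L.p R σ → JJ L k σ :=
  G2b.jj_of_mu L ha hφ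

end MPb07157.O3
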