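import Pool.Agent.Lib.MP_b07157_agO3.TG
import Pool.Agent.Lib.MP_b07157_agB3.Loc2R

/-!
# The local lemma at a semi-quasi-homogeneous point
-/

noncomputable section

namespace MPb07157.O3

open MvPolynomial MPb07157Q
open MPb07157.OK
open MPb07157.OB (Dat)

variable {r n d : ℕ} {f P : MvPolynomial (Fin 3) ℂ} {v : Fin 3 → MvPolynomial (Fin 3) ℂ}
  {b : Fin r → Fin 3 → ℂ} {c : ℂ} {t : Fin 3 → Kf} {Sec : (Fin 3 → ℂ) → Kf → Prop}

private theorem lA_cuK_hk {g : Kf} {v : Fin 3 → MvPolynomial (Fin 3) ℂ} {n : ℕ} (hn : 0 < n)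
    (hg : Hk (3 - n) g) (hv : ∀ i, (v i).IsHomogeneous (n - 1)) (k : Fin 3) :
    Hk 1 (cuK (fun j => g * fr (v j)) k) := by
  have h1 : ∀ i j, Hk 1 (DK i (g * fr (v j))) := by
    intro i j
    have h2 := (hg.mul (Hk.fr (hv j))).DK i
    have h3 : (3 : ℤ) - n + ((n - 1 : ℕ) : ℤ) - 1 = 1 := by omega
    rwa [h3] at h2
  exact (h1 _ _).sub (h1 _ _)

/-- (L) The local lemma at a bad point (helper51). -/
theorem loc_an {l : ℕ} {g : Fin l → MvPolynomial (Fin 3) ℂ} {m : Fin l → ℕ} (hf : IsFact f g m)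
    (h : Dat f (∏ j, g j) (vv g m) d n) (hb : ∀ j, b j ≠ 0)
    (hbb : ∀ i j, i ≠ j → ∀ c : ℂ, b i ≠ c • b j) (hc : c ≠ 0)
    (hS : Sol f (vv g m) n b c t Sec) (hR : SolR f (vv g m) n b t Sec) (j : Fin r) {L : Loc}
    (hp : L.p = b j) (hL : L.Sqh (∏ j, g j)) {k : ℕ} {σ : MvPolynomial (Fin 3) ℂ}
    (hσ : JJ L k σ) : An b n Sec j k σ := by
  obtain ⟨x, y, z, mz, hx1, hy1, hz1, hmz, hxb, hyb, hzb, y0, z0, hyz, hloc⟩ := loc_gen hf h hL
  rw [hp] at hxb hyb hzb hyz hloc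
  obtain ⟨e0, h0, hh0, h0b, h0i⟩ := exists_sep hbb j
  have hE : (x * h0).IsHomogeneous (1 + e0) := hx1.mul hh0
  have hEb : eval (b j) (x * h0) ≠ 0 := by
    rw [map_mul]
    exact mul_ne_zero hxb h0b
  have hEi : ∀ i, i ≠ j → eval (b i) (x * h0) = 0 := by
    intro i hi
    rw [map_mul, h0i i hi, mul_zero]
  have hx : x ∣ x * h0 := dvd_mul_right _ _
  obtain ⟨cx, hcx, hxc⟩ := exists_lfc hx1 (fun h1 => hxb (by rw [h1, map_zero]))
  generalize x * h0 = e at hE hEb hEi hx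
  have hE0 : e ≠ 0 := by
    rintro rfl
    exact hEb (map_zero _)
  have hex : ∀ (w : MvPolynomial (Fin 3) ℂ) (mw : ℕ), w.IsHomogeneous mw → w ≠ 0 →
      eval (b j) w = 0 →
      ∃ g', Hk (3 - n) g' ∧ (∀ q, eval q (w * e) ≠ 0 → Sec q g') ∧
        Res f x (w * e) fun k => t k + cuK (fun j => g' * fr (vv g m j)) k := by
    intro w mw hw w0 wb
    have hwe : ∀ i, eval (b i) (w * e) = 0 := by
      intro i
      rw [map_mul]
      by_cases hi : i = j
      · rw [hi, wb, zero_mul]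
      · rw [hEi i hi, mul_zero]
    obtain ⟨g', a1, a2, a3⟩ :=
      hR (mw + (1 + e0)) (w * e) (by omega) (hw.mul hE) (mul_ne_zero w0 hE0) hwe
    refine ⟨g', a1, a2, ?_⟩
    rw [hxc]
    exact a3 cx hcx
  obtain ⟨g1, hg1, hs1, R1⟩ := hex y 1 hy1 y0 hyb
  obtain ⟨g2, hg2, hs2, R2⟩ := hex z mz hz1 z0 hzb
  have hkill : ∀ g' : Kf,
      ∑ k, (t k + cuK (fun j => g' * fr (vv g m j)) k) * DK k (fr f) = 0 := by
    intro g'
    have h1 := hS.kill
    have h2 := cu_kills h g'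
    have h3 : ∑ k, (t k + cuK (fun j => g' * fr (vv g m j)) k) * DK k (fr f) =
        ∑ k, t k * DK k (fr f) + ∑ k, cuK (fun j => g' * fr (vv g m j)) k * DK k (fr f) := by
      rw [← Finset.sum_add_distrib]
      exact Finset.sum_congr rfl fun k _ => add_mul _ _ _
    rw [h3, h1, h2, add_zero]
  have hdiv : ∀ g' : Kf,
      dvK (fun k => t k + cuK (fun j => g' * fr (vv g m j)) k) = algebraMap ℂ Kf c := by
    intro g'
    have h1 := hS.div
    have h2 := dvK_cuK (fun j => g' * fr (vv g m j))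
    have h3 : dvK (fun k => t k + cuK (fun j => g' * fr (vv g m j)) k) =
        dvK t + dvK (cuK (fun j => g' * fr (vv g m j))) := by
      unfold dvK
      rw [← Finset.sum_add_distrib]
      exact Finset.sum_congr rfl fun k _ => map_add _ _ _
    rw [h3, h1, h2, add_zero]
  have LHh : LH f (vv g m) n y z e c (fun k => t k + cuK (fun j => g1 * fr (vv g m j)) k)
      (fun k => t k + cuK (fun j => g2 * fr (vv g m j)) k) (g1 - g2) := by
    refine ⟨fun q hq k => hS.reg q g1 (hs1 q hq) k, fun q hq k => hS.reg q g2 (hs2 q hq) k,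
      fun q hq => ?_, fun k => (hS.hom k).add (lA_cuK_hk h.hn hg1 h.hv k),
      fun k => (hS.hom k).add (lA_cuK_hk h.hn hg2 h.hv k), hg1.sub hg2, hkill g1, hkill g2,
      hdiv g1, hdiv g2, fun k => ?_⟩
    · rw [map_mul, map_mul] at hq
      have q1 := left_ne_zero_of_mul hq
      have qe := right_ne_zero_of_mul hq
      refine hS.uniq q g1 g2 (hs1 q ?_) (hs2 q ?_)
      · rw [map_mul]
        exact mul_ne_zero (left_ne_zero_of_mul q1) qe
      · rw [map_mul]
        exact mul_ne_zero (right_ne_zero_of_mul q1) qe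
    · rw [← Loc2Aux.cuK_sub g1 g2]
      ring
  obtain ⟨s1, hs, hsy, hsz⟩ := hloc e (1 + e0) c _ _ _ hE hEb hx hc LHh R1 R2 k σ hσ
  refine ⟨e, fr σ * g1 - s1, ⟨_, hE⟩, hEb, hEi, ?_, fun q G' hq hoff hSec => ?_⟩
  · have h1 := (Hk.fr hσ.1).mul hg1
    have h2 : (k : ℤ) + (3 - n) = 3 - n + k := by ring
    rw [h2] at h1
    exact h1.sub hs
  · by_cases hy : eval q y = 0
    · by_cases hz : eval q z = 0
      · have hxq : eval q x ≠ 0 := by
          obtain ⟨e', he'⟩ := hx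
          rw [he', map_mul] at hq
          exact left_ne_zero_of_mul hq
        obtain ⟨c', hc'⟩ := hyz q hxq hy hz
        exact absurd hc' (hoff.2 j c')
      · have hq' : eval q (z * e) ≠ 0 := by
          rw [map_mul]
          exact mul_ne_zero hz hq
        have h1 : fr σ * G' - (fr σ * g1 - s1) =
            fr σ * (G' - g2) - (fr σ * (g1 - g2) - s1) := by ring
        rw [h1]
        exact ((RegAt.fr q σ).mul (hS.uniq q G' g2 hSec (hs2 q hq'))).sub (hsz q hq')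
    · have hq' : eval q (y * e) ≠ 0 := by
        rw [map_mul]
        exact mul_ne_zero hy hq
      have h1 : fr σ * G' - (fr σ * g1 - s1) = fr σ * (G' - g1) + s1 := by ring
      rw [h1]
      exact ((RegAt.fr q σ).mul (hS.uniq q G' g1 hSec (hs1 q hq'))).add (hsy q hq')

end MPb07157.O3
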