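import Pool.Agent.Lib.MP_b07157_agO3.SD
import Pool.Agent.Lib.MP_b07157_agB3.TrKR

/-!
# Ordinary multiple points are semi-quasi-homogeneous
-/

noncomputable section

namespace MPb07157.O3

open MvPolynomial MPb07157Q
open MPb07157.OK
open MPb07157.OK.TrAux (Mat exists_mat eqv eqv_apply hom_eqv mu_eqv)

/-- The linear map `x i ↦ u i X 0 + w i X 1`. -/
def osR (u w : Fin 3 → ℂ) : MvPolynomial (Fin 3) ℂ →ₐ[ℂ] MvPolynomial (Fin 2) ℂ :=
  aeval fun i => C (u i) * X 0 + C (w i) * X 1

theorem os_tay (b u w : Fin 3 → ℂ) (F : MvPolynomial (Fin 3) ℂ) :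
    Tay b u w 0 F = osR u w (translate b F) := by
  have h : (aeval (fun i => C (b i) + C (u i) * X 0 + C (w i) * (X 1 +
      Polynomial.aeval (X 0) (0 : Polynomial ℂ))) :
      MvPolynomial (Fin 3) ℂ →ₐ[ℂ] MvPolynomial (Fin 2) ℂ) =
      (osR u w).comp (aeval fun i => X i + C (b i)) := by
    apply MvPolynomial.algHom_ext
    intro j
    rw [AlgHom.comp_apply, aeval_X, aeval_X, map_add, map_zero, add_zero]
    have h1 : osR u w (X j) = C (u j) * X 0 + C (w j) * X 1 := aeval_X _ _
    have h2 : osR u w (C (b j)) = C (b j) := aeval_C _ _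
    rw [h1, h2]
    ring
  exact congrArg (fun φ : MvPolynomial (Fin 3) ℂ →ₐ[ℂ] MvPolynomial (Fin 2) ℂ => φ F) h

theorem os_hom (u w : Fin 3 → ℂ) {f : MvPolynomial (Fin 3) ℂ} {d : ℕ}
    (hf : f.IsHomogeneous d) : (osR u w f).IsHomogeneous d := by
  have h := hf.aeval (fun j => (C (u j) * X 0 + C (w j) * X 1 : MvPolynomial (Fin 2) ℂ)) (n := 1)
    fun j => ((isHomogeneous_X ℂ 0).C_mul (u j)).add ((isHomogeneous_X ℂ 1).C_mul (w j))
  rw [one_mul] at h
  exact h

theorem os_comp (u w : Fin 3 → ℂ) (j : ℕ) (f : MvPolynomial (Fin 3) ℂ) :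
    homogeneousComponent j (osR u w f) = osR u w (homogeneousComponent j f) := by
  have h1 : osR u w f = ∑ i ∈ Finset.range (f.totalDegree + 1),
      osR u w (homogeneousComponent i f) := by
    rw [← map_sum, sum_homogeneousComponent]
  rw [h1, map_sum]
  have h2 : ∀ i, homogeneousComponent j (osR u w (homogeneousComponent i f)) =
      if j = i then osR u w (homogeneousComponent i f) else 0 := fun i =>
    homogeneousComponent_of_mem ((mem_homogeneousSubmodule _ _).2
      (os_hom u w (homogeneousComponent_isHomogeneous i f)))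
  simp only [h2]
  rw [Finset.sum_ite_eq]
  split_ifs with h
  · rfl
  · rw [homogeneousComponent_eq_zero _ _ (by
      rw [Finset.mem_range] at h
      omega), map_zero]

theorem os_deg (m : Fin 2 →₀ ℕ) : m.degree = 1 * m 0 + 1 * m 1 := by
  rw [Finsupp.degree_eq_sum, Fin.sum_univ_two, one_mul, one_mul]

theorem os_ge (b u w : Fin 3 → ℂ) {m : ℕ} {F : MvPolynomial (Fin 3) ℂ} (h : Mu b m F) :
    WGe 1 1 m (Tay b u w 0 F) := by
  intro d hd
  by_contra hcon
  rw [← os_deg] at hcon
  apply hd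
  have h1 : coeff d (homogeneousComponent d.degree (Tay b u w 0 F)) = 0 := by
    rw [os_tay, os_comp, h _ (Nat.lt_of_not_le hcon), map_zero, coeff_zero]
  rwa [coeff_homogeneousComponent, if_pos rfl] at h1

theorem os_part (K : ℕ) (G : MvPolynomial (Fin 2) ℂ) :
    WPart 1 1 K G = homogeneousComponent K G := by
  classical
  rw [WPart, homogeneousComponent_apply]
  refine Finset.sum_congr ?_ fun _ _ => rfl
  refine Finset.filter_congr fun m _ => ?_
  rw [os_deg]

/-- The left inverse of `rename Fin.succ`. -/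
def osP : MvPolynomial (Fin 3) ℂ →ₐ[ℂ] MvPolynomial (Fin 2) ℂ :=
  aeval (Fin.cons 0 X : Fin 3 → MvPolynomial (Fin 2) ℂ)

theorem osP_rename (G : MvPolynomial (Fin 2) ℂ) : osP (rename Fin.succ G) = G := by
  have h : osP.comp (rename Fin.succ) = AlgHom.id ℂ (MvPolynomial (Fin 2) ℂ) := by
    apply MvPolynomial.algHom_ext
    intro j
    rw [AlgHom.comp_apply, rename_X]
    have h1 : osP (X j.succ) = (Fin.cons 0 X : Fin 3 → MvPolynomial (Fin 2) ℂ) j.succ :=
      aeval_X _ _
    rw [h1]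
    rfl
  exact congrArg (fun φ : MvPolynomial (Fin 2) ℂ →ₐ[ℂ] MvPolynomial (Fin 2) ℂ => φ G) h

theorem os_inv {K : MvPolynomial (Fin 3) ℂ} (h : degreeOf 0 K = 0) :
    rename Fin.succ (osP K) = K := by
  have h1 : ((rename Fin.succ).comp osP).toRingHom K = (RingHom.id _) K := by
    refine MvPolynomial.hom_congr_vars ?_ ?_ rfl
    · ext c
      simp [osP]
    · intro i hi _
      have hi0 : i ≠ 0 := by
        rintro rfl
        rw [mem_vars_iff_mem_support] at hi
        obtain ⟨d, hd, hd0⟩ := hi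
        have := (degreeOf_le_iff.1 h.le) d hd
        rw [Finsupp.mem_support_iff] at hd0
        omega
      obtain ⟨j, rfl⟩ := Fin.exists_succ_eq.2 hi0
      have h2 : osP (X j.succ) = X j := aeval_X _ _
      change rename Fin.succ (osP (X j.succ)) = X j.succ
      rw [h2, rename_X]
  exact h1

theorem os_sub (p : Fin 3 → Fin 3 → ℂ) (F : MvPolynomial (Fin 3) ℂ) :
    osP (MPb07157.OB.LinAux.sub p F) = osR (p 1) (p 2) F := by
  have h : osP.comp (MPb07157.OB.LinAux.sub p) = osR (p 1) (p 2) := by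
    apply MvPolynomial.algHom_ext
    intro j
    rw [AlgHom.comp_apply, MPb07157.OB.LinAux.sub_X, map_sum, Fin.sum_univ_three]
    have h0 : osP (X 0) = 0 := aeval_X _ _
    have h1 : osP (X 1) = X 0 := aeval_X _ _
    have h2 : osP (X 2) = X 1 := aeval_X _ _
    have hC : ∀ c : ℂ, osP (C c) = C c := fun c => aeval_C _ _
    have h3 : osR (p 1) (p 2) (X j) = C (p 1 j) * X 0 + C (p 2 j) * X 1 := aeval_X _ _
    rw [map_mul, map_mul, map_mul, h0, h1, h2, hC, hC, hC, h3, mul_zero, zero_add]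
  exact congrArg (fun φ : MvPolynomial (Fin 3) ℂ →ₐ[ℂ] MvPolynomial (Fin 2) ℂ => φ F) h

theorem os_lin {p q : Fin 3 → Fin 3 → ℂ} {D : ℂ} (M : Mat p q D) :
    LinearIndependent ℂ ![p 0, p 1, p 2] := by
  have h : ![p 0, p 1, p 2] = p := by
    funext i
    fin_cases i <;> rfl
  rw [h, Fintype.linearIndependent_iff]
  intro c hc j
  have h1 : ∑ k, (∑ l, c l • p l) k * q k j = c j := by
    have h2 : ∀ k, (∑ l, c l • p l) k * q k j = ∑ l, c l * (p l k * q k j) := fun k => by
      rw [Finset.sum_apply, Finset.sum_mul]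
      refine Finset.sum_congr rfl fun l _ => ?_
      rw [Pi.smul_apply, smul_eq_mul, mul_assoc]
    simp only [h2]
    rw [Finset.sum_comm]
    have h3 : ∀ l, ∑ k, c l * (p l k * q k j) = if l = j then c l else 0 := fun l => by
      rw [← Finset.mul_sum, M.pq]
      split_ifs
      · rw [mul_one]
      · rw [mul_zero]
    simp only [h3]
    rw [Finset.sum_ite_eq' Finset.univ j, if_pos (Finset.mem_univ _)]
  rw [hc] at h1
  rw [← h1]
  simp

/-- (OS) An ordinary multiple point of multiplicity `μ ≥ 2` is semi-quasi-homogeneous for the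
weights `1`, `1`. `P` is the reduced equation, a form of degree `n`.

Proof. Choose `M : Mat p q D` with `p 0 = b` (`MPb07157.OK.exists_mat`), and put `L.p = b`,
`L.u = p 1`, `L.w = p 2`, `L.φ = 0`, `L.a = L.b = 1`, `L.N = μ`; the three vectors are independent
by `M`. Then `Tay b u w 0 F = ρ (translate b F)`, `ρ = aeval fun i => C (u i) * X 0 + C (w i) * X 1`
a graded map, so the monomials of `Tay b u w 0 F` have degree at least `m` if `Mu b m F`; this gives
`ge` and the last claim. `WPart 1 1 μ (Tay b u w 0 P)` is the homogeneous component of degree `μ` of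
`Tay b u w 0 P`, that is `ρ H`, `H = homogeneousComponent μ (translate b P)`. Let `Φ = eqv M`
(`Φ F (x) = F (x 0 p 0 + x 1 p 1 + x 2 p 2)`). Then `Φ H = homogeneousComponent μ (translate e₀ Φ P)`
(`translate_sub`, `homogComp_sub`) has degree `0` in `X 0` (`MPb07157.OB.degreeOf_low`), so it is
`rename Fin.succ (ρ H)`, and it is squarefree (`squarefree_equiv`); hence `ρ H` is squarefree
(`rename Fin.succ` has a left inverse). -/
theorem ordSqh {P : MvPolynomial (Fin 3) ℂ} {n : ℕ} (hP : P.IsHomogeneous n) {b : Fin 3 → ℂ}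
    (hb : b ≠ 0) {μ : ℕ} (h2 : 2 ≤ μ) (hμ : Mu b μ P)
    (hs : Squarefree (homogeneousComponent μ (translate b P))) :
    ∃ L : Loc, L.p = b ∧ L.Sqh P ∧
      ∀ k σ, σ.IsHomogeneous k → Mu b (μ - 4) σ → JJ L k σ := by
  obtain ⟨p, q, D, M, rfl⟩ := exists_mat hb
  refine ⟨⟨p 0, p 1, p 2, 0, 1, 1, μ⟩, rfl, ⟨os_lin M, Nat.one_pos, Nat.one_pos, h2, ?_, ?_, ?_⟩,
    fun k σ hσ h4 => ⟨hσ, os_ge _ _ _ h4⟩⟩
  · exact Polynomial.eval_zero
  · exact os_ge _ _ _ hμ
  · change Squarefree (WPart 1 1 μ (Tay (p 0) (p 1) (p 2) 0 P))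
    rw [os_part, os_tay, os_comp]
    set H := homogeneousComponent μ (translate (p 0) P) with hH
    have e1 : homogeneousComponent μ (translate (Pi.single 0 (1 : ℂ)) (eqv M P)) = eqv M H := by
      rw [eqv_apply, MPb07157.OB.LinAux.translate_sub, MPb07157.OB.LinAux.homogComp_sub]
      rfl
    have e2 : degreeOf 0 (eqv M H) = 0 := by
      rw [← e1]
      exact MPb07157.OB.degreeOf_low (hom_eqv M hP) 0
        ((MPb07157.OB.ge_iff (hom_eqv M hP) 0 μ).2 ((mu_eqv M).2 hμ))
    have e3 : Squarefree (eqv M H) := MPb07157.OB.LinAux.squarefree_equiv (eqv M) hs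
    have e4 : rename Fin.succ (osR (p 1) (p 2) H) = eqv M H := by
      rw [← os_sub, ← eqv_apply M]
      exact os_inv e2
    intro x hx
    have h5 : rename Fin.succ x * rename Fin.succ x ∣ eqv M H := by
      rw [← e4, ← map_mul]
      exact map_dvd (rename Fin.succ) hx
    have h6 := (e3 _ h5).map osP
    rwa [osP_rename] at h6

end MPb07157.O3
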