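import Pool.Agent.Lib.MP_b07157_agO3.G1
import Pool.Agent.Lib.MP_b07157_agO3.G2
import Pool.Agent.Lib.MP_b07157_agO3.LA
import Pool.Agent.Lib.MP_b07157_agO3.OS
import Pool.Agent.Lib.MP_b07157_agB3.FinR

/-!
# The root `-3/d` for curves with quasi-homogeneous, ordinary and semi-quasi-homogeneous points
-/

noncomputable section

namespace MPb07157.O3

open MvPolynomial MPb07157Q
open MPb07157.OK
open MPb07157.OB (Dat)

variable {r n d : ℕ} {f : MvPolynomial (Fin 3) ℂ} {b : Fin r → Fin 3 → ℂ}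
  {Sec : (Fin 3 → ℂ) → Kf → Prop}

/-- A local solution at a bad point gives the local data for every multiplicity. -/
theorem ls_of_an (hn : 3 ≤ n) {j : Fin r} (h : An b n Sec j 0 1) (μ : ℕ) :
    ∃ e s, LS b n μ j Sec e s := by
  obtain ⟨e, s, he, e0, ei, hk, hr⟩ := h
  refine ⟨e, fun σ => fr σ * s, he, e0, ei, fun σ hσ => ?_, fun σ hσ q G hq hoff hs => ?_,
    fun σ τ _ _ => ?_⟩
  · have h1 := (Hk.fr hσ.1).mul hk
    have e1 : ((n - 3 : ℕ) : ℤ) + (3 - n + ((0 : ℕ) : ℤ)) = 0 := by omega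
    rwa [e1] at h1
  · have h1 := (RegAt.fr q σ).mul (hr q G hq hoff hs)
    have e1 : fr σ * G - fr σ * s = fr σ * (fr 1 * G - s) := by
      rw [map_one]
      ring
    rw [e1]
    exact h1
  · have e1 : fr τ * (fr σ * s) - fr σ * (fr τ * s) = 0 := by ring
    rw [e1]
    exact ⟨0, 1, by simp, Mu.zero _ _, by simp⟩

/-- The bad points, with the given coordinates of the listed points. -/
theorem exists_bad' {l : ℕ} {g : Fin l → MvPolynomial (Fin 3) ℂ} {m : Fin l → ℕ}
    (hf : IsFact f g m) (hd : 0 < d) (hh : f.IsHomogeneous d) {r₀ : ℕ} (L : Fin r₀ → Loc)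
    (hpts : ∀ q, q ≠ 0 → eval q f = 0 →
      IsWHAt f q ∨ OrdPt f q ∨ ∃ (j : Fin r₀) (c : ℂ), q = c • (L j).p) :
    ∃ (r : ℕ) (b : Fin r → Fin 3 → ℂ), (∀ j, b j ≠ 0) ∧
      (∀ i j, i ≠ j → ∀ c : ℂ, b i ≠ c • b j) ∧
      (∀ j, eval (b j) f = 0 ∧ ¬ QHat f (b j)) ∧
      (∀ q, OffB b q → eval q f = 0 → QHat f q) ∧
      ∀ j, (∃ i, (L i).p = b j) ∨
        (¬ IsWHAt f (b j) ∧ OrdPt f (b j) ∧ ∀ i (c : ℂ), b j ≠ c • (L i).p) := by
  obtain ⟨r, p, hp0, hpp, hbad, hq⟩ := exists_bad hf hd hh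
  have h1 : ∀ j, ∃ (q : Fin 3 → ℂ) (c : ℂ), c ≠ 0 ∧ q = c • p j ∧
      ((∃ i, (L i).p = q) ∨
        (¬ IsWHAt f q ∧ OrdPt f q ∧ ∀ i (c : ℂ), q ≠ c • (L i).p)) := by
    intro j
    by_cases hj : ∃ (i : Fin r₀) (c : ℂ), p j = c • (L i).p
    · obtain ⟨i, c, hc⟩ := hj
      have hc0 : c ≠ 0 := by
        rintro rfl
        exact hp0 j (by rw [hc, zero_smul])
      refine ⟨(L i).p, c⁻¹, inv_ne_zero hc0, ?_, Or.inl ⟨i, rfl⟩⟩
      rw [hc, smul_smul, inv_mul_cancel₀ hc0, one_smul]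
    · push Not at hj
      have hw : ¬ IsWHAt f (p j) := fun h => (hbad j).2 (qhat_of_isWHAt hd hh (hp0 j) h)
      refine ⟨p j, 1, one_ne_zero, (one_smul _ _).symm, Or.inr ⟨hw, ?_, hj⟩⟩
      rcases hpts (p j) (hp0 j) (hbad j).1 with h | h | ⟨i, c, h⟩
      · exact absurd h hw
      · exact h
      · exact absurd h (hj i c)
  choose b c hc hbp hcase using h1
  have hpb : ∀ j, p j = (c j)⁻¹ • b j := by
    intro j
    rw [hbp, smul_smul, inv_mul_cancel₀ (hc j), one_smul]
  refine ⟨r, b, fun j h0 => ?_, fun i j hij c' h0 => ?_, fun j => ⟨?_, fun hQ => ?_⟩,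
    fun q hq' h0 => ?_, hcase⟩
  · rw [hbp] at h0
    exact hp0 j ((smul_eq_zero.1 h0).resolve_left (hc j))
  · refine hpp i j hij ((c i)⁻¹ * (c' * c j)) ?_
    rw [hpb i, h0, hbp j, smul_smul, smul_smul]
    congr 1
    ring
  · rw [hbp, GlobAux.eval_smul hh, (hbad j).1, mul_zero]
  · apply (hbad j).2
    rw [hpb]
    exact FinAAux.qhat_smul hh (inv_ne_zero (hc j)) hQ
  · refine hq q ⟨hq'.1, fun j c' h1 => ?_⟩ h0
    rw [hpb, smul_smul] at h1
    exact hq'.2 j _ h1

/-- A nonzero constant factor does not matter. -/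
theorem sqh_of_C_mul {L : Loc} {P : MvPolynomial (Fin 3) ℂ} {u : ℂ} (hu : u ≠ 0)
    (h : L.Sqh (C u * P)) : L.Sqh P := by
  have e1 : L.tay (C u * P) = C u * L.tay P := by
    unfold Loc.tay Tay
    rw [map_mul, algHom_C]
    rfl
  have e2 : ∀ m, coeff m (L.tay (C u * P)) = u * coeff m (L.tay P) := by
    intro m
    rw [e1, coeff_C_mul]
  have e3 : WPart L.a L.b L.N (L.tay (C u * P)) = C u * WPart L.a L.b L.N (L.tay P) := by
    unfold WPart
    have e4 : (L.tay (C u * P)).support = (L.tay P).support := by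
      ext m
      rw [mem_support_iff, mem_support_iff, e2]
      exact mul_ne_zero_iff_left hu |>.trans Iff.rfl
    rw [e4, Finset.mul_sum]
    refine Finset.sum_congr rfl fun m _ => ?_
    rw [e2, C_mul_monomial]
  refine ⟨h.ind, h.ha, h.hb, h.hN, h.hφ, fun m hm => h.ge m ?_, ?_⟩
  · rw [e2]
    exact mul_ne_zero hu hm
  · have h1 := h.sq
    rw [e3] at h1
    exact fun x hx => h1 x (hx.mul_left _)

end MPb07157.O3

namespace MPb07157

open MvPolynomial MPb07157Q

open O3 OK in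
/-- **The root `-3/d`** for curves all of whose points are quasi-homogeneous, ordinary, or
semi-quasi-homogeneous with independent conditions. -/
theorem root_of_sqhOrd {f : MvPolynomial (Fin 3) ℂ} (hf : f ≠ 0) {d : ℕ} (hd : 0 < d)
    (hh : f.IsHomogeneous d) (hNS : NS f) (h : SqhOrd f) {b : Polynomial ℂ}
    (hb : IsBernsteinSato f b) : b.eval (((-(3 / d) : ℚ)) : ℂ) = 0 := by
  classical
  obtain ⟨F, k₀, n₀, r₀, L, hsq, hFf, hfF, hFn, hL, hI, hpts⟩ := h
  obtain ⟨l, g, m, hfact⟩ := exists_isFact hf hd hh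
  obtain ⟨n, hD⟩ := OB.dat_of_isFact hfact hd hh
  obtain ⟨u, hu, hF⟩ := OB.eq_of_squarefree hfact hsq hFf hfF
  have hn0 : n₀ = n := by
    have h1 : F.IsHomogeneous n := by
      rw [hF]
      have h2 := (isHomogeneous_C (Fin 3) u).mul hD.hP
      rwa [zero_add] at h2
    exact hFn.inj_right h1 hsq.ne_zero
  subst hn0
  have hL' : ∀ j, (L j).Sqh (∏ j, g j) := fun j => sqh_of_C_mul hu (by rw [← hF]; exact hL j)
  obtain ⟨r, p, hp0, hpp, hbad, hq, hcase⟩ := exists_bad' hfact hd hh L hpts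
  have hform := OB.form_of_bs hb
  rcases Nat.eq_zero_or_pos r with hr | hr
  · subst hr
    exact root_of_qh hfact hd hh (fun q hq0 h0 => hq q ⟨hq0, fun j => j.elim0⟩ h0) hNS b hform
  · choose μ h2 hlt hμ hμ' using fun j =>
      exists_mu hfact hd hh hNS (hp0 j) (hbad j).1 (hbad j).2 hD.hP
    have hn : 3 ≤ n₀ := by
      have := h2 ⟨0, hr⟩
      have := hlt ⟨0, hr⟩
      omega
    have key : ∀ G : MvPolynomial (Fin 3) (MvPolynomial (Fin 3) ℂ),
        (∀ q : ℕ, Psi ((f : MvPowerSeries (Fin 3) ℂ) ^ q) G = 0) → cc G = 0 := by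
      intro G hG
      by_contra hcc
      obtain ⟨t, Sec, hS, hR⟩ := totK' hD hq hp0 G hG
      have hc : -(cc G) ≠ 0 := neg_ne_zero.2 hcc
      -- the listed index of a bad point
      have ho : ∀ j, ∃ o : Option (Fin r₀), (∀ i, o = some i → (L i).p = p j) ∧
          (o = none → ¬ IsWHAt f (p j) ∧ OrdPt f (p j) ∧ ∀ i (c : ℂ), p j ≠ c • (L i).p) := by
        intro j
        rcases hcase j with ⟨i, hi⟩ | h
        · refine ⟨some i, fun i' h' => ?_, fun h' => ?_⟩
          · rw [← Option.some.inj h']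
            exact hi
          · exact absurd h' (Option.some_ne_none i)
        · exact ⟨none, fun i h' => absurd h'.symm (Option.some_ne_none i), fun _ => h⟩
      choose o ho1 ho2 using ho
      let J : Fin r → ℕ → MvPolynomial (Fin 3) ℂ → Prop := fun j k σ =>
        (∀ i, o j = some i → JJ (L i) k σ) ∧ (o j = none → Mu (p j) (μ j - 4) σ)
      have hJ : ∀ j k σ, σ.IsHomogeneous k → J j k σ → An p n₀ Sec j k σ := by
        intro j k σ hσ hj
        rcases hoj : o j with _ | i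
        · have ho' := (ho2 j hoj).2.1
          obtain ⟨L', hp, hSq, hJJ⟩ := ordSqh hD.hP (hp0 j) (h2 j) (hμ j)
            (sq_init' hfact ho' (hμ j) (hμ' j))
          exact loc_an hfact hD hp0 hpp hc hS hR j hp hSq (hJJ k σ hσ (hj.2 hoj))
        · exact loc_an hfact hD hp0 hpp hc hS hR j (ho1 j i hoj) (hL' i) (hj.1 i hoj)
      have hone : ∀ j i, o j = some i → An p n₀ Sec j 0 1 := by
        intro j i hoj
        have hpj := ho1 j i hoj
        refine an_one hS hp0 hpp hJ j ?_ ?_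
        · obtain ⟨R, hR'⟩ := jj_of_mu (L i) (hL i).ind ⟨(hL i).ha, (hL i).hb⟩ (hL i).hφ
          refine ⟨R, fun k σ hσ hm => ⟨fun i' hi' => ?_, fun hn' => ?_⟩⟩
          · have : i' = i := by
              rw [hoj] at hi'
              exact (Option.some.inj hi').symm
            rw [this]
            exact hR' k σ hσ (by rw [hpj]; exact hm)
          · rw [hoj] at hn'
            exact absurd hn' (Option.some_ne_none i)
        · intro k σ hσ
          obtain ⟨τ, ℓ₁, ℓ₂, l₁, l₂, h6, hτ, a1, a2, a3, a4, a5, a6, a7, a8⟩ :=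
            interpQ (fun j => (hL j).ind) (fun j => ⟨(hL j).ha, (hL j).hb⟩)
              (fun j => (hL j).hφ) hI i k σ hσ
          refine ⟨τ, ℓ₁, ℓ₂, l₁, l₂, h6, hτ, a1, a2, by rw [← hpj]; exact a3,
            by rw [← hpj]; exact a4, a5, fun j' hj' => ⟨fun i' hi' => a6 i' ?_, fun hn' => ?_⟩,
            fun i' hi' => ?_, fun hn' => ?_⟩
          · rintro rfl
            apply hpp j' j hj' 1
            rw [one_smul, ← hpj, ← ho1 j' i' hi']
          · obtain ⟨b1, b2, b3⟩ := ho2 j' hn'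
            refine a8 (p j') (hp0 j') b1 b2 b3 (μ j') fun i' hi' => ?_
            rw [hF, OB.translate_C_mul, homogeneousComponent_C_mul, hμ j' i' hi', mul_zero]
          · have : i' = i := by
              rw [hoj] at hi'
              exact (Option.some.inj hi').symm
            rw [this]
            exact a7
          · rw [hoj] at hn'
            exact absurd hn' (Option.some_ne_none i)
      by_cases hord : ∃ j₀, o j₀ = none
      · obtain ⟨j₀, hj₀⟩ := hord
        refine hc (keyB hD (squarefree_prod hfact) hn hp0 hpp hS hμ h2 hlt j₀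
          (sq_init' hfact (ho2 j₀ hj₀).2.1 (hμ _) (hμ' _)) (fun j => ?_) hNS)
        rcases hoj : o j with _ | i
        · exact loc_sol' hfact hD hn hp0 hpp hc hS hR j (ho2 j hoj).2.1 (hμ j) (hμ' j)
        · exact ls_of_an hn (hone j i hoj) _
      · push Not at hord
        obtain ⟨a, -, ha⟩ := glob_an hS hp0 (isHomogeneous_one _ _) fun j => by
          obtain ⟨i, hi⟩ := Option.ne_none_iff_exists'.1 (hord j)
          exact hone j i hi
        refine hc (c_eq_zero hD hp0 hS hNS (β := a) fun q G hq hG => ?_)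
        have h1 := ha q G hq hG
        rwa [map_one, one_mul] at h1
    have := OB.root_of_key hf hd hh key b hform
    rw [← this]
    congr 1
    push_cast
    ring

/-- The strong monodromy conjecture at `-3/d` for these curves. -/
theorem smc_sqhOrd {f : MvPolynomial (Fin 3) ℂ} (hf : f ≠ 0) {d : ℕ} (hd : 0 < d)
    (hh : f.IsHomogeneous d) (h : SqhOrd f)
    (hp : IsPole (Zmot f) (-(3 / d)) ∨ IsPole (Zmot0 f) (-(3 / d))) {b : Polynomial ℂ}
    (hb : IsBernsteinSato f b) : b.eval (((-(3 / d) : ℚ)) : ℂ) = 0 := by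
  by_cases hNS : NS f
  · exact root_of_sqhOrd hf hd hh hNS h hb
  · have h0 : coeff 0 f = 0 := by
      rw [← MvPolynomial.notMem_support_iff]
      intro h
      have := hh (mem_support_iff.1 h)
      simp at this
      omega
    have hs : (-(3 / d) : ℚ) < 0 := by
      have : (0 : ℚ) < d := by exact_mod_cast hd
      have : (0 : ℚ) < 3 / d := by positivity
      linarith
    obtain ⟨h1, h2⟩ := stable_of_not_NS hf hd hh hNS
    rcases hp with hp | hp
    · exact SmcGlob.of_stableGlob h2 hf _ hs hp b hb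
    · exact SmcLoc.of_stableLoc h1 hf h0 _ hs hp b (OB.form_of_bs hb)

/-- The condition `AllPt` is the case without listed points. -/
theorem sqhOrd_of_allPt {f : MvPolynomial (Fin 3) ℂ} (hf : f ≠ 0) {d : ℕ} (hd : 0 < d)
    (hh : f.IsHomogeneous d) (h : AllPt f) : SqhOrd f := by
  obtain ⟨l, g, m, hfact⟩ := exists_isFact hf hd hh
  obtain ⟨n, hD⟩ := OB.dat_of_isFact hfact hd hh
  refine ⟨∏ j, g j, ∑ j, m j, n, 0, fun j => j.elim0, OK.squarefree_prod hfact, ?_, ?_, hD.hP,
    fun j => j.elim0, fun c => ⟨0, Or.inl rfl, fun j => j.elim0, fun q _ _ _ _ μ _ i _ => ?_⟩,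
    fun q hq h0 => ?_⟩
  · rw [hfact.eq]
    unfold prodPow
    exact Finset.prod_dvd_prod_of_dvd _ _ fun j _ => dvd_pow_self _ (hfact.pos j).ne'
  · rw [hfact.eq, ← Finset.prod_pow]
    unfold prodPow
    exact Finset.prod_dvd_prod_of_dvd _ _ fun j _ => pow_dvd_pow _
      (Finset.single_le_sum (f := m) (fun _ _ => Nat.zero_le _) (Finset.mem_univ j))
  · have e1 : translate q (0 : MvPolynomial (Fin 3) ℂ) = 0 := by
      unfold translate
      simp
    rw [e1, map_zero]
  · rcases h q hq h0 with h1 | h1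
    · exact Or.inl h1
    · exact Or.inr (Or.inl h1)

/-- The condition without ordinary points. -/
theorem SqhIndep.sqhOrd {f : MvPolynomial (Fin 3) ℂ} (h : SqhIndep f) : SqhOrd f := by
  obtain ⟨F, k, n, r, L, hsq, hFf, hfF, hFn, hL, hI, hpts⟩ := h
  refine ⟨F, k, n, r, L, hsq, hFf, hfF, hFn, hL, fun c => ?_, fun q hq h0 => ?_⟩
  · obtain ⟨τ, h1, h2⟩ := hI c
    refine ⟨τ, h1, h2, fun q hq hw _ hl μ hμ i hi => ?_⟩
    exfalso
    by_cases h0 : eval q f = 0
    · rcases hpts q hq h0 with h3 | ⟨j, c', h3⟩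
      · exact hw h3
      · exact hl j c' h3
    · have h3 := hμ 0 (by omega)
      rw [homogeneousComponent_zero, OK.RgC.coeff_zero_translate', C_eq_zero] at h3
      obtain ⟨R, hR⟩ := hFf
      apply h0
      rw [hR, map_mul, h3, zero_mul]
  · rcases hpts q hq h0 with h3 | h3
    · exact Or.inl h3
    · exact Or.inr (Or.inr h3)

end MPb07157
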