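import Pool.Agent.Lib.MP_b07157_agO3.SDefs
import Pool.Agent.Lib.MP_b07157_agB2.KeyB
import Pool.Agent.Lib.MP_b07157_agB3.TotKR
import Pool.Agent.Lib.MP_b07157_agB2.FinA
import Pool.Agent.Lib.MP_b07157_agB.Final
import Pool.Agent.Lib.MP_b07157_agQ.RootQ

/-!
# Semi-quasi-homogeneous points: definitions
-/

noncomputable section

namespace MPb07157

open MvPolynomial MPb07157Q

/-- The conditions of weight less than `N - 2 a - 2 b` at the points are independent on forms of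
degree `n - 6`. -/
def IndepW {r : ℕ} (L : Fin r → Loc) (n : ℕ) : Prop :=
  ∀ c : Fin r → (Fin 2 →₀ ℕ) → ℂ, ∃ τ : MvPolynomial (Fin 3) ℂ,
    (τ = 0 ∨ 6 ≤ n ∧ τ.IsHomogeneous (n - 6)) ∧
    ∀ j m, (L j).a * m 0 + (L j).b * m 1 + 2 * ((L j).a + (L j).b) < (L j).N →
      coeff m ((L j).tay τ) = c j m

namespace O3

open MPb07157.OK
open MPb07157.OB (Dat)

/-- The form `σ` of degree `k` kills the obstruction at `b j`. -/
def An {r : ℕ} (b : Fin r → Fin 3 → ℂ) (n : ℕ) (Sec : (Fin 3 → ℂ) → Kf → Prop) (j : Fin r)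
    (k : ℕ) (σ : MvPolynomial (Fin 3) ℂ) : Prop :=
  ∃ (e : MvPolynomial (Fin 3) ℂ) (s : Kf), (∃ l, e.IsHomogeneous l) ∧ eval (b j) e ≠ 0 ∧
    (∀ i, i ≠ j → eval (b i) e = 0) ∧ Hk (3 - n + k) s ∧
    ∀ q G, eval q e ≠ 0 → OffB b q → Sec q G → RegAt q (fr σ * G - s)

/-- `σ` has degree `k` and weight at least `N - 2 a - 2 b`. -/
def JJ (L : Loc) (k : ℕ) (σ : MvPolynomial (Fin 3) ℂ) : Prop :=
  σ.IsHomogeneous k ∧ WGe L.a L.b (L.N - 2 * (L.a + L.b)) (L.tay σ)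

end O3

/-- Every point of the curve is quasi-homogeneous, or semi-quasi-homogeneous in the local
coordinates `L j`; the conditions of weight less than `N - 2 a - 2 b` are independent on forms of
degree `n - 6`, `n` the degree of the reduced equation `F`. -/
def SqhIndep (f : MvPolynomial (Fin 3) ℂ) : Prop :=
  ∃ (F : MvPolynomial (Fin 3) ℂ) (k n r : ℕ) (L : Fin r → Loc), Squarefree F ∧ F ∣ f ∧ f ∣ F ^ k ∧
    F.IsHomogeneous n ∧ (∀ j, (L j).Sqh F) ∧ IndepW L n ∧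
    ∀ q, q ≠ 0 → eval q f = 0 → IsWHAt f q ∨ ∃ (j : Fin r) (c : ℂ), q = c • (L j).p

end MPb07157
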