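import Pool.Agent.Lib.MP_b07157_agO3.W4
import Pool.Agent.Lib.MP_b07157_agO3.SD

/-!
# The chart `z ↦ z + x φ(y/x)` at the point `(1 : 0 : 0)`
-/

noncomputable section

namespace MPb07157.O3

open MvPolynomial
open MPb07157.OB (La sg ex io td co D Hm Ge Reg gc)

/-- The Laurent polynomial `x φ(y/x)`. -/
def psi (φ : Polynomial ℂ) : La :=
  ∑ j ∈ Finset.range (φ.natDegree + 1), sg ((1 - (j : ℤ)) • ex 0 + (j : ℤ) • ex 1) (φ.coeff j)

/-- The substitution `z ↦ z + x φ(y/x)`. -/
def chP (φ : Polynomial ℂ) : MvPolynomial (Fin 3) ℂ →ₐ[ℂ] La :=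
  aeval ![xx 0, xx 1, xx 2 + psi φ]

/-- The components of the differential form in the new coordinates. -/
def chv (φ : Polynomial ℂ) (v : Fin 3 → MvPolynomial (Fin 3) ℂ) : Fin 3 → La :=
  ![chP φ (v 0) + D 0 (psi φ) * chP φ (v 2), chP φ (v 1) + D 1 (psi φ) * chP φ (v 2), chP φ (v 2)]

theorem cf_psi {φ : Polynomial ℂ} {m : Fin 3 → ℤ} (h : OB.cf m (psi φ) ≠ 0) :
    0 ≤ m 1 ∧ m 2 = 0 ∧ m 0 + m 1 = 1 := by
  unfold psi at h
  rw [map_sum] at h
  obtain ⟨j, _, hj⟩ := Finset.exists_ne_zero_of_sum_ne_zero h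
  rw [OB.cf_sg] at hj
  by_cases h1 : (1 - (j : ℤ)) • ex 0 + (j : ℤ) • ex 1 = m
  · rw [← h1]
    refine ⟨?_, ?_, ?_⟩ <;> simp [ex]
  · rw [if_neg h1] at hj
    exact absurd rfl hj

theorem hm_psi (φ : Polynomial ℂ) : Hm td 1 (psi φ) := by
  intro m hm
  obtain ⟨-, h2, h3⟩ := cf_psi hm
  rw [OB.td_apply, h2, h3, add_zero]

theorem reg1_psi (φ : Polynomial ℂ) : Reg 1 (psi φ) := fun _ hm => (cf_psi hm).1

theorem reg2_psi (φ : Polynomial ℂ) : Reg 2 (psi φ) := fun _ hm => (cf_psi hm).2.1.ge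

theorem reg_psi (φ : Polynomial ℂ) (j : Fin 3) (hj : j ≠ 0) : Reg j (psi φ) := by
  fin_cases j
  · exact absurd rfl hj
  · exact reg1_psi φ
  · exact reg2_psi φ

theorem D2_psi (φ : Polynomial ℂ) : D 2 (psi φ) = 0 := by
  apply OB.La.ext'
  intro m
  rw [OB.cf_D, map_zero]
  by_cases h : OB.cf (m + ex 2) (psi φ) = 0
  · rw [h, mul_zero]
  · have h1 := (cf_psi h).2.1
    rw [Pi.add_apply, OB.ex_same] at h1
    have h2 : (m 2 : ℂ) + 1 = 0 := by exact_mod_cast h1
    rw [h2, zero_mul]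

theorem chP_X0 (φ : Polynomial ℂ) : chP φ (X 0) = xx 0 := by
  unfold chP
  rw [aeval_X]
  rfl

theorem chP_X1 (φ : Polynomial ℂ) : chP φ (X 1) = xx 1 := by
  unfold chP
  rw [aeval_X]
  rfl

theorem chP_X2 (φ : Polynomial ℂ) : chP φ (X 2) = xx 2 + psi φ := by
  unfold chP
  rw [aeval_X]
  rfl

theorem reg_chP (φ : Polynomial ℂ) (p : MvPolynomial (Fin 3) ℂ) (j : Fin 3) (hj : j ≠ 0) :
    Reg j (chP φ p) := by
  induction p using MvPolynomial.induction_on with
  | C a =>
    rw [← algebraMap_eq, AlgHom.commutes, Algebra.algebraMap_eq_smul_one]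
    exact (Reg.sg (by simp) 1).smul _
  | add p q hp hq =>
    rw [map_add]
    exact hp.add hq
  | mul_X p i hp =>
    rw [map_mul]
    refine hp.mul ?_
    fin_cases i
    · show Reg j (chP φ (X 0))
      rw [chP_X0]
      exact reg_xx _ _
    · show Reg j (chP φ (X 1))
      rw [chP_X1]
      exact reg_xx _ _
    · show Reg j (chP φ (X 2))
      rw [chP_X2]
      exact (reg_xx _ _).add (reg_psi φ j hj)

/-- The chain rule. -/
theorem D_chP (φ : Polynomial ℂ) (p : MvPolynomial (Fin 3) ℂ) (i : Fin 3) :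
    D i (chP φ p) = chP φ (pderiv i p) + D i (psi φ) * chP φ (pderiv 2 p) := by
  induction p using MvPolynomial.induction_on with
  | C a =>
    rw [← algebraMap_eq, AlgHom.commutes, Derivation.map_algebraMap, Derivation.map_algebraMap,
      Derivation.map_algebraMap, map_zero, mul_zero, add_zero]
  | add p q hp hq =>
    rw [map_add, map_add, hp, hq, map_add, map_add, map_add, map_add]
    ring
  | mul_X p j hp =>
    have key : D i (chP φ (X j)) = chP φ (pderiv i (X j)) +
        D i (psi φ) * chP φ (pderiv 2 (X j)) := by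
      by_cases h2 : j = 2
      · subst h2
        rw [chP_X2, map_add, pderiv_X_self, map_one, mul_one]
        by_cases hi : i = 2
        · subst hi
          rw [D_xx_same, pderiv_X_self, map_one]
        · rw [D_xx_ne hi, pderiv_X_of_ne (Ne.symm hi), map_zero]
      · have h3 : chP φ (X j) = xx j := by
          fin_cases j
          · exact chP_X0 φ
          · exact chP_X1 φ
          · exact absurd rfl h2
        rw [h3, pderiv_X_of_ne h2, map_zero, mul_zero, add_zero]
        by_cases hi : i = j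
        · subst hi
          rw [D_xx_same, pderiv_X_self, map_one]
        · rw [D_xx_ne hi, pderiv_X_of_ne (Ne.symm hi), map_zero]
    rw [map_mul, OB.D_mul, hp, key, Derivation.leibniz, Derivation.leibniz, smul_eq_mul,
      smul_eq_mul, smul_eq_mul, smul_eq_mul, map_add, map_add, map_mul, map_mul, map_mul, map_mul]
    ring

theorem hm_chP (φ : Polynomial ℂ) {p : MvPolynomial (Fin 3) ℂ} {k : ℕ} (h : p.IsHomogeneous k) :
    Hm td k (chP φ p) := by
  have h1 : ∀ m : Fin 3 →₀ ℕ, m.degree = k → ∀ c : ℂ, Hm td k (chP φ (monomial m c)) := by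
    intro m hm c
    rw [monomial_eq, map_mul, ← algebraMap_eq, AlgHom.commutes, Algebra.algebraMap_eq_smul_one,
      smul_mul_assoc, one_mul]
    apply Hm.smul
    rw [Finsupp.prod_fintype _ _ (fun i => pow_zero _), map_prod, Fin.prod_univ_three, map_pow,
      map_pow, map_pow, chP_X0, chP_X1, chP_X2]
    have hp : ∀ (a : La), Hm td 1 a → ∀ e : ℕ, Hm td e (a ^ e) := by
      intro a ha e
      induction e with
      | zero =>
        rw [pow_zero, OB.one_eq_sg]
        exact Hm.sg (map_zero _) _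
      | succ e ih =>
        rw [pow_succ]
        have := ih.mul ha
        rwa [← Nat.cast_succ] at this
    have h2 := ((hp _ (hm_xx 0) (m 0)).mul (hp _ (hm_xx 1) (m 1))).mul
      (hp _ ((hm_xx 2).add (hm_psi φ)) (m 2))
    have h3 : ((m 0 : ℕ) : ℤ) + (m 1 : ℕ) + (m 2 : ℕ) = k := by
      rw [← hm, Finsupp.degree_eq_sum, Fin.sum_univ_three]
      push_cast
      ring
    rwa [h3] at h2
  rw [p.as_sum, map_sum]
  apply Hm.sum
  intro m hm
  apply h1
  by_contra hcon
  exact mem_support_iff.1 hm (h.coeff_eq_zero hcon)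

/-! ### Values -/

/-- The change of coordinates of the points. -/
def thq (φ : Polynomial ℂ) (q : Fin 3 → ℂ) : Fin 3 → ℂ :=
  ![q 0, q 1, q 2 + q 0 * φ.eval (q 1 / q 0)]

theorem thq_thq (φ : Polynomial ℂ) (q : Fin 3 → ℂ) : thq φ (thq (-φ) q) = q := by
  funext i
  fin_cases i
  · rfl
  · rfl
  · show (q 2 + q 0 * (-φ).eval (q 1 / q 0)) + q 0 * φ.eval (q 1 / q 0) = q 2
    rw [Polynomial.eval_neg]
    ring

theorem thq_zero (φ : Polynomial ℂ) (q : Fin 3 → ℂ) : thq φ q 0 = q 0 := rfl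

theorem thq_one (φ : Polynomial ℂ) (q : Fin 3 → ℂ) : thq φ q 1 = q 1 := rfl

/-- The numerator of `psi φ`. -/
def psn (φ : Polynomial ℂ) : MvPolynomial (Fin 3) ℂ :=
  ∑ j ∈ Finset.range (φ.natDegree + 1), C (φ.coeff j) * X 0 ^ (φ.natDegree + 1 - j) * X 1 ^ j

theorem io_psn (φ : Polynomial ℂ) : io (X 0 ^ φ.natDegree) * psi φ = io (psn φ) := by
  unfold psi psn
  rw [Finset.mul_sum, map_sum]
  refine Finset.sum_congr rfl fun j hj => ?_
  have hj' : j ≤ φ.natDegree + 1 := (Finset.mem_range.1 hj).le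
  rw [map_mul, map_mul, map_pow, map_pow, map_pow, OB.io_X, OB.io_X, OB.io_C, OB.sg_pow,
    OB.sg_pow, OB.sg_pow, OB.sg_mul_sg, OB.sg_mul_sg, OB.sg_mul_sg, one_pow, one_pow, one_pow,
    one_mul, mul_one, mul_one]
  congr 1
  funext i
  fin_cases i
  · simp [ex, Nat.cast_sub hj']
    ring
  · simp [ex]
  · simp [ex]

theorem eval_psn (φ : Polynomial ℂ) {q : Fin 3 → ℂ} (hq : q 0 ≠ 0) :
    eval q (psn φ) = q 0 ^ φ.natDegree * (q 0 * φ.eval (q 1 / q 0)) := by
  unfold psn
  rw [map_sum, Polynomial.eval_eq_sum_range, Finset.mul_sum, Finset.mul_sum]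
  refine Finset.sum_congr rfl fun j hj => ?_
  have hj' : j ≤ φ.natDegree + 1 := (Finset.mem_range.1 hj).le
  rw [map_mul, map_mul, map_pow, map_pow, eval_C, eval_X, eval_X, div_pow]
  have h1 : q 0 ^ (φ.natDegree + 1 - j) * q 0 ^ j = q 0 ^ φ.natDegree * q 0 := by
    rw [← pow_add, Nat.sub_add_cancel hj', pow_succ]
  field_simp
  linear_combination φ.coeff j * q 1 ^ j * h1

/-- Clearing the powers of `x`. -/
theorem exists_clr (φ : Polynomial ℂ) (p : MvPolynomial (Fin 3) ℂ) :
    ∃ (N : ℕ) (p' : MvPolynomial (Fin 3) ℂ), io (X 0 ^ N) * chP φ p = io p' ∧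
      ∀ q : Fin 3 → ℂ, q 0 ≠ 0 → eval q p' = q 0 ^ N * eval (thq φ q) p := by
  induction p using MvPolynomial.induction_on with
  | C a =>
    refine ⟨0, C a, ?_, fun q _ => ?_⟩
    · rw [pow_zero, map_one, one_mul, ← algebraMap_eq, AlgHom.commutes, AlgHom.commutes]
    · rw [eval_C, eval_C, pow_zero, one_mul]
  | add p₁ p₂ h₁ h₂ =>
    obtain ⟨N₁, a₁, e₁, v₁⟩ := h₁
    obtain ⟨N₂, a₂, e₂, v₂⟩ := h₂
    refine ⟨N₁ + N₂, X 0 ^ N₂ * a₁ + X 0 ^ N₁ * a₂, ?_, fun q hq => ?_⟩
    · rw [map_add (chP φ), map_add, map_mul io (X 0 ^ N₂), map_mul io (X 0 ^ N₁) a₂, ← e₁, ← e₂,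
        pow_add, map_mul io (X 0 ^ N₁)]
      ring
    · rw [map_add, map_mul, map_mul, map_pow, map_pow, eval_X, v₁ q hq, v₂ q hq, map_add]
      ring
  | mul_X p i h =>
    obtain ⟨N, a, e, v⟩ := h
    by_cases hi : i = 2
    · subst hi
      refine ⟨N + φ.natDegree, a * (X 0 ^ φ.natDegree * X 2 + psn φ), ?_, fun q hq => ?_⟩
      · have hx : io (X 2) = xx 2 := OB.io_X 2
        rw [map_mul (chP φ), chP_X2, map_mul io a, map_add io, map_mul io (X 0 ^ φ.natDegree),
          ← io_psn, ← e, pow_add, map_mul io (X 0 ^ N), hx]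
        ring
      · have h2 : thq φ q 2 = q 2 + q 0 * φ.eval (q 1 / q 0) := rfl
        rw [map_mul, map_add, map_mul, map_pow, eval_X, eval_X, eval_psn φ hq, v q hq, map_mul,
          eval_X, h2]
        ring
    · refine ⟨N, a * X i, ?_, fun q hq => ?_⟩
      · have h3 : chP φ (X i) = io (X i) := by
          rw [OB.io_X]
          fin_cases i
          · exact chP_X0 φ
          · exact chP_X1 φ
          · exact absurd rfl hi
        rw [map_mul (chP φ), map_mul io a, h3, ← e]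
        ring
      · have h4 : thq φ q i = q i := by
          fin_cases i
          · rfl
          · rfl
          · exact absurd rfl hi
        rw [map_mul, eval_X, v q hq, map_mul, eval_X, h4]
        ring

theorem chP_injective (φ : Polynomial ℂ) : Function.Injective (chP φ) := by
  rw [injective_iff_map_eq_zero]
  intro p hp
  obtain ⟨N, a, e, v⟩ := exists_clr φ p
  rw [hp, mul_zero] at e
  have ha : a = 0 := OB.io_injective (by rw [← e, map_zero])
  have h1 : X 0 * p = 0 := by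
    apply MvPolynomial.funext
    intro q
    rw [map_mul, eval_X, map_zero]
    by_cases hq : q 0 = 0
    · rw [hq, zero_mul]
    · have h2 := v (thq (-φ) q) hq
      rw [ha, map_zero, thq_thq, thq_zero] at h2
      rw [(mul_eq_zero.1 h2.symm).resolve_left (pow_ne_zero N hq), mul_zero]
  exact (mul_eq_zero.1 h1).resolve_left (X_ne_zero 0)

end MPb07157.O3
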