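import Pool.Agent.Lib.MP_b07157_agO3.VSb

/-!
# The data at a semi-quasi-homogeneous point
-/

noncomputable section

namespace MPb07157.O3

open MvPolynomial
open MPb07157.OB (La sg ex io td co D Hm Ge Reg gc Dat)

variable {f P : MvPolynomial (Fin 3) ℂ} {v : Fin 3 → MvPolynomial (Fin 3) ℂ} {d n : ℕ}

/-- The local expression at `(1 : 0 : 0)`. -/
abbrev Tay0 (φ : Polynomial ℂ) (p : MvPolynomial (Fin 3) ℂ) : MvPolynomial (Fin 2) ℂ :=
  Tay (Pi.single 0 1) (Pi.single 1 1) (Pi.single 2 1) φ p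

/-- Polynomials in `y/x` and `z/x` as Laurent polynomials. -/
def lu : MvPolynomial (Fin 2) ℂ →ₐ[ℂ] La := aeval ![sg (ex 1 - ex 0) 1, sg (ex 2 - ex 0) 1]

theorem lu_X0 : lu (X 0) = sg (ex 1 - ex 0) 1 := by
  unfold lu
  rw [aeval_X]
  rfl

theorem lu_X1 : lu (X 1) = sg (ex 2 - ex 0) 1 := by
  unfold lu
  rw [aeval_X]
  rfl

theorem lu_monomial (m : Fin 2 →₀ ℕ) (c : ℂ) :
    lu (monomial m c) = sg ((m 0) • (ex 1 - ex 0) + (m 1) • (ex 2 - ex 0)) c := by
  have h1 : ∀ c : ℂ, algebraMap ℂ La c = sg 0 c := fun c => rfl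
  unfold lu
  rw [aeval_monomial, h1, Finsupp.prod_fintype _ _ (fun i => pow_zero _), Fin.prod_univ_two]
  change sg 0 c * (sg (ex 1 - ex 0) 1 ^ m 0 * sg (ex 2 - ex 0) 1 ^ m 1) = _
  rw [OB.sg_pow, OB.sg_pow, OB.sg_mul_sg, OB.sg_mul_sg]
  congr 1
  · abel
  · simp

theorem tay0_X0 (φ : Polynomial ℂ) : Tay0 φ (X 0) = 1 := by
  unfold Tay0 Tay
  rw [aeval_X]
  simp

theorem tay0_X1 (φ : Polynomial ℂ) : Tay0 φ (X 1) = X 0 := by
  unfold Tay0 Tay
  rw [aeval_X]
  simp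

theorem tay0_X2 (φ : Polynomial ℂ) : Tay0 φ (X 2) = X 1 + Polynomial.aeval (X 0) φ := by
  unfold Tay0 Tay
  rw [aeval_X]
  simp

theorem tay0_mul (φ : Polynomial ℂ) (p q : MvPolynomial (Fin 3) ℂ) :
    Tay0 φ (p * q) = Tay0 φ p * Tay0 φ q := by
  unfold Tay0 Tay
  rw [map_mul]

theorem tay0_pow (φ : Polynomial ℂ) (p : MvPolynomial (Fin 3) ℂ) (e : ℕ) :
    Tay0 φ (p ^ e) = Tay0 φ p ^ e := by
  unfold Tay0 Tay
  rw [map_pow]

theorem tay0_C (φ : Polynomial ℂ) (c : ℂ) : Tay0 φ (C c) = C c := by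
  unfold Tay0 Tay
  rw [aeval_C]
  rfl

theorem tay0_add (φ : Polynomial ℂ) (p q : MvPolynomial (Fin 3) ℂ) :
    Tay0 φ (p + q) = Tay0 φ p + Tay0 φ q := by
  unfold Tay0 Tay
  rw [map_add]

/-- `x φ(y/x)` -/
theorem psi_eq (φ : Polynomial ℂ) : psi φ = xx 0 * lu (Polynomial.aeval (X 0) φ) := by
  rw [Polynomial.aeval_eq_sum_range, map_sum, Finset.mul_sum]
  unfold psi
  refine Finset.sum_congr rfl fun j _ => ?_
  rw [map_smul, map_pow, lu_X0, OB.sg_pow, OB.smul_sg, xx, OB.sg_mul_sg]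
  congr 1
  · funext i
    rw [Pi.add_apply, Pi.add_apply, Pi.smul_apply, Pi.smul_apply, Pi.smul_apply, Pi.sub_apply,
      smul_eq_mul, smul_eq_mul, nsmul_eq_mul]
    ring
  · simp

theorem chP_var (φ : Polynomial ℂ) (i : Fin 3) : chP φ (X i) = xx 0 * lu (Tay0 φ (X i)) := by
  have e1 : ∀ j : Fin 3, xx 0 * sg (ex j - ex 0) 1 = xx j := by
    intro j
    rw [xx, OB.sg_mul_sg, xx]
    congr 1
    · abel
    · simp
  fin_cases i
  · show chP φ (X 0) = xx 0 * lu (Tay0 φ (X 0))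
    rw [tay0_X0, chP_X0, map_one, mul_one]
  · show chP φ (X 1) = xx 0 * lu (Tay0 φ (X 1))
    rw [tay0_X1, chP_X1, lu_X0, e1]
  · show chP φ (X 2) = xx 0 * lu (Tay0 φ (X 2))
    rw [tay0_X2, chP_X2, map_add, lu_X1, mul_add, e1, psi_eq]

theorem chP_eq (φ : Polynomial ℂ) {p : MvPolynomial (Fin 3) ℂ} {k : ℕ} (hp : p.IsHomogeneous k) :
    chP φ p = xx 0 ^ k * lu (Tay0 φ p) := by
  have h1 : ∀ m : Fin 3 →₀ ℕ, m.degree = k → ∀ c : ℂ,
      chP φ (monomial m c) = xx 0 ^ k * lu (Tay0 φ (monomial m c)) := by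
    intro m hm c
    rw [monomial_eq, Finsupp.prod_fintype _ _ (fun i => pow_zero _), Fin.prod_univ_three]
    rw [map_mul, map_mul, map_mul, map_pow, map_pow, map_pow, tay0_mul, tay0_mul, tay0_mul,
      tay0_pow, tay0_pow, tay0_pow, map_mul, map_mul, map_mul, map_pow, map_pow, map_pow,
      chP_var φ 0, chP_var φ 1, chP_var φ 2, tay0_C]
    have h2 : chP φ (C c) = lu (C c) := by
      rw [← algebraMap_eq, AlgHom.commutes, ← algebraMap_eq, AlgHom.commutes]
    have h3 : k = m 0 + m 1 + m 2 := by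
      rw [← hm, Finsupp.degree_eq_sum, Fin.sum_univ_three]
    rw [h2, h3, pow_add, pow_add, mul_pow, mul_pow, mul_pow]
    ring
  have h4 : chP φ p = ∑ m ∈ p.support, chP φ (monomial m (coeff m p)) := by
    rw [← map_sum, ← p.as_sum]
  have h5 : Tay0 φ p = ∑ m ∈ p.support, Tay0 φ (monomial m (coeff m p)) := by
    unfold Tay0 Tay
    rw [← map_sum, ← p.as_sum]
  rw [h4, h5, map_sum, Finset.mul_sum]
  refine Finset.sum_congr rfl fun m hm => h1 m ?_ _
  by_contra hcon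
  exact mem_support_iff.1 hm (hp.coeff_eq_zero hcon)

/-- The coefficients of `chP φ p` are those of the local expression. -/
theorem cf_chP (φ : Polynomial ℂ) {p : MvPolynomial (Fin 3) ℂ} {k : ℕ} (hp : p.IsHomogeneous k)
    (m : Fin 2 →₀ ℕ) : OB.cf ![(k : ℤ) - m 0 - m 1, m 0, m 1] (chP φ p) =
      coeff m (Tay0 φ p) := by
  rw [chP_eq φ hp, xx, OB.sg_pow, one_pow, OB.cf_sg_mul, one_mul]
  generalize Tay0 φ p = G
  induction G using MvPolynomial.induction_on' with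
  | monomial u a =>
    classical
    rw [lu_monomial, OB.cf_sg, coeff_monomial]
    by_cases h : u = m
    · rw [if_pos h, if_pos]
      rw [h]
      funext i
      fin_cases i
      · simp [ex]
        ring
      · simp [ex]
      · simp [ex]
    · rw [if_neg h, if_neg]
      intro h2
      apply h
      have h3 := congrFun h2 1
      have h4 := congrFun h2 2
      simp [ex] at h3 h4
      ext i
      fin_cases i
      · exact_mod_cast h3
      · exact_mod_cast h4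
  | add p q hp hq => rw [map_add, map_add, hp, hq, coeff_add]

/-- Weights of forms in the chart. -/
theorem ge_chP (φ : Polynomial ℂ) {p : MvPolynomial (Fin 3) ℂ} {k : ℕ} (hp : p.IsHomogeneous k)
    {α β K : ℕ} (h : WGe α β K (Tay0 φ p)) : Ge (wl α β) K (chP φ p) := by
  intro m hm
  have h0 := hm_chP φ hp m hm
  rw [OB.td_apply] at h0
  have h1 : 0 ≤ m 1 := reg_chP φ p 1 (by decide) m hm
  have h2 : 0 ≤ m 2 := reg_chP φ p 2 (by decide) m hm
  obtain ⟨a, ha⟩ := Int.eq_ofNat_of_zero_le h1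
  obtain ⟨b, hb⟩ := Int.eq_ofNat_of_zero_le h2
  set m' : Fin 2 →₀ ℕ := Finsupp.single 0 a + Finsupp.single 1 b with hm'
  have a0 : m' 0 = a := by simp [hm']
  have b0 : m' 1 = b := by simp [hm']
  have e : m = ![(k : ℤ) - m' 0 - m' 1, m' 0, m' 1] := by
    rw [a0, b0]
    funext i
    fin_cases i
    · show m 0 = (k : ℤ) - a - b
      omega
    · exact ha
    · exact hb
  rw [e, cf_chP φ hp] at hm
  have h3 := h m' hm
  rw [a0, b0] at h3
  rw [wl_apply, ha, hb]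
  exact_mod_cast h3

/-- The data in the chart. -/
theorem dl_ch (φ : Polynomial ℂ) (h : Dat f P v d n) :
    DL (chP φ f) (chP φ P) (chv φ v) d n where
  F0 hz := h.f0 (chP_injective φ (by rw [hz, map_zero]))
  P0 hz := h.P0 (chP_injective φ (by rw [hz, map_zero]))
  hd := h.hd
  hF := hm_chP φ h.hf
  hP := hm_chP φ h.hP
  hv := by
    have hn := h.hn
    have h1 : ∀ i, Hm td ((n : ℤ) - 1) (chP φ (v i)) := by
      intro i
      have h2 := hm_chP φ (h.hv i)
      have h3 : ((n - 1 : ℕ) : ℤ) = (n : ℤ) - 1 := by omega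
      rwa [h3] at h2
    have h4 : ∀ i, Hm td 0 (D i (psi φ)) := by
      intro i
      have h5 := (hm_psi φ).D i
      rwa [OB.td_ex, sub_self] at h5
    have h6 : ∀ i, Hm td ((n : ℤ) - 1) (D i (psi φ) * chP φ (v 2)) := by
      intro i
      have h7 := (h4 i).mul (h1 2)
      rwa [zero_add] at h7
    intro i
    fin_cases i
    · exact (h1 0).add (h6 0)
    · exact (h1 1).add (h6 1)
    · exact h1 2
  rF j hj := reg_chP φ f j hj
  rP j hj := reg_chP φ P j hj
  rv := by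
    intro i j hj
    have h1 : ∀ i, Reg j (D i (psi φ) * chP φ (v 2)) := fun i =>
      ((reg_psi φ j hj).D i).mul (reg_chP φ _ j hj)
    fin_cases i
    · exact (reg_chP φ _ j hj).add (h1 0)
    · exact (reg_chP φ _ j hj).add (h1 1)
    · exact reg_chP φ _ j hj
  rel := by
    have h1 : ∀ i, chP φ P * chP φ (pderiv i f) = chP φ f * chP φ (v i) := by
      intro i
      rw [← map_mul, h.rel i, map_mul]
    intro i
    rw [D_chP]
    fin_cases i
    · show chP φ P * (chP φ (pderiv 0 f) + D 0 (psi φ) * chP φ (pderiv 2 f)) =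
        chP φ f * (chP φ (v 0) + D 0 (psi φ) * chP φ (v 2))
      linear_combination h1 0 + D 0 (psi φ) * h1 2
    · show chP φ P * (chP φ (pderiv 1 f) + D 1 (psi φ) * chP φ (pderiv 2 f)) =
        chP φ f * (chP φ (v 1) + D 1 (psi φ) * chP φ (v 2))
      linear_combination h1 1 + D 1 (psi φ) * h1 2
    · show chP φ P * (chP φ (pderiv 2 f) + D 2 (psi φ) * chP φ (pderiv 2 f)) =
        chP φ f * chP φ (v 2)
      rw [D2_psi, zero_mul, add_zero]
      exact h1 2

/-- The conditions at the point. -/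
theorem vl_ch {l : ℕ} {g : Fin l → MvPolynomial (Fin 3) ℂ} {m : Fin l → ℕ} (hf : IsFact f g m)
    (h : Dat f (∏ j, g j) (vv g m) d n) {φ : Polynomial ℂ} {α β N : ℕ} (hα : 0 < α) (hβ : 0 < β)
    (hN : α + β ≤ N) (ge : WGe α β N (Tay0 φ (∏ j, g j)))
    (sq : Squarefree (WPart α β N (Tay0 φ (∏ j, g j)))) :
    ∃ M, VL α β (chP φ f) (chP φ (∏ j, g j)) (chv φ (vv g m)) M N := by
  classical
  obtain ⟨R, hR⟩ : (∏ j, g j) ∣ f := by
    rw [hf.eq]
    unfold prodPow
    exact Finset.prod_dvd_prod_of_dvd _ _ fun j _ => dvd_pow_self _ (hf.pos j).ne'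
  refine VSb.main hα hβ hN (dl_ch φ h) (R := chP φ R) ?_ (fun j hj => reg_chP φ R j hj)
    (ge_chP φ h.hP ge) sq fun m => ?_
  · conv_lhs => rw [hR]
    rw [map_mul]
  · rw [cf_chP φ h.hP m]
    exact VSb.coeff_WPart α β N _ m

end MPb07157.O3
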