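import Pool.Agent.Lib.MP_b07157_agO3.VW
import Pool.Agent.Lib.MP_b07157_agO3.VS

/-!
# The local lemma in the chart
-/

noncomputable section

namespace MPb07157.O3

open MvPolynomial
open MPb07157Q
open MPb07157.OK
open MPb07157.OB (La sg ex io td co D Hm Ge Reg gc Dat)

/-- The numerator of `z - x φ(y/x)`. -/
def zn (φ : Polynomial ℂ) : MvPolynomial (Fin 3) ℂ := X 0 ^ φ.natDegree * X 2 - psn φ

theorem zn_hom (φ : Polynomial ℂ) : (zn φ).IsHomogeneous (φ.natDegree + 1) := by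
  unfold zn psn
  apply IsHomogeneous.sub
  · have h1 := (isHomogeneous_X ℂ (0 : Fin 3)).pow φ.natDegree
    have h2 := h1.mul (isHomogeneous_X ℂ (2 : Fin 3))
    rwa [one_mul] at h2
  · apply IsHomogeneous.sum
    intro j hj
    have hj' : j ≤ φ.natDegree := Nat.lt_succ_iff.1 (Finset.mem_range.1 hj)
    have h1 := (isHomogeneous_X ℂ (0 : Fin 3)).pow (φ.natDegree + 1 - j)
    have h2 := (isHomogeneous_X ℂ (1 : Fin 3)).pow j
    have h3 := ((isHomogeneous_C (Fin 3) (φ.coeff j)).mul h1).mul h2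
    have h4 : 0 + 1 * (φ.natDegree + 1 - j) + 1 * j = φ.natDegree + 1 := by omega
    rwa [h4] at h3

theorem eval_zn (φ : Polynomial ℂ) {q : Fin 3 → ℂ} (hq : q 0 ≠ 0) :
    eval q (zn φ) = q 0 ^ φ.natDegree * (q 2 - q 0 * φ.eval (q 1 / q 0)) := by
  unfold zn
  rw [map_sub, map_mul, map_pow, eval_X, eval_X, eval_psn φ hq]
  ring

theorem zn_ne (φ : Polynomial ℂ) : zn φ ≠ 0 := by
  intro h
  have h1 := eval_zn φ (q := ![1, 0, φ.eval 0 + 1]) (by simp)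
  rw [h, map_zero] at h1
  simp at h1

/-- The conclusion of the local lemma: the form `σ` kills the obstruction. -/
def KS (n k : ℕ) (y z e σ : MvPolynomial (Fin 3) ℂ) (G : Kf) : Prop :=
  ∃ s : Kf, Hk (3 - n + k) s ∧ (∀ q, eval q (y * e) ≠ 0 → RegAt q s) ∧
    ∀ q, eval q (z * e) ≠ 0 → RegAt q (fr σ * G - s)

namespace ChA

variable {φ : Polynomial ℂ}

theorem thq_two (φ : Polynomial ℂ) (q : Fin 3 → ℂ) :
    thq φ q 2 = q 2 + q 0 * φ.eval (q 1 / q 0) := rfl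

theorem eval_zn_thq (φ : Polynomial ℂ) {q : Fin 3 → ℂ} (hq : q 0 ≠ 0) :
    eval (thq φ q) (zn φ) = q 0 ^ φ.natDegree * q 2 := by
  rw [eval_zn φ (q := thq φ q) hq, thq_zero, thq_one, thq_two]
  ring

theorem thq_single {φ : Polynomial ℂ} (h0 : φ.eval 0 = 0) :
    thq φ (Pi.single 0 1) = Pi.single 0 1 := by
  funext i
  fin_cases i
  · rfl
  · rfl
  · show (Pi.single 0 1 : Fin 3 → ℂ) 2 + (Pi.single 0 1 : Fin 3 → ℂ) 0 *
      φ.eval ((Pi.single 0 1 : Fin 3 → ℂ) 1 / (Pi.single 0 1 : Fin 3 → ℂ) 0) =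
      (Pi.single 0 1 : Fin 3 → ℂ) 2
    simp [h0]

/-- The numerator of `chP φ e`, times `x`. -/
theorem exists_num (h0 : φ.eval 0 = 0) {e : MvPolynomial (Fin 3) ℂ} {κ : ℕ}
    (he : e.IsHomogeneous κ) (he0 : eval (Pi.single 0 1) e ≠ 0) :
    ∃ (E : MvPolynomial (Fin 3) ℂ) (κ' : ℕ), E.IsHomogeneous κ' ∧ eval (Pi.single 0 1) E ≠ 0 ∧
      X 0 ∣ E ∧ ∀ q : Fin 3 → ℂ, eval q E ≠ 0 ↔ q 0 ≠ 0 ∧ eval (thq φ q) e ≠ 0 := by
  obtain ⟨K, e', ee, ve⟩ := exists_clr φ e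
  have hs := ve (Pi.single 0 1) (by rw [Pi.single_eq_same]; exact one_ne_zero)
  rw [thq_single h0, Pi.single_eq_same, one_pow, one_mul] at hs
  have he1 : e' ≠ 0 := by
    rintro rfl
    rw [map_zero] at hs
    exact he0 hs.symm
  have hk : Hk (((K : ℕ) : ℤ) + (κ : ℕ)) (fr e') := by
    have h1 := congrArg jo ee
    rw [map_mul, jo_io, jo_io, ← chK_fr] at h1
    rw [← h1]
    have h2 := (isHomogeneous_X ℂ (0 : Fin 3)).pow K
    rw [one_mul] at h2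
    exact (Hk.fr h2).mul (chK_hk φ (Hk.fr he))
  obtain ⟨κ', -, hκ'⟩ := isHomogeneous_of_hk he1 hk
  refine ⟨X 0 * e', _, (isHomogeneous_X ℂ (0 : Fin 3)).mul hκ', ?_, dvd_mul_right _ _,
    fun q => ?_⟩
  · rw [map_mul, eval_X, Pi.single_eq_same, one_mul, hs]
    exact he0
  · rw [map_mul, eval_X, mul_ne_zero_iff]
    constructor
    · rintro ⟨h1, h2⟩
      rw [ve q h1] at h2
      exact ⟨h1, right_ne_zero_of_mul h2⟩
    · rintro ⟨h1, h2⟩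
      refine ⟨h1, ?_⟩
      rw [ve q h1]
      exact mul_ne_zero (pow_ne_zero _ h1) h2

theorem chT_sub (s t : Fin 3 → Kf) (k : Fin 3) :
    chT φ (fun j => s j - t j) k = chT φ s k - chT φ t k := by
  fin_cases k
  · exact map_sub _ _ _
  · exact map_sub _ _ _
  · show chK φ (s 2 - t 2) - (jo (D 0 (psi φ)) * chK φ (s 0 - t 0) +
      jo (D 1 (psi φ)) * chK φ (s 1 - t 1)) = (chK φ (s 2) - (jo (D 0 (psi φ)) * chK φ (s 0) +
      jo (D 1 (psi φ)) * chK φ (s 1))) - (chK φ (t 2) - (jo (D 0 (psi φ)) * chK φ (t 0) +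
      jo (D 1 (psi φ)) * chK φ (t 1)))
    rw [map_sub, map_sub, map_sub]
    ring

theorem chW_mul (v : Fin 3 → MvPolynomial (Fin 3) ℂ) (G : Kf) :
    chW φ (fun j => G * fr (v j)) = fun j => chK φ G * jo (chv φ v j) := by
  funext j
  fin_cases j
  · show chK φ (G * fr (v 0)) + jo (D 0 (psi φ)) * chK φ (G * fr (v 2)) =
      chK φ G * jo (chP φ (v 0) + D 0 (psi φ) * chP φ (v 2))
    rw [map_mul (chK φ), map_mul (chK φ), chK_fr, chK_fr, map_add, map_mul jo]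
    ring
  · show chK φ (G * fr (v 1)) + jo (D 1 (psi φ)) * chK φ (G * fr (v 2)) =
      chK φ G * jo (chP φ (v 1) + D 1 (psi φ) * chP φ (v 2))
    rw [map_mul (chK φ), map_mul (chK φ), chK_fr, chK_fr, map_add, map_mul jo]
    ring
  · show chK φ (G * fr (v 2)) = chK φ G * jo (chP φ (v 2))
    rw [map_mul (chK φ), chK_fr]

theorem chT_cu {v : Fin 3 → MvPolynomial (Fin 3) ℂ} {t₁ t₂ : Fin 3 → Kf} {G : Kf}
    (h : ∀ k, t₁ k - t₂ k = cuK (fun j => G * fr (v j)) k) (k : Fin 3) :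
    chT φ t₁ k - chT φ t₂ k = cuK (fun j => chK φ G * jo (chv φ v j)) k := by
  have h1 : (fun j => t₁ j - t₂ j) = cuK (fun j => G * fr (v j)) := funext h
  rw [← chT_sub, h1, chT_curl, chW_mul]

theorem chT_kill {f : MvPolynomial (Fin 3) ℂ} {t : Fin 3 → Kf}
    (h : ∑ k, t k * DK k (fr f) = 0) : ∑ k, chT φ t k * DK k (jo (chP φ f)) = 0 := by
  rw [← chK_fr, chT_apply, h, map_zero]

/-- The transform of the additional relation. -/
theorem resW_ch {f w e E Y : MvPolynomial (Fin 3) ℂ} {t : Fin 3 → Kf} (H : Res f (X 0) (w * e) t)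
    (hE : ∀ q : Fin 3 → ℂ, eval q E ≠ 0 ↔ q 0 ≠ 0 ∧ eval (thq φ q) e ≠ 0)
    (hY : ∀ q : Fin 3 → ℂ, q 0 ≠ 0 → eval q Y ≠ 0 → eval (thq φ q) w ≠ 0) :
    ResW (chP φ f) (Y * E) (chT φ t) := by
  obtain ⟨r, η, h1, h2, h3, h4, h5, h6⟩ := H
  refine ⟨chK φ r, chT φ η, chK_hk φ h1, fun q hq => ?_, chT_hk h3, fun k q hq => ?_,
    chT_kill h5, ?_⟩
  · exact chK_reg φ hq (h2 _ (by rw [eval_X]; exact hq))
  · rw [map_mul, mul_ne_zero_iff, hE] at hq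
    refine chT_reg hq.2.1 (fun i => h4 i _ ?_) k
    rw [map_mul, map_mul, eval_X]
    exact mul_ne_zero hq.2.1 (mul_ne_zero (hY q hq.2.1 hq.1) hq.2.2)
  · rw [chT_div]
    show chK φ (t 0) = fr (X 0) * (chK φ r + chK φ (dvK η))
    have h7 : t 0 = fr (X 0) * (r + dvK η) := by
      rw [← h6, Fin.sum_univ_three, pderiv_X_self, pderiv_X_of_ne (by decide : (0 : Fin 3) ≠ 1),
        pderiv_X_of_ne (by decide : (0 : Fin 3) ≠ 2), map_one, map_zero]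
      ring
    rw [h7, map_mul, map_add, chK_X0]

end ChA

open ChA in
/-- The local lemma at `(1 : 0 : 0)` for a semi-quasi-homogeneous point. -/
theorem loc_ch {l : ℕ} {f : MvPolynomial (Fin 3) ℂ} {g : Fin l → MvPolynomial (Fin 3) ℂ}
    {m : Fin l → ℕ} {d n : ℕ} (hf : IsFact f g m) (h : Dat f (∏ j, g j) (vv g m) d n)
    {φ : Polynomial ℂ} (h0 : φ.eval 0 = 0) {α β N : ℕ} (hα : 0 < α) (hβ : 0 < β)
    (hN : α + β ≤ N) (ge : WGe α β N (Tay0 φ (∏ j, g j)))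
    (sq : Squarefree (WPart α β N (Tay0 φ (∏ j, g j))))
    {e : MvPolynomial (Fin 3) ℂ} {κ : ℕ} (he : e.IsHomogeneous κ)
    (he0 : eval (Pi.single 0 1) e ≠ 0) (hx : X 0 ∣ e) {c : ℂ} (hc : c ≠ 0)
    {t₁ t₂ : Fin 3 → Kf} {G : Kf} (H : LH f (vv g m) n (X 1) (zn φ) e c t₁ t₂ G)
    (R₁ : Res f (X 0) (X 1 * e) t₁) (R₂ : Res f (X 0) (zn φ * e) t₂) {k : ℕ}
    {σ : MvPolynomial (Fin 3) ℂ} (hσ : σ.IsHomogeneous k)
    (hw : WGe α β (N - 2 * (α + β)) (Tay0 φ σ)) : KS n k (X 1) (zn φ) e σ G := by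
  obtain ⟨M, hV⟩ := vl_ch hf h hα hβ hN ge sq
  obtain ⟨E, κ', hE, hE0, hxE, hEe⟩ := exists_num h0 he he0
  have y1 : ∀ q : Fin 3 → ℂ, q 0 ≠ 0 → eval q (X 1 : MvPolynomial (Fin 3) ℂ) ≠ 0 →
      eval (thq φ q) (X 1 : MvPolynomial (Fin 3) ℂ) ≠ 0 := by
    intro q _ hq
    rw [eval_X] at hq ⊢
    exact hq
  have y2 : ∀ q : Fin 3 → ℂ, q 0 ≠ 0 → eval q (X 2 : MvPolynomial (Fin 3) ℂ) ≠ 0 →
      eval (thq φ q) (zn φ) ≠ 0 := by
    intro q hq0 hq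
    rw [eval_X] at hq
    rw [eval_zn_thq φ hq0]
    exact mul_ne_zero (pow_ne_zero _ hq0) hq
  have LW : LHW (chP φ f) (chv φ (vv g m)) n E c (chT φ t₁) (chT φ t₂) (chK φ G) := by
    refine ⟨fun q hq k => ?_, fun q hq k => ?_, fun q hq => ?_, chT_hk H.e₁, chT_hk H.e₂,
      chK_hk φ H.eg, chT_kill H.k₁, chT_kill H.k₂, ?_, ?_, chT_cu H.cu, resW_ch R₁ hEe y1,
      resW_ch R₂ hEe y2⟩
    · rw [map_mul, mul_ne_zero_iff, hEe] at hq
      refine chT_reg hq.2.1 (fun i => H.r₁ _ ?_ i) k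
      rw [map_mul]
      exact mul_ne_zero (y1 q hq.2.1 hq.1) hq.2.2
    · rw [map_mul, mul_ne_zero_iff, hEe] at hq
      refine chT_reg hq.2.1 (fun i => H.r₂ _ ?_ i) k
      rw [map_mul]
      exact mul_ne_zero (y2 q hq.2.1 hq.1) hq.2.2
    · rw [map_mul, map_mul, mul_ne_zero_iff, mul_ne_zero_iff, hEe] at hq
      refine chK_reg φ hq.2.1 (H.rg _ ?_)
      rw [map_mul, map_mul]
      exact mul_ne_zero (mul_ne_zero (y1 q hq.2.1 hq.1.1) (y2 q hq.2.1 hq.1.2)) hq.2.2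
    · rw [chT_div, H.d₁, chK_const]
    · rw [chT_div, H.d₂, chK_const]
  obtain ⟨s', a1, a2, a3⟩ := loc_vw (dl_ch φ h) hV hE hE0 hxE hc LW
    (reg_chP φ σ 1 (by decide)) (reg_chP φ σ 2 (by decide)) (hm_chP φ hσ) (ge_chP φ hσ hw)
    (by omega)
  have hq0 : ∀ (w : MvPolynomial (Fin 3) ℂ) (q : Fin 3 → ℂ), eval q (w * e) ≠ 0 →
      q 0 ≠ 0 ∧ eval q w ≠ 0 ∧ eval q e ≠ 0 := by
    intro w q hq
    rw [map_mul, mul_ne_zero_iff] at hq
    refine ⟨?_, hq⟩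
    intro h1
    obtain ⟨w', rfl⟩ := hx
    apply hq.2
    rw [map_mul, eval_X, h1, zero_mul]
  have hth : ∀ q : Fin 3 → ℂ, thq φ (thq (-φ) q) = q := thq_thq φ
  refine ⟨chK (-φ) s', chK_hk _ a1, fun q hq => ?_, fun q hq => ?_⟩
  · obtain ⟨b0, b1, b2⟩ := hq0 _ _ hq
    refine chK_reg (-φ) b0 (a2 _ ?_)
    rw [map_mul, mul_ne_zero_iff, hEe, hth]
    exact ⟨by rw [eval_X] at b1 ⊢; exact b1, b0, b2⟩
  · obtain ⟨b0, b1, b2⟩ := hq0 _ _ hq
    have h1 : fr σ * G - chK (-φ) s' = chK (-φ) (jo (chP φ σ) * chK φ G - s') := by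
      rw [← chK_fr, ← map_mul, map_sub, chK_chK]
    rw [h1]
    refine chK_reg (-φ) b0 (a3 _ ?_)
    rw [map_mul, mul_ne_zero_iff, hEe, hth]
    refine ⟨?_, b0, b2⟩
    rw [eval_X]
    intro h2
    apply b1
    rw [← hth q, eval_zn_thq φ (q := thq (-φ) q) b0, h2, mul_zero]

end MPb07157.O3
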