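import Pool.Agent.Lib.MP_b07157_agO3.CD
import Pool.Agent.Lib.MP_b07157_agB2.LocK

/-!
# The chart for rational functions
-/

noncomputable section

namespace MPb07157.O3

open MvPolynomial
open MPb07157.OK
open MPb07157.OB (La sg ex io td co D Hm Ge Reg gc)

/-- The chart for rational functions. -/
def chK (φ : Polynomial ℂ) : Kf →+* Kf :=
  IsFractionRing.lift (A := MvPolynomial (Fin 3) ℂ)
    (g := ((jo.comp (chP φ) : MvPolynomial (Fin 3) ℂ →ₐ[ℂ] Kf) : MvPolynomial (Fin 3) ℂ →+* Kf))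
    (jo_injective.comp (chP_injective φ))

theorem chK_fr (φ : Polynomial ℂ) (p : MvPolynomial (Fin 3) ℂ) :
    chK φ (fr p) = jo (chP φ p) :=
  IsFractionRing.lift_algebraMap _ _

theorem chK_const (φ : Polynomial ℂ) (c : ℂ) :
    chK φ (algebraMap ℂ Kf c) = algebraMap ℂ Kf c := by
  rw [← fr_C, chK_fr, ← algebraMap_eq, AlgHom.commutes, AlgHom.commutes, algebraMap_eq, fr_C]

theorem chK_ne_zero (φ : Polynomial ℂ) {g : Kf} (h : g ≠ 0) : chK φ g ≠ 0 :=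
  (map_ne_zero (chK φ)).2 h

theorem chK_X0 (φ : Polynomial ℂ) : chK φ (fr (X 0)) = fr (X 0) := by
  rw [chK_fr, chP_X0, ← jo_io, OB.io_X]
  rfl

theorem chK_X1 (φ : Polynomial ℂ) : chK φ (fr (X 1)) = fr (X 1) := by
  rw [chK_fr, chP_X1, ← jo_io, OB.io_X]
  rfl

theorem chK_DK (φ : Polynomial ℂ) (i : Fin 3) (g : Kf) :
    DK i (chK φ g) = chK φ (DK i g) + jo (D i (psi φ)) * chK φ (DK 2 g) := by
  have hfr : ∀ p : MvPolynomial (Fin 3) ℂ, DK i (chK φ (fr p)) =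
      chK φ (DK i (fr p)) + jo (D i (psi φ)) * chK φ (DK 2 (fr p)) := by
    intro p
    rw [chK_fr, DK_jo, D_chP, map_add, map_mul, DK_fr, DK_fr, chK_fr, chK_fr]
  obtain ⟨a, b, hb, h⟩ := exists_frac g
  have hb' : chK φ (fr b) ≠ 0 := chK_ne_zero φ (fr_ne_zero hb)
  have h1 := congrArg (fun x => DK i (chK φ x)) h
  simp only [map_mul, DK_mul] at h1
  rw [hfr a, hfr b, ← h] at h1
  have h2 : chK φ (DK i (g * fr b)) + jo (D i (psi φ)) * chK φ (DK 2 (g * fr b)) =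
      chK φ g * (chK φ (DK i (fr b)) + jo (D i (psi φ)) * chK φ (DK 2 (fr b))) +
        chK φ (fr b) * (chK φ (DK i g) + jo (D i (psi φ)) * chK φ (DK 2 g)) := by
    rw [DK_mul, DK_mul, map_add, map_add, map_mul, map_mul, map_mul, map_mul]
    ring
  rw [h2] at h1
  exact mul_left_cancel₀ hb' (add_left_cancel h1)

theorem io_X0_pow_jo (N : ℕ) : jo (io (X 0 ^ N)) = fr (X 0 ^ N) := jo_io _

theorem chK_reg (φ : Polynomial ℂ) {q : Fin 3 → ℂ} (hq : q 0 ≠ 0) {g : Kf}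
    (h : RegAt (thq φ q) g) : RegAt q (chK φ g) := by
  obtain ⟨a, b, hb, e⟩ := h
  obtain ⟨N, a', ea, va⟩ := exists_clr φ a
  obtain ⟨K, b', eb, vb⟩ := exists_clr φ b
  refine ⟨X 0 ^ K * a', X 0 ^ N * b', ?_, ?_⟩
  · rw [map_mul, map_pow, eval_X, vb q hq]
    exact mul_ne_zero (pow_ne_zero _ hq) (mul_ne_zero (pow_ne_zero _ hq) hb)
  · have e1 := congrArg (chK φ) e
    rw [map_mul, chK_fr, chK_fr] at e1
    have e2 := congrArg jo ea
    have e3 := congrArg jo eb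
    rw [map_mul, jo_io, jo_io] at e2 e3
    rw [map_mul, map_mul, ← e2, ← e3, ← e1]
    ring

theorem chK_hk (φ : Polynomial ℂ) {k : ℤ} {g : Kf} (h : Hk k g) : Hk k (chK φ g) := by
  obtain ⟨m, n, a, b, ha, hb, hb0, hk, e⟩ := h
  have h1 := hk_jo (hm_chP φ ha)
  have h2 := hk_jo (hm_chP φ hb)
  have hb' : jo (chP φ b) ≠ 0 := by
    rw [← chK_fr]
    exact chK_ne_zero φ (fr_ne_zero hb0)
  have e1 := congrArg (chK φ) e
  rw [map_mul, chK_fr, chK_fr] at e1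
  have e2 : chK φ g = jo (chP φ a) * (jo (chP φ b))⁻¹ := by
    rw [← e1, mul_assoc, mul_inv_cancel₀ hb', mul_one]
  rw [e2, ← hk]
  exact h1.mul h2.inv

theorem jo_sg01 (φ : Polynomial ℂ) (i j : ℤ) (c : ℂ) :
    chK φ (jo (sg (i • ex 0 + j • ex 1) c)) = jo (sg (i • ex 0 + j • ex 1) c) := by
  rw [jo_sg, Algebra.smul_def, map_mul, chK_const, map_prod]
  congr 1
  rw [Fin.prod_univ_three, Fin.prod_univ_three, map_zpow₀, map_zpow₀, map_zpow₀, chK_X0, chK_X1]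
  have h2 : (i • ex 0 + j • ex 1 : Fin 3 → ℤ) 2 = 0 := by simp [ex]
  rw [h2, zpow_zero, zpow_zero]

theorem chK_psi (φ χ : Polynomial ℂ) : chK φ (jo (psi χ)) = jo (psi χ) := by
  unfold psi
  rw [map_sum, map_sum]
  exact Finset.sum_congr rfl fun j _ => jo_sg01 φ _ _ _

theorem psi_neg (φ : Polynomial ℂ) : psi (-φ) = -psi φ := by
  unfold psi
  rw [Polynomial.natDegree_neg, ← Finset.sum_neg_distrib]
  refine Finset.sum_congr rfl fun j _ => ?_
  rw [Polynomial.coeff_neg]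
  exact eq_neg_of_add_eq_zero_left (by
    rw [← AddMonoidAlgebra.single_add, neg_add_cancel, AddMonoidAlgebra.single_zero])

theorem chK_chK_X (φ : Polynomial ℂ) (i : Fin 3) : chK (-φ) (chK φ (fr (X i))) = fr (X i) := by
  by_cases hi : i = 2
  · subst hi
    have h4 : jo (xx 2) = fr (X 2) := by
      rw [← jo_io, OB.io_X]
      rfl
    have h5 : chK φ (fr (X 2)) = fr (X 2) + jo (psi φ) := by
      rw [chK_fr, chP_X2, map_add, h4]
    have h6 : chK (-φ) (fr (X 2)) = fr (X 2) - jo (psi φ) := by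
      rw [chK_fr, chP_X2, map_add, h4, psi_neg, map_neg, sub_eq_add_neg]
    rw [h5, map_add, chK_psi, h6]
    ring
  · fin_cases i
    · show chK (-φ) (chK φ (fr (X 0))) = fr (X 0)
      rw [chK_X0, chK_X0]
    · show chK (-φ) (chK φ (fr (X 1))) = fr (X 1)
      rw [chK_X1, chK_X1]
    · exact absurd rfl hi

theorem chK_chK (φ : Polynomial ℂ) (g : Kf) : chK (-φ) (chK φ g) = g := by
  have hfr : ∀ p : MvPolynomial (Fin 3) ℂ, chK (-φ) (chK φ (fr p)) = fr p := by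
    intro p
    induction p using MvPolynomial.induction_on with
    | C a => rw [fr_C, chK_const, chK_const]
    | add p q hp hq => rw [map_add, map_add, map_add, hp, hq]
    | mul_X p i hp => rw [map_mul fr, map_mul (chK φ), map_mul (chK (-φ)), hp, chK_chK_X]
  obtain ⟨a, b, hb, h⟩ := exists_frac g
  have h1 := congrArg (fun x => chK (-φ) (chK φ x)) h
  beta_reduce at h1
  rw [map_mul (chK φ), map_mul (chK (-φ)), hfr a, hfr b, ← h] at h1
  exact mul_right_cancel₀ (fr_ne_zero hb) h1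

theorem chK_chK' (φ : Polynomial ℂ) (g : Kf) : chK φ (chK (-φ) g) = g := by
  have := chK_chK (-φ) g
  rwa [neg_neg] at this

/-! ### Vector fields and forms -/

/-- The transform of a vector field. -/
def chT (φ : Polynomial ℂ) (t : Fin 3 → Kf) : Fin 3 → Kf :=
  ![chK φ (t 0), chK φ (t 1),
    chK φ (t 2) - (jo (D 0 (psi φ)) * chK φ (t 0) + jo (D 1 (psi φ)) * chK φ (t 1))]

/-- The transform of a differential form. -/
def chW (φ : Polynomial ℂ) (w : Fin 3 → Kf) : Fin 3 → Kf :=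
  ![chK φ (w 0) + jo (D 0 (psi φ)) * chK φ (w 2), chK φ (w 1) + jo (D 1 (psi φ)) * chK φ (w 2),
    chK φ (w 2)]

variable {φ : Polynomial ℂ}

theorem DK_jo_psi2 (i : Fin 3) : DK 2 (jo (D i (psi φ))) = 0 := by
  rw [DK_jo, OB.D_comm, D2_psi, map_zero, map_zero]

theorem chT_apply (t : Fin 3 → Kf) (g : Kf) :
    ∑ k, chT φ t k * DK k (chK φ g) = chK φ (∑ k, t k * DK k g) := by
  have e0 : chT φ t 0 = chK φ (t 0) := rfl
  have e1 : chT φ t 1 = chK φ (t 1) := rfl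
  have e2 : chT φ t 2 = chK φ (t 2) -
    (jo (D 0 (psi φ)) * chK φ (t 0) + jo (D 1 (psi φ)) * chK φ (t 1)) := rfl
  rw [Fin.sum_univ_three, Fin.sum_univ_three, e0, e1, e2, chK_DK, chK_DK, chK_DK, D2_psi, map_add,
    map_add, map_mul, map_mul, map_mul, map_zero]
  ring

theorem chT_div (t : Fin 3 → Kf) : dvK (chT φ t) = chK φ (dvK t) := by
  unfold dvK
  have e0 : chT φ t 0 = chK φ (t 0) := rfl
  have e1 : chT φ t 1 = chK φ (t 1) := rfl
  have e2 : chT φ t 2 = chK φ (t 2) -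
    (jo (D 0 (psi φ)) * chK φ (t 0) + jo (D 1 (psi φ)) * chK φ (t 1)) := rfl
  rw [Fin.sum_univ_three, Fin.sum_univ_three, e0, e1, e2, map_sub, map_add (DK 2), DK_mul, DK_mul,
    DK_jo_psi2, DK_jo_psi2, chK_DK, chK_DK, chK_DK, chK_DK, chK_DK, D2_psi, map_add, map_add,
    map_zero]
  ring

theorem cuK0 (t : Fin 3 → Kf) : cuK t 0 = DK 1 (t 2) - DK 2 (t 1) := rfl

theorem cuK1 (t : Fin 3 → Kf) : cuK t 1 = DK 2 (t 0) - DK 0 (t 2) := rfl

theorem cuK2 (t : Fin 3 → Kf) : cuK t 2 = DK 0 (t 1) - DK 1 (t 0) := rfl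

theorem chT_curl (w : Fin 3 → Kf) (k : Fin 3) : chT φ (cuK w) k = cuK (chW φ w) k := by
  have w0 : chW φ w 0 = chK φ (w 0) + jo (D 0 (psi φ)) * chK φ (w 2) := rfl
  have w1 : chW φ w 1 = chK φ (w 1) + jo (D 1 (psi φ)) * chK φ (w 2) := rfl
  have w2 : chW φ w 2 = chK φ (w 2) := rfl
  have hc : DK 0 (jo (D 1 (psi φ))) = DK 1 (jo (D 0 (psi φ))) := by
    rw [DK_jo, DK_jo, OB.D_comm]
  have p1 := DK_jo_psi2 (φ := φ) 1
  have p0 := DK_jo_psi2 (φ := φ) 0
  have q := D2_psi φ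
  fin_cases k
  · show chK φ (cuK w 0) = cuK (chW φ w) 0
    rw [cuK0, cuK0, w1, w2, map_sub, map_add (DK 2), DK_mul, chK_DK, chK_DK, chK_DK, p1, q,
      map_zero]
    ring
  · show chK φ (cuK w 1) = cuK (chW φ w) 1
    rw [cuK1, cuK1, w0, w2, map_sub, map_add (DK 2), DK_mul, chK_DK, chK_DK, chK_DK, p0, q,
      map_zero]
    ring
  · show chK φ (cuK w 2) - (jo (D 0 (psi φ)) * chK φ (cuK w 0) +
      jo (D 1 (psi φ)) * chK φ (cuK w 1)) = cuK (chW φ w) 2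
    rw [cuK2, cuK2, cuK0, cuK1, w0, w1, map_sub, map_sub, map_sub, map_add (DK 0), map_add (DK 1),
      DK_mul, DK_mul, chK_DK, chK_DK, chK_DK, chK_DK, hc]
    ring

theorem chT_hk {t : Fin 3 → Kf} {k : ℤ} (h : ∀ i, Hk k (t i)) (i : Fin 3) : Hk k (chT φ t i) := by
  have hD : ∀ i, Hk 0 (jo (D i (psi φ))) := by
    intro i
    apply hk_jo
    have := (hm_psi φ).D i
    rwa [OB.td_ex, sub_self] at this
  fin_cases i
  · exact chK_hk φ (h 0)
  · exact chK_hk φ (h 1)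
  · have h0 := (hD 0).mul (chK_hk φ (h 0))
    have h1 := (hD 1).mul (chK_hk φ (h 1))
    rw [zero_add] at h0 h1
    exact (chK_hk φ (h 2)).sub (h0.add h1)

theorem regAt_jo_psi {q : Fin 3 → ℂ} (hq : q 0 ≠ 0) (i : Fin 3) :
    RegAt q (jo (D i (psi φ))) := by
  apply LocKA.regAt_jo
  intro j hj
  exact (reg_psi φ j (by rintro rfl; exact hq hj)).D i

theorem chT_reg {t : Fin 3 → Kf} {q : Fin 3 → ℂ} (hq : q 0 ≠ 0) (h : ∀ i, RegAt (thq φ q) (t i))
    (i : Fin 3) : RegAt q (chT φ t i) := by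
  fin_cases i
  · exact chK_reg φ hq (h 0)
  · exact chK_reg φ hq (h 1)
  · exact (chK_reg φ hq (h 2)).sub (((regAt_jo_psi hq 0).mul (chK_reg φ hq (h 0))).add
      ((regAt_jo_psi hq 1).mul (chK_reg φ hq (h 1))))

end MPb07157.O3
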