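import Pool.Agent.Lib.MP_b07157_agO3.G2b
import Pool.Agent.Lib.MP_b07157_agB2.Har
import Pool.Agent.Lib.MP_b07157_agB3.Res

/-!
# Fat points

Jets of order `M j` at points `L j` and vanishing to the order `ν i` at points `Q i` are
independent conditions on forms of degree `e` if `∑ M j + ∑ ν i ≤ e + 1`.
-/

noncomputable section

namespace MPb07157.O3

open MvPolynomial MPb07157Q
open MPb07157.OK
open G2b

namespace Fat

theorem tay_add (L : Loc) (p q : MvPolynomial (Fin 3) ℂ) : L.tay (p + q) = L.tay p + L.tay q :=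
  map_add _ _ _

theorem tay_sub (L : Loc) (p q : MvPolynomial (Fin 3) ℂ) : L.tay (p - q) = L.tay p - L.tay q :=
  map_sub _ _ _

theorem tay_mul (L : Loc) (p q : MvPolynomial (Fin 3) ℂ) : L.tay (p * q) = L.tay p * L.tay q :=
  map_mul _ _ _

theorem tay_pow (L : Loc) (p : MvPolynomial (Fin 3) ℂ) (k : ℕ) : L.tay (p ^ k) = L.tay p ^ k :=
  map_pow _ _ _

theorem tay_zero (L : Loc) : L.tay 0 = 0 := map_zero _

theorem tay_C (L : Loc) (c : ℂ) : L.tay (C c) = C c := by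
  show Tay L.p L.u L.w L.φ (C c) = C c
  unfold Tay
  rw [aeval_C, algebraMap_eq]

theorem coeff_tay (L : Loc) (hφ : L.φ.eval 0 = 0) (G : MvPolynomial (Fin 3) ℂ) :
    coeff 0 (L.tay G) = eval L.p G := by
  have h0 : ∀ H : MvPolynomial (Fin 2) ℂ, coeff 0 H = constantCoeff H := fun _ => rfl
  induction G using MvPolynomial.induction_on with
  | C a => rw [tay_C, eval_C, h0, constantCoeff_C]
  | add p q hp hq => rw [tay_add, coeff_add, hp, hq, map_add]
  | mul_X p i hp =>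
    rw [tay_mul, h0, map_mul, ← h0, ← h0, hp, map_mul, eval_X]
    congr 1
    show coeff 0 (Tay L.p L.u L.w L.φ (X i)) = L.p i
    unfold Tay
    rw [aeval_X, coeff_add, coeff_add, coeff_C_mul, coeff_C_mul, coeff_add, coeff_zero_aeval, hφ]
    simp

theorem tay_lfc (L : Loc) (c : Fin 3 → ℂ) : L.tay (lfc c) = C (∑ k, c k * L.p k) +
    C (∑ k, c k * L.u k) * X 0 +
    C (∑ k, c k * L.w k) * (X 1 + Polynomial.aeval (X 0) L.φ) := by
  show Tay L.p L.u L.w L.φ (lfc c) = _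
  unfold Tay lfc
  simp only [Fin.sum_univ_three, map_add, map_mul, aeval_C, aeval_X, algebraMap_eq]
  ring

theorem exists_dual3 {p u w : Fin 3 → ℂ} (h : LinearIndependent ℂ ![p, u, w]) (i : Fin 3) :
    ∃ c : Fin 3 → ℂ, ∑ k, c k * p k = (if i = 0 then 1 else 0) ∧
      ∑ k, c k * u k = (if i = 1 then 1 else 0) ∧ ∑ k, c k * w k = (if i = 2 then 1 else 0) := by
  let B := basisOfLinearIndependentOfCardEqFinrank h (by simp)
  have hB : ∀ j, B j = ![p, u, w] j := fun j => by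
    rw [coe_basisOfLinearIndependentOfCardEqFinrank]
  have h1 : ∀ q : Fin 3 → ℂ, ∑ k, B.coord i (fun l => if k = l then 1 else 0) * q k =
      B.coord i q := by
    intro q
    rw [LinearMap.pi_apply_eq_sum_univ (B.coord i) q]
    exact Finset.sum_congr rfl fun k _ => by rw [smul_eq_mul, mul_comm]
  have h2 : ∀ j, B.coord i (![p, u, w] j) = if i = j then 1 else 0 := by
    intro j
    rw [← hB j, Module.Basis.coord_apply, Module.Basis.repr_self, Finsupp.single_apply]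
    by_cases hij : i = j
    · rw [if_pos hij.symm, if_pos hij]
    · rw [if_neg (Ne.symm hij), if_neg hij]
  exact ⟨fun k => B.coord i (fun l => if k = l then 1 else 0), (h1 p).trans (h2 0),
    (h1 u).trans (h2 1), (h1 w).trans (h2 2)⟩

theorem any_wge (G : MvPolynomial (Fin 2) ℂ) : WGe 1 1 0 G := fun _ _ => Nat.zero_le _

theorem wge_neg {K : ℕ} {G : MvPolynomial (Fin 2) ℂ} (h : WGe 1 1 K G) : WGe 1 1 K (-G) := by
  intro m hm
  rw [coeff_neg] at hm
  exact h m fun h0 => hm (by rw [h0, neg_zero])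

theorem wge_sub {K : ℕ} {G H : MvPolynomial (Fin 2) ℂ} (h : WGe 1 1 K G) (h' : WGe 1 1 K H) :
    WGe 1 1 K (G - H) := by
  rw [sub_eq_add_neg]
  exact wge_add h (wge_neg h')

theorem wge_X (i : Fin 2) : WGe 1 1 1 (X i : MvPolynomial (Fin 2) ℂ) :=
  wge_one_of_coeff one_pos one_pos (coeff_zero_X i)

theorem wge_aeval2 {φ : Polynomial ℂ} (hφ : φ.eval 0 = 0) :
    WGe 1 1 2 (Polynomial.aeval (X 0) φ - C (φ.coeff 1) * X 0 : MvPolynomial (Fin 2) ℂ) := by
  have h0 : φ.coeff 0 = 0 := by rwa [← Polynomial.coeff_zero_eq_eval_zero] at hφ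
  have e1 : (Polynomial.aeval (X 0) φ - C (φ.coeff 1) * X 0 : MvPolynomial (Fin 2) ℂ) =
      X 0 ^ 2 * Polynomial.aeval (X 0) (φ.divX.divX) := by
    have h1 := Polynomial.divX_mul_X_add φ
    have h2 := Polynomial.divX_mul_X_add φ.divX
    rw [h0, map_zero, add_zero] at h1
    have h3 : φ.divX.coeff 0 = φ.coeff 1 := by rw [Polynomial.coeff_divX]
    rw [h3] at h2
    have h4 : (Polynomial.aeval (X 0) φ : MvPolynomial (Fin 2) ℂ) =
        Polynomial.aeval (X 0) ((φ.divX.divX * Polynomial.X + Polynomial.C (φ.coeff 1)) *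
          Polynomial.X) := by rw [h2, h1]
    rw [h4, map_mul, map_add, map_mul, Polynomial.aeval_X, Polynomial.aeval_C, algebraMap_eq]
    ring
  rw [e1]
  exact wge_mul (wge_pow (wge_X 0) 2) (any_wge _)

theorem wge_pow_sub {r : MvPolynomial (Fin 2) ℂ} (hr : WGe 1 1 2 r) (k : ℕ) :
    WGe 1 1 (k + 1) ((X 1 + r) ^ k - X 1 ^ k) := by
  induction k with
  | zero =>
    rw [pow_zero, pow_zero, sub_self]
    exact wge_zero _ _ _
  | succ k ih =>
    have e1 : (X 1 + r) ^ (k + 1) - X 1 ^ (k + 1) =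
        (X 1 + r) ^ k * r + ((X 1 + r) ^ k - X 1 ^ k) * X 1 := by ring
    rw [e1]
    refine wge_add ?_ ?_
    · exact wge_mono (wge_mul (wge_pow (wge_add (wge_X 1) (wge_mono hr (by omega))) k) hr)
        (by omega)
    · exact wge_mul ih (wge_X 1)

variable {ι κ : Type} [Fintype ι] [Fintype κ] [DecidableEq ι]

/-- The tuple `c` is the tuple of the jets of a form `τ` of degree `e`. -/
def Good (L : ι → Loc) (Q : κ → Fin 3 → ℂ) (M : ι → ℕ) (ν : κ → ℕ) (e : ℕ)
    (c : ι → MvPolynomial (Fin 2) ℂ) : Prop :=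
  ∃ τ : MvPolynomial (Fin 3) ℂ, τ.IsHomogeneous e ∧
    (∀ j, WGe 1 1 (M j) ((L j).tay τ - c j)) ∧ ∀ i (a : ℂ), Mu (a • Q i) (ν i) τ

variable {L : ι → Loc} {Q : κ → Fin 3 → ℂ} {M : ι → ℕ} {ν : κ → ℕ} {e : ℕ}
  {c c' : ι → MvPolynomial (Fin 2) ℂ}

omit [Fintype ι] [Fintype κ] [DecidableEq ι] in
theorem Good.zero (L : ι → Loc) (Q : κ → Fin 3 → ℂ) (M : ι → ℕ) (ν : κ → ℕ) (e : ℕ) :
    Good L Q M ν e 0 := by
  refine ⟨0, isHomogeneous_zero _ _ _, fun j => ?_, fun i a => Mu.zero _ _⟩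
  rw [tay_zero, Pi.zero_apply, sub_zero]
  exact wge_zero _ _ _

omit [Fintype ι] [Fintype κ] [DecidableEq ι] in
theorem Good.add (h : Good L Q M ν e c) (h' : Good L Q M ν e c') : Good L Q M ν e (c + c') := by
  obtain ⟨τ, t1, t2, t3⟩ := h
  obtain ⟨τ', u1, u2, u3⟩ := h'
  refine ⟨τ + τ', t1.add u1, fun j => ?_, fun i a => (t3 i a).add (u3 i a)⟩
  have e1 : (L j).tay (τ + τ') - (c + c') j =
      ((L j).tay τ - c j) + ((L j).tay τ' - c' j) := by
    rw [tay_add, Pi.add_apply]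
    ring
  rw [e1]
  exact wge_add (t2 j) (u2 j)

omit [Fintype ι] [Fintype κ] [DecidableEq ι] in
theorem Good.C_mul (h : Good L Q M ν e c) (a : ℂ) : Good L Q M ν e (fun j => C a * c j) := by
  obtain ⟨τ, t1, t2, t3⟩ := h
  have h1 := (isHomogeneous_C (Fin 3) a).mul t1
  rw [zero_add] at h1
  refine ⟨C a * τ, h1, fun j => ?_, fun i b => ?_⟩
  · have e1 : (L j).tay (C a * τ) - C a * c j = C a * ((L j).tay τ - c j) := by
      rw [tay_mul, tay_C]
      ring
    rw [e1]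
    have := wge_mul (any_wge (C a)) (t2 j)
    rwa [zero_add] at this
  · have := (RgC.mu_zero_left (b • Q i) (C a)).mul (t3 i b)
    rwa [zero_add] at this

omit [Fintype ι] [Fintype κ] [DecidableEq ι] in
theorem Good.congr (h : Good L Q M ν e c) (h' : ∀ j, WGe 1 1 (M j) (c j - c' j)) :
    Good L Q M ν e c' := by
  obtain ⟨τ, t1, t2, t3⟩ := h
  refine ⟨τ, t1, fun j => ?_, t3⟩
  have e1 : (L j).tay τ - c' j = ((L j).tay τ - c j) + (c j - c' j) := by ring
  rw [e1]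
  exact wge_add (t2 j) (h' j)

omit [Fintype ι] [Fintype κ] [DecidableEq ι] in
theorem Good.sum {T : Type} (s : Finset T) {g : T → ι → MvPolynomial (Fin 2) ℂ}
    (h : ∀ i ∈ s, Good L Q M ν e (g i)) : Good L Q M ν e (∑ i ∈ s, g i) := by
  classical
  induction s using Finset.induction_on with
  | empty => exact Good.zero L Q M ν e
  | insert i s hi ih =>
    rw [Finset.sum_insert hi]
    exact (h i (Finset.mem_insert_self i s)).add
      (ih fun j hj => h j (Finset.mem_insert_of_mem hj))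

/-- A linear form which vanishes at `q` and not at `p`. -/
theorem exists_line {p q : Fin 3 → ℂ} (hp : p ≠ 0) (h : ∀ a : ℂ, p ≠ a • q) :
    ∃ ℓ : MvPolynomial (Fin 3) ℂ, ℓ.IsHomogeneous 1 ∧ eval p ℓ ≠ 0 ∧
      ∀ a : ℂ, eval (a • q) ℓ = 0 := by
  by_cases hq : q = 0
  · obtain ⟨k, hk⟩ := Function.ne_iff.1 hp
    refine ⟨X k, isHomogeneous_X ℂ k, by rwa [eval_X], fun a => ?_⟩
    rw [hq, smul_zero, eval_X]
    rfl
  · by_contra hcon
    push Not at hcon
    obtain ⟨a, ha⟩ := HarAux.exists_smul hq (q := p) fun k => by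
      by_contra hne
      obtain ⟨a, ha⟩ := hcon (HarAux.lf q k) (HarAux.lf_hom q k) hne
      apply ha
      rw [HarAux.eval_lf, Pi.smul_apply, Pi.smul_apply, smul_eq_mul, smul_eq_mul]
      ring
    exact h a ha

theorem mu_one {b : Fin 3 → ℂ} {p : MvPolynomial (Fin 3) ℂ} (h : eval b p = 0) : Mu b 1 p := by
  rw [RgC.mu_iff]
  intro m hm
  have h0 : m = 0 := by
    rw [← Finsupp.degree_eq_zero_iff]
    omega
  rw [h0, RgC.coeff_zero_translate', h]

theorem mu_pow {b : Fin 3 → ℂ} {p : MvPolynomial (Fin 3) ℂ} (h : eval b p = 0) (k : ℕ) :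
    Mu b k (p ^ k) := by
  induction k with
  | zero => exact RgC.mu_zero_left _ _
  | succ k ih =>
    rw [pow_succ]
    exact ih.mul (mu_one h)

/-- A form whose jet at `L j` starts with a given monomial. -/
theorem exists_H (hind : ∀ j, LinearIndependent ℂ ![(L j).p, (L j).u, (L j).w])
    (hφ : ∀ j, (L j).φ.eval 0 = 0)
    (hLL : ∀ i j, i ≠ j → ∀ a : ℂ, (L j).p ≠ a • (L i).p)
    (hQ : ∀ i j, ∀ a : ℂ, (L j).p ≠ a • Q i) (he : ∑ j, M j + ∑ i, ν i ≤ e + 1) (j : ι)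
    {m : Fin 2 →₀ ℕ} (hm : m 0 + m 1 < M j) :
    ∃ τ : MvPolynomial (Fin 3) ℂ, τ.IsHomogeneous e ∧
      WGe 1 1 (m 0 + m 1 + 1) ((L j).tay τ - X 0 ^ m 0 * X 1 ^ m 1) ∧
      (∀ l, l ≠ j → WGe 1 1 (M l) ((L l).tay τ)) ∧ ∀ i (a : ℂ), Mu (a • Q i) (ν i) τ := by
  obtain ⟨cx, x1, x2, x3⟩ := exists_dual3 (hind j) 0
  obtain ⟨cy, y1, y2, y3⟩ := exists_dual3 (hind j) 1
  obtain ⟨cz, z1, z2, z3⟩ := exists_dual3 (hind j) 2
  have tx : (L j).tay (lfc cx) = 1 := by
    rw [tay_lfc, x1, x2, x3]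
    simp
  have ty : (L j).tay (lfc cy) = X 0 := by
    rw [tay_lfc, y1, y2, y3]
    simp
  have tz : (L j).tay (lfc cz) = X 1 + Polynomial.aeval (X 0) (L j).φ := by
    rw [tay_lfc, z1, z2, z3]
    simp
  have hp0 : (L j).p ≠ 0 := (hind j).ne_zero 0
  have hline : ∀ l, ∃ ℓ : MvPolynomial (Fin 3) ℂ, ℓ.IsHomogeneous 1 ∧ eval (L j).p ℓ ≠ 0 ∧
      (l ≠ j → eval (L l).p ℓ = 0) := by
    intro l
    by_cases hl : l = j
    · refine ⟨lfc cx, isHomogeneous_lfc cx, ?_, fun h => absurd hl h⟩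
      rw [← coeff_tay (L j) (hφ j), tx, coeff_zero_one]
      exact one_ne_zero
    · obtain ⟨ℓ, a1, a2, a3⟩ := exists_line hp0 (hLL l j hl)
      refine ⟨ℓ, a1, a2, fun _ => ?_⟩
      have := a3 1
      rwa [one_smul] at this
  choose ℓ a1 a2 a3 using hline
  choose ℓ' b1 b2 b3 using fun i => exists_line hp0 (hQ i j)
  obtain ⟨U, hU⟩ : ∃ U : MvPolynomial (Fin 3) ℂ,
      U = (∏ l ∈ Finset.univ.erase j, ℓ l ^ M l) * ∏ i, ℓ' i ^ ν i := ⟨_, rfl⟩
  obtain ⟨D, hD⟩ : ∃ D : ℕ, D = (∑ l ∈ Finset.univ.erase j, M l) + ∑ i, ν i := ⟨_, rfl⟩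
  have hUh : U.IsHomogeneous D := by
    rw [hU, hD]
    refine (IsHomogeneous.prod _ _ _ fun l _ => ?_).mul (IsHomogeneous.prod _ _ _ fun i _ => ?_)
    · have := (a1 l).pow (M l)
      rwa [one_mul] at this
    · have := (b1 i).pow (ν i)
      rwa [one_mul] at this
  have hUe : eval (L j).p U ≠ 0 := by
    rw [hU, map_mul, map_prod, map_prod]
    refine mul_ne_zero (Finset.prod_ne_zero_iff.2 fun l _ => ?_)
      (Finset.prod_ne_zero_iff.2 fun i _ => ?_)
    · rw [map_pow]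
      exact pow_ne_zero _ (a2 l)
    · rw [map_pow]
      exact pow_ne_zero _ (b2 i)
  have hDe : m 0 + m 1 + D ≤ e := by
    have h1 := Finset.add_sum_erase Finset.univ M (Finset.mem_univ j)
    omega
  obtain ⟨z', hz'⟩ : ∃ z' : MvPolynomial (Fin 3) ℂ,
      z' = lfc cz - C ((L j).φ.coeff 1) * lfc cy := ⟨_, rfl⟩
  obtain ⟨ρ, hρ⟩ : ∃ ρ : MvPolynomial (Fin 2) ℂ,
      ρ = Polynomial.aeval (X 0) (L j).φ - C ((L j).φ.coeff 1) * X 0 := ⟨_, rfl⟩
  have hρ2 : WGe 1 1 2 ρ := by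
    rw [hρ]
    exact wge_aeval2 (hφ j)
  have tz' : (L j).tay z' = X 1 + ρ := by
    rw [hz', tay_sub, tay_mul, tay_C, tz, ty, hρ]
    ring
  have z'h : z'.IsHomogeneous 1 := by
    rw [hz']
    have h1 := (isHomogeneous_C (Fin 3) ((L j).φ.coeff 1)).mul (isHomogeneous_lfc cy)
    rw [zero_add] at h1
    exact (isHomogeneous_lfc cz).sub h1
  obtain ⟨τ, hτ⟩ : ∃ τ : MvPolynomial (Fin 3) ℂ, τ = C (eval (L j).p U)⁻¹ *
      (lfc cx ^ (e - (m 0 + m 1 + D)) * (lfc cy ^ m 0 * z' ^ m 1) * U) := ⟨_, rfl⟩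
  refine ⟨τ, ?_, ?_, fun l hl => ?_, fun i a => ?_⟩
  · have h1 := (isHomogeneous_lfc cx).pow (e - (m 0 + m 1 + D))
    have h2 := ((isHomogeneous_lfc cy).pow (m 0)).mul (z'h.pow (m 1))
    have h3 := (isHomogeneous_C (Fin 3) (eval (L j).p U)⁻¹).mul ((h1.mul h2).mul hUh)
    have h4 : 0 + (1 * (e - (m 0 + m 1 + D)) + (1 * m 0 + 1 * m 1) + D) = e := by omega
    rw [h4] at h3
    rw [hτ]
    exact h3
  · obtain ⟨V, hV⟩ : ∃ V : MvPolynomial (Fin 2) ℂ, V = C (eval (L j).p U)⁻¹ * (L j).tay U :=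
      ⟨_, rfl⟩
    have hV1 : WGe 1 1 1 (V - 1) := by
      refine wge_one_of_coeff one_pos one_pos ?_
      rw [coeff_sub, hV, coeff_C_mul, coeff_tay _ (hφ j), coeff_zero_one,
        inv_mul_cancel₀ hUe, sub_self]
    have hE : WGe 1 1 (m 0 + m 1) (X 0 ^ m 0 * (X 1 + ρ) ^ m 1) :=
      wge_mul (wge_pow (wge_X 0) _) (wge_pow (wge_add (wge_X 1) (wge_mono hρ2 (by omega))) _)
    have e1 : (L j).tay τ - X 0 ^ m 0 * X 1 ^ m 1 =
        X 0 ^ m 0 * (X 1 + ρ) ^ m 1 * (V - 1) +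
          X 0 ^ m 0 * ((X 1 + ρ) ^ m 1 - X 1 ^ m 1) := by
      rw [hτ, tay_mul, tay_mul, tay_mul, tay_mul, tay_pow, tay_pow, tay_pow, tay_C, tx, ty, tz',
        one_pow, hV]
      ring
    rw [e1]
    refine wge_add (wge_mul hE hV1) ?_
    exact wge_mono (wge_mul (wge_pow (wge_X 0) _) (wge_pow_sub hρ2 (m 1))) (by omega)
  · obtain ⟨w, hw⟩ : ℓ l ^ M l ∣ τ := by
      rw [hτ, hU]
      refine dvd_mul_of_dvd_right (dvd_mul_of_dvd_right (dvd_mul_of_dvd_left ?_ _) _) _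
      exact Finset.dvd_prod_of_mem (fun l => ℓ l ^ M l)
        (Finset.mem_erase.2 ⟨hl, Finset.mem_univ l⟩)
    rw [hw, tay_mul, tay_pow]
    have h1 : WGe 1 1 1 ((L l).tay (ℓ l)) :=
      wge_one_of_coeff one_pos one_pos (by rw [coeff_tay _ (hφ l), a3 l hl])
    have := wge_mul (wge_pow h1 (M l)) (any_wge ((L l).tay w))
    rwa [add_zero] at this
  · obtain ⟨w, hw⟩ : ℓ' i ^ ν i ∣ τ := by
      rw [hτ, hU]
      refine dvd_mul_of_dvd_right (dvd_mul_of_dvd_right (dvd_mul_of_dvd_right ?_ _) _) _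
      exact Finset.dvd_prod_of_mem (fun i => ℓ' i ^ ν i) (Finset.mem_univ i)
    rw [hw]
    have := (mu_pow (b3 i a) (ν i)).mul (RgC.mu_zero_left (a • Q i) w)
    rwa [add_zero] at this

omit [Fintype ι] [Fintype κ] in
theorem wge_single_sub (j : ι) (G : MvPolynomial (Fin 2) ℂ) {c : ι → MvPolynomial (Fin 2) ℂ}
    (h : WGe 1 1 (M j) (c j - G)) (h' : ∀ l, l ≠ j → WGe 1 1 (M l) (c l)) (l : ι) :
    WGe 1 1 (M l) (c l - (Pi.single j G : ι → MvPolynomial (Fin 2) ℂ) l) := by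
  by_cases hl : l = j
  · subst hl
    rwa [Pi.single_eq_same]
  · rw [Pi.single_eq_of_ne hl, sub_zero]
    exact h' l hl

theorem good_single (hind : ∀ j, LinearIndependent ℂ ![(L j).p, (L j).u, (L j).w])
    (hφ : ∀ j, (L j).φ.eval 0 = 0)
    (hLL : ∀ i j, i ≠ j → ∀ a : ℂ, (L j).p ≠ a • (L i).p)
    (hQ : ∀ i j, ∀ a : ℂ, (L j).p ≠ a • Q i) (he : ∑ j, M j + ∑ i, ν i ≤ e + 1) (j : ι)
    (t : ℕ) : ∀ (D : ℕ), M j ≤ D + t → ∀ G : MvPolynomial (Fin 2) ℂ, WGe 1 1 D G →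
      Good L Q M ν e (Pi.single j G) := by
  have base : ∀ G : MvPolynomial (Fin 2) ℂ, WGe 1 1 (M j) G →
      Good L Q M ν e (Pi.single j G) := by
    intro G hG
    refine (Good.zero L Q M ν e).congr (wge_single_sub j G ?_ fun l _ => ?_)
    · rw [Pi.zero_apply, zero_sub]
      exact wge_neg hG
    · exact wge_zero _ _ _
  induction t with
  | zero =>
    intro D hD G hG
    exact base G (wge_mono hG hD)
  | succ t ih =>
    intro D hD G hG
    by_cases hDM : M j ≤ D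
    · exact base G (wge_mono hG hDM)
    · have mono : ∀ m : Fin 2 →₀ ℕ, m 0 + m 1 = D →
          Good L Q M ν e (Pi.single j (X 0 ^ m 0 * X 1 ^ m 1)) := by
        intro m hm
        obtain ⟨τ, t1, t2, t3, t4⟩ := exists_H hind hφ hLL hQ he j (m := m) (by omega)
        have g1 : Good L Q M ν e (Pi.single j ((L j).tay τ)) := by
          have g0 : Good L Q M ν e fun l => (L l).tay τ := by
            refine ⟨τ, t1, fun l => ?_, t4⟩
            rw [sub_self]
            exact wge_zero _ _ _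
          refine g0.congr (wge_single_sub j _ ?_ t3)
          rw [sub_self]
          exact wge_zero _ _ _
        have g2 : Good L Q M ν e
            (Pi.single j ((L j).tay τ - X 0 ^ m 0 * X 1 ^ m 1)) :=
          ih (D + 1) (by omega) _ (by rwa [hm] at t2)
        have g3 := g1.add (g2.C_mul (-1))
        refine g3.congr (wge_single_sub j _ ?_ fun l hl => ?_)
        · rw [Pi.add_apply, Pi.single_eq_same, Pi.single_eq_same, C_neg, C_1]
          have e1 : (L j).tay τ + -1 * ((L j).tay τ - X 0 ^ m 0 * X 1 ^ m 1) -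
              X 0 ^ m 0 * X 1 ^ m 1 = 0 := by ring
          rw [e1]
          exact wge_zero _ _ _
        · rw [Pi.add_apply, Pi.single_eq_of_ne hl, Pi.single_eq_of_ne hl, mul_zero, add_zero]
          exact wge_zero _ _ _
      obtain ⟨S, hS⟩ : ∃ S : Finset (Fin 2 →₀ ℕ), S = G.support.filter fun m => m 0 + m 1 = D :=
        ⟨_, rfl⟩
      have g1 : Good L Q M ν e (∑ m ∈ S, fun l => C (coeff m G) *
          (Pi.single j (X 0 ^ m 0 * X 1 ^ m 1) : ι → MvPolynomial (Fin 2) ℂ) l) := by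
        refine Good.sum S fun m hm => (mono m ?_).C_mul _
        rw [hS] at hm
        exact (Finset.mem_filter.1 hm).2
      have hmon : ∀ m : Fin 2 →₀ ℕ, ∀ a : ℂ, C a * (X 0 ^ m 0 * X 1 ^ m 1) =
          (monomial m a : MvPolynomial (Fin 2) ℂ) := by
        intro m a
        rw [monomial_eq, Finsupp.prod_fintype _ _ (fun i => pow_zero _), Fin.prod_univ_two]
      have hG' : WGe 1 1 (D + 1) (G - ∑ m ∈ S, C (coeff m G) * (X 0 ^ m 0 * X 1 ^ m 1)) := by
        intro m hm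
        rw [coeff_sub, coeff_sum] at hm
        simp only [hmon, coeff_monomial] at hm
        rw [Finset.sum_ite_eq' S m] at hm
        by_cases hmS : m ∈ S
        · rw [if_pos hmS, sub_self] at hm
          exact absurd rfl hm
        · rw [if_neg hmS, sub_zero] at hm
          have h1 := hG m hm
          have h2 : m 0 + m 1 ≠ D := by
            intro h3
            apply hmS
            rw [hS]
            exact Finset.mem_filter.2 ⟨mem_support_iff.2 hm, h3⟩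
          omega
      have g2 := ih (D + 1) (by omega) _ hG'
      refine (g1.add g2).congr (wge_single_sub j _ ?_ fun l hl => ?_)
      · rw [Pi.add_apply, Finset.sum_apply, Pi.single_eq_same]
        simp only [Pi.single_eq_same]
        rw [add_sub_cancel, sub_self]
        exact wge_zero _ _ _
      · rw [Pi.add_apply, Finset.sum_apply, Pi.single_eq_of_ne hl]
        simp only [Pi.single_eq_of_ne hl, mul_zero, Finset.sum_const_zero, add_zero]
        exact wge_zero _ _ _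

end Fat

open Fat in
/-- **Fat points.** -/
theorem fat_points {ι κ : Type} [Fintype ι] [Fintype κ] [DecidableEq ι] {L : ι → Loc}
    {Q : κ → Fin 3 → ℂ} {M : ι → ℕ} {ν : κ → ℕ} {e : ℕ}
    (hind : ∀ j, LinearIndependent ℂ ![(L j).p, (L j).u, (L j).w])
    (hφ : ∀ j, (L j).φ.eval 0 = 0)
    (hLL : ∀ i j, i ≠ j → ∀ a : ℂ, (L j).p ≠ a • (L i).p)
    (hQ : ∀ i j, ∀ a : ℂ, (L j).p ≠ a • Q i) (he : ∑ j, M j + ∑ i, ν i ≤ e + 1)
    (c : ι → MvPolynomial (Fin 2) ℂ) :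
    ∃ τ : MvPolynomial (Fin 3) ℂ, τ.IsHomogeneous e ∧
      (∀ j, WGe 1 1 (M j) ((L j).tay τ - c j)) ∧ ∀ i (a : ℂ), Mu (a • Q i) (ν i) τ := by
  have h1 : Fat.Good L Q M ν e (∑ j, Pi.single j (c j)) :=
    Fat.Good.sum Finset.univ fun j _ =>
      good_single hind hφ hLL hQ he j (M j) 0 (by omega) (c j) (any_wge _)
  rwa [Finset.univ_sum_single] at h1

end MPb07157.O3
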