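import Pool.Agent.Lib.MP_b07157_agO3.SD

/-!
# The global step
-/

noncomputable section

namespace MPb07157.O3

open MvPolynomial MPb07157Q
open MPb07157.OK
open MPb07157.OB (Dat)

variable {r n d : ℕ} {f P : MvPolynomial (Fin 3) ℂ} {v : Fin 3 → MvPolynomial (Fin 3) ℂ}
  {b : Fin r → Fin 3 → ℂ} {c : ℂ} {t : Fin 3 → Kf} {Sec : (Fin 3 → ℂ) → Kf → Prop}

namespace An

variable {j : Fin r} {k l : ℕ} {σ τ ρ : MvPolynomial (Fin 3) ℂ}

theorem add (h : An b n Sec j k σ) (h' : An b n Sec j k τ) : An b n Sec j k (σ + τ) := by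
  obtain ⟨e, s, ⟨l, he⟩, e0, ei, hk, hr⟩ := h
  obtain ⟨e', s', ⟨l', he'⟩, e0', ei', hk', hr'⟩ := h'
  refine ⟨e * e', s + s', ⟨_, he.mul he'⟩, ?_, fun i hi => ?_, hk.add hk',
    fun q G hq hb hs => ?_⟩
  · rw [map_mul]
    exact mul_ne_zero e0 e0'
  · rw [map_mul, ei i hi, zero_mul]
  · rw [map_mul] at hq
    have h1 := (hr q G (left_ne_zero_of_mul hq) hb hs).add
      (hr' q G (right_ne_zero_of_mul hq) hb hs)
    have e1 : fr (σ + τ) * G - (s + s') = fr σ * G - s + (fr τ * G - s') := by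
      rw [map_add]
      ring
    rw [e1]
    exact h1

theorem neg (h : An b n Sec j k σ) : An b n Sec j k (-σ) := by
  obtain ⟨e, s, he, e0, ei, hk, hr⟩ := h
  refine ⟨e, -s, he, e0, ei, hk.neg, fun q G hq hb hs => ?_⟩
  have h1 := (hr q G hq hb hs).neg
  have e1 : fr (-σ) * G - -s = -(fr σ * G - s) := by
    rw [map_neg]
    ring
  rw [e1]
  exact h1

theorem sub (h : An b n Sec j k σ) (h' : An b n Sec j k τ) : An b n Sec j k (σ - τ) := by
  rw [sub_eq_add_neg]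
  exact h.add h'.neg

theorem mul (h : An b n Sec j k σ) (hρ : ρ.IsHomogeneous l) : An b n Sec j (k + l) (ρ * σ) := by
  obtain ⟨e, s, he, e0, ei, hk, hr⟩ := h
  refine ⟨e, fr ρ * s, he, e0, ei, ?_, fun q G hq hb hs => ?_⟩
  · have h1 := (Hk.fr hρ).mul hk
    have e1 : (l : ℤ) + (3 - n + k) = 3 - n + ((k + l : ℕ) : ℤ) := by
      push_cast
      ring
    rwa [e1] at h1
  · have h1 := (RegAt.fr q ρ).mul (hr q G hq hb hs)
    have e1 : fr (ρ * σ) * G - fr ρ * s = fr ρ * (fr σ * G - s) := by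
      rw [map_mul]
      ring
    rw [e1]
    exact h1

theorem sat (h : An b n Sec j (k + l) (ρ * σ)) (hρ : ρ.IsHomogeneous l)
    (h0 : eval (b j) ρ ≠ 0) : An b n Sec j k σ := by
  obtain ⟨e, s, ⟨m, he⟩, e0, ei, hk, hr⟩ := h
  have hρ0 : ρ ≠ 0 := by
    rintro rfl
    exact h0 (map_zero _)
  have hf := fr_ne_zero hρ0
  refine ⟨e * ρ, s * (fr ρ)⁻¹, ⟨_, he.mul hρ⟩, ?_, fun i hi => ?_, ?_, fun q G hq hb hs => ?_⟩
  · rw [map_mul]
    exact mul_ne_zero e0 h0
  · rw [map_mul, ei i hi, zero_mul]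
  · have h1 := hk.mul (Hk.fr hρ).inv
    have e1 : (3 : ℤ) - n + ((k + l : ℕ) : ℤ) + -(l : ℤ) = 3 - n + k := by
      push_cast
      ring
    rwa [e1] at h1
  · rw [map_mul] at hq
    refine RegAt.of_mul (right_ne_zero_of_mul hq) ?_
    have h1 := hr q G (left_ne_zero_of_mul hq) hb hs
    have e1 : (fr σ * G - s * (fr ρ)⁻¹) * fr ρ = fr (ρ * σ) * G - s := by
      rw [map_mul, sub_mul, mul_assoc s, inv_mul_cancel₀ hf]
      ring
    rw [e1]
    exact h1

/-- A global solution for `σ`. -/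
theorem of_global (hbb : ∀ i j, i ≠ j → ∀ c : ℂ, b i ≠ c • b j) (j : Fin r) {a : Kf}
    (ha : Hk (3 - n + k) a) (h : ∀ q G, OffB b q → Sec q G → RegAt q (fr σ * G - a)) :
    An b n Sec j k σ := by
  obtain ⟨l, e, he, e0, ei⟩ := exists_sep hbb j
  exact ⟨e, a, ⟨l, he⟩, e0, ei, ha, fun q G _ hb hs => h q G hb hs⟩

end An

/-- Local solutions at all the bad points give a global solution. -/
theorem glob_an (hS : Sol f v n b c t Sec) (hb : ∀ j, b j ≠ 0) {k : ℕ}
    {σ : MvPolynomial (Fin 3) ℂ} (hσ : σ.IsHomogeneous k) (h : ∀ j, An b n Sec j k σ) :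
    ∃ a, Hk (3 - n + k) a ∧ ∀ q G, OffB b q → Sec q G → RegAt q (fr σ * G - a) := by
  classical
  choose e s he e0 ei hk hreg using h
  obtain ⟨ι, hι, e₀, h, he₀, hh, hhb, hcov⟩ := exists_cover hb
  have hg : ∀ i, ∃ g, Hk (3 - n) g ∧ ∀ q, eval q (h i) ≠ 0 → Sec q g := by
    intro i
    by_cases hi : h i = 0
    · exact ⟨0, Hk.zero _, fun q hq => absurd (by rw [hi, map_zero]) hq⟩
    · exact hS.ex e₀ (h i) he₀ (hh i) hi (hhb i)
  choose g hg1 hg2 using hg
  have hoff : ∀ i q, eval q (h i) ≠ 0 → OffB b q := fun i q hq =>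
    GlobAux.offB_of_ne he₀ (hh i) (hhb i) hq
  have hsec : ∀ q, OffB b q → ∃ i, eval q (h i) ≠ 0 ∧ Sec q (g i) := by
    intro q hq
    obtain ⟨i, hi⟩ := hcov q hq
    exact ⟨i, hi, hg2 i q hi⟩
  have hji : ∀ j i q, eval q (e j) ≠ 0 → eval q (h i) ≠ 0 → RegAt q (fr σ * g i - s j) :=
    fun j i q h1 h2 => hreg j q (g i) h1 (hoff i q h2) (hg2 i q h2)
  obtain ⟨G, hG, hG'⟩ := cousin (κ := 3 - n + k) (ι := Fin r ⊕ ι) (Sum.elim e h)
    (by
      rintro (j | i)
      · exact he j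
      · exact ⟨e₀, hh i⟩)
    (Sum.elim s (fun i => fr σ * g i))
    (by
      rintro (j | i)
      · exact hk j
      · have h1 := (Hk.fr hσ).mul (hg1 i)
        rw [add_comm] at h1
        exact h1)
    (by
      intro q hq
      by_cases hoffq : OffB b q
      · obtain ⟨i, hi⟩ := hcov q hoffq
        exact ⟨Sum.inr i, hi⟩
      · have h1 : ∃ j, ∃ c' : ℂ, q = c' • b j := by
          by_contra hcon
          push Not at hcon
          exact hoffq ⟨hq, hcon⟩
        obtain ⟨j, c', rfl⟩ := h1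
        refine ⟨Sum.inl j, ?_⟩
        obtain ⟨k, hk⟩ := he j
        change eval (c' • b j) (e j) ≠ 0
        rw [GlobAux.eval_smul hk]
        refine mul_ne_zero (pow_ne_zero _ ?_) (e0 j)
        rintro rfl
        exact hq (zero_smul _ _))
    (by
      rintro (j | i) (j' | i') q h1 h2
      · change RegAt q (s j - s j')
        by_cases hjj : j = j'
        · rw [hjj, sub_self]
          exact RegAt.zero q
        · obtain ⟨k, hk⟩ := he j
          obtain ⟨k', hk'⟩ := he j'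
          have hoffq : OffB b q := GlobAux.offB_of_two hk hk' hjj (ei j) (ei j') h1 h2
          obtain ⟨i, -, hi⟩ := hsec q hoffq
          have h3 := (hreg j' q (g i) h2 hoffq hi).sub (hreg j q (g i) h1 hoffq hi)
          have e1 : s j - s j' = fr σ * g i - s j' - (fr σ * g i - s j) := by ring
          rw [e1]
          exact h3
      · change RegAt q (s j - fr σ * g i')
        have h3 := (hji j i' q h1 h2).neg
        rwa [neg_sub] at h3
      · exact hji j' i q h2 h1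
      · change RegAt q (fr σ * g i - fr σ * g i')
        rw [← mul_sub]
        exact (RegAt.fr q σ).mul (hS.uniq q _ _ (hg2 i q h1) (hg2 i' q h2)))
  refine ⟨G, hG, fun q G' hq hG'' => ?_⟩
  obtain ⟨i, hi, hi'⟩ := hsec q hq
  have h1 : RegAt q (G - fr σ * g i) := hG' (Sum.inr i) q hi
  have h2 : RegAt q (fr σ * (G' - g i)) := (RegAt.fr q σ).mul (hS.uniq q _ _ hG'' hi')
  have e1 : fr σ * G' - G = fr σ * (G' - g i) - (G - fr σ * g i) := by ring
  rw [e1]
  exact h2.sub h1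

open HarAux RgC in
/-- (G1) The global step at one bad point: `J j k σ` means that `σ` is a form of degree `k` in the
ideal `J j`. -/
theorem an_one (hS : Sol f v n b c t Sec) (hb : ∀ j, b j ≠ 0)
    (hbb : ∀ i j, i ≠ j → ∀ c : ℂ, b i ≠ c • b j)
    {J : Fin r → ℕ → MvPolynomial (Fin 3) ℂ → Prop}
    (hJ : ∀ j k σ, σ.IsHomogeneous k → J j k σ → An b n Sec j k σ) (j : Fin r)
    (hJm : ∃ R, ∀ k σ, σ.IsHomogeneous k → Mu (b j) R σ → J j k σ)
    (hI : ∀ k σ, σ.IsHomogeneous k → ∃ (τ ℓ₁ ℓ₂ : MvPolynomial (Fin 3) ℂ) (l₁ l₂ : ℕ),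
      (τ = 0 ∨ 6 ≤ n) ∧ τ.IsHomogeneous (n - 6) ∧ ℓ₁.IsHomogeneous l₁ ∧ ℓ₂.IsHomogeneous l₂ ∧
      eval (b j) ℓ₁ ≠ 0 ∧ eval (b j) ℓ₂ ≠ 0 ∧ n - 6 + l₁ = k + l₂ ∧
      (∀ i, i ≠ j → J i (n - 6) τ) ∧ J j (k + l₂) (ℓ₁ * τ - ℓ₂ * σ)) :
    An b n Sec j 0 1 := by
  classical
  by_contra hcon
  -- the maximal multiplicity
  have hex : ∃ m, ∀ k σ, σ.IsHomogeneous k → Mu (b j) m σ → An b n Sec j k σ := by
    obtain ⟨R, hR⟩ := hJm
    exact ⟨R, fun k σ h1 h2 => hJ j k σ h1 (hR k σ h1 h2)⟩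
  have hm0 : Nat.find hex ≠ 0 := by
    intro h0
    have h1 := Nat.find_spec hex
    rw [h0] at h1
    exact hcon (h1 0 1 (isHomogeneous_one _ _) (mu_zero_left _ _))
  obtain ⟨m, hm⟩ := Nat.exists_eq_succ_of_ne_zero hm0
  have hmax : ∀ k σ, σ.IsHomogeneous k → Mu (b j) (m + 1) σ → An b n Sec j k σ := by
    have h1 := Nat.find_spec hex
    rw [hm] at h1
    exact h1
  have hmin := Nat.find_min hex (m := m) (by omega)
  push Not at hmin
  obtain ⟨k, σ, hσ, hσm, hσA⟩ := hmin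
  apply hσA
  obtain ⟨τ, ℓ₁, ℓ₂, l₁, l₂, h6, hτ, h1, h2, e1, e2, hdeg, hi, hj⟩ := hI k σ hσ
  have hdiff : (ℓ₁ * τ - ℓ₂ * σ).IsHomogeneous (k + l₂) := by
    have a1 := h1.mul hτ
    have a2 := h2.mul hσ
    rw [add_comm l₁, hdeg] at a1
    rw [add_comm l₂] at a2
    exact a1.sub a2
  have hjA := hJ j _ _ hdiff hj
  -- it is enough to show that `τ` is in the ideal
  suffices hτA : An b n Sec j (n - 6) τ by
    have a1 := hτA.mul h1
    rw [hdeg] at a1
    have a2 := a1.sub hjA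
    rw [sub_sub_cancel] at a2
    exact a2.sat h2 e2
  rcases h6 with h6 | h6
  · rw [h6]
    refine An.of_global (a := 0) hbb j (Hk.zero _) fun q G _ _ => ?_
    rw [map_zero, zero_mul, sub_zero]
    exact RegAt.zero q
  · have hy : ∀ k', (lf (b j) k').IsHomogeneous 1 := fun k' => lf_hom _ _
    have hymu : ∀ k', Mu (b j) 1 (lf (b j) k') := by
      intro k' i hi
      have hi0 : i = 0 := by omega
      rw [hi0, homogeneousComponent_zero, coeff_zero_translate', eval_self_lf, C_0]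
    have hA : ∀ k' i, An b n Sec i (n - 6 + 1) (lf (b j) k' * τ) := by
      intro k' i
      by_cases hij : i = j
      · rw [hij]
        have a1 : An b n Sec j (k + 1) (lf (b j) k' * σ) := by
          refine hmax _ _ ?_ ?_
          · rw [add_comm]
            exact (hy k').mul hσ
          · rw [add_comm]
            exact (hymu k').mul hσm
        have a2 := a1.mul h2
        have a3 := hjA.mul (hy k')
        have ed : k + 1 + l₂ = k + l₂ + 1 := by ring
        rw [ed] at a2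
        have a4 := a3.add a2
        have e3 : lf (b j) k' * (ℓ₁ * τ - ℓ₂ * σ) + ℓ₂ * (lf (b j) k' * σ) =
            ℓ₁ * (lf (b j) k' * τ) := by ring
        rw [e3] at a4
        have ed' : k + l₂ + 1 = n - 6 + 1 + l₁ := by omega
        rw [ed'] at a4
        exact a4.sat h1 e1
      · exact (hJ i _ _ hτ (hi i hij)).mul (hy k')
    have hyτ : ∀ k', (lf (b j) k' * τ).IsHomogeneous (n - 6 + 1) := by
      intro k'
      rw [add_comm]
      exact (hy k').mul hτ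
    choose A hAk hAr using fun k' => glob_an hS hb (hyτ k') (hA k')
    have hrel : ∀ k₁ k₂, fr (lf (b j) k₁) * A k₂ = fr (lf (b j) k₂) * A k₁ := by
      intro k₁ k₂
      obtain ⟨p, hp⟩ : ∃ p, fr (lf (b j) k₁) * A k₂ - fr (lf (b j) k₂) * A k₁ = fr p := by
        refine hartogs_offB hb fun q hq => ?_
        obtain ⟨G, hG⟩ := exists_sec hb hS hq
        have a1 := ((RegAt.fr q (lf (b j) k₂)).mul (hAr k₁ q G hq hG)).sub
          ((RegAt.fr q (lf (b j) k₁)).mul (hAr k₂ q G hq hG))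
        have e3 : fr (lf (b j) k₁) * A k₂ - fr (lf (b j) k₂) * A k₁ =
            fr (lf (b j) k₂) * (fr (lf (b j) k₁ * τ) * G - A k₁) -
            fr (lf (b j) k₁) * (fr (lf (b j) k₂ * τ) * G - A k₂) := by
          rw [map_mul, map_mul]
          ring
        rw [e3]
        exact a1
      have hp0 : p = 0 := by
        by_contra hp0
        have a1 : Hk (((1 : ℕ) : ℤ) + (3 - n + ((n - 6 + 1 : ℕ) : ℤ))) (fr p) := by
          rw [← hp]
          exact ((Hk.fr (hy k₁)).mul (hAk k₂)).sub ((Hk.fr (hy k₂)).mul (hAk k₁))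
        obtain ⟨m', hm', -⟩ := isHomogeneous_of_hk hp0 a1
        omega
      rw [hp0, map_zero] at hp
      exact sub_eq_zero.1 hp
    obtain ⟨k₀, hk₀⟩ : ∃ k', lf (b j) k' ≠ 0 := by
      by_contra hno
      push Not at hno
      have h3 : ∀ q : Fin 3 → ℂ, ∃ c : ℂ, q = c • b j := fun q =>
        exists_smul (hb j) fun k' => by rw [hno, map_zero]
      obtain ⟨c₁, hc₁⟩ := h3 (Pi.single 0 1)
      obtain ⟨c₂, hc₂⟩ := h3 (Pi.single 1 1)
      have a0 := congrFun hc₁ 0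
      have a1 := congrFun hc₁ 1
      have b0 := congrFun hc₂ 0
      have b1 := congrFun hc₂ 1
      rw [Pi.single_eq_same, Pi.smul_apply, smul_eq_mul] at a0 b1
      rw [Pi.single_eq_of_ne (by decide), Pi.smul_apply, smul_eq_mul] at a1 b0
      have hc1 : c₁ ≠ 0 := by
        rintro rfl
        rw [zero_mul] at a0
        exact one_ne_zero a0
      have hb1 : b j 1 = 0 := (mul_eq_zero.1 a1.symm).resolve_left hc1
      rw [hb1, mul_zero] at b1
      exact one_ne_zero b1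
    have hf0 := fr_ne_zero hk₀
    refine An.of_global (a := A k₀ * (fr (lf (b j) k₀))⁻¹) hbb j ?_ fun q G hq hG => ?_
    · have a1 := (hAk k₀).mul (Hk.fr (hy k₀)).inv
      have e3 : (3 : ℤ) - n + ((n - 6 + 1 : ℕ) : ℤ) + -((1 : ℕ) : ℤ) =
          3 - n + ((n - 6 : ℕ) : ℤ) := by
        push_cast
        ring
      rwa [e3] at a1
    · obtain ⟨k', hk'⟩ : ∃ k', eval q (lf (b j) k') ≠ 0 := by
        by_contra hno
        push Not at hno
        obtain ⟨c', hc'⟩ := exists_smul (hb j) hno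
        exact hq.2 j c' hc'
      refine RegAt.of_mul hk' ?_
      have e3 : (fr τ * G - A k₀ * (fr (lf (b j) k₀))⁻¹) * fr (lf (b j) k') =
          fr (lf (b j) k' * τ) * G - A k' := by
        have e4 : A k₀ * (fr (lf (b j) k₀))⁻¹ * fr (lf (b j) k') = A k' := by
          rw [mul_right_comm, mul_comm (A k₀), hrel k' k₀, mul_comm (fr (lf (b j) k₀)),
            mul_assoc, mul_inv_cancel₀ hf0, mul_one]
        rw [sub_mul, e4, map_mul]
        ring
      rw [e3]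
      exact hAr k' q G hq hG

/-- (G1) The global step: `J j k σ` means that `σ` is a form of degree `k` in the ideal `J j`. -/
theorem glob_one (hS : Sol f v n b c t Sec) (hb : ∀ j, b j ≠ 0)
    (hbb : ∀ i j, i ≠ j → ∀ c : ℂ, b i ≠ c • b j)
    {J : Fin r → ℕ → MvPolynomial (Fin 3) ℂ → Prop}
    (hJ : ∀ j k σ, σ.IsHomogeneous k → J j k σ → An b n Sec j k σ)
    (hJm : ∀ j, ∃ R, ∀ k σ, σ.IsHomogeneous k → Mu (b j) R σ → J j k σ)
    (hI : ∀ j k σ, σ.IsHomogeneous k → ∃ (τ ℓ₁ ℓ₂ : MvPolynomial (Fin 3) ℂ) (l₁ l₂ : ℕ),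
      (τ = 0 ∨ 6 ≤ n) ∧ τ.IsHomogeneous (n - 6) ∧ ℓ₁.IsHomogeneous l₁ ∧ ℓ₂.IsHomogeneous l₂ ∧
      eval (b j) ℓ₁ ≠ 0 ∧ eval (b j) ℓ₂ ≠ 0 ∧ n - 6 + l₁ = k + l₂ ∧
      (∀ i, i ≠ j → J i (n - 6) τ) ∧ J j (k + l₂) (ℓ₁ * τ - ℓ₂ * σ)) :
    ∃ β, ∀ q G, OffB b q → Sec q G → RegAt q (G - β) := by
  obtain ⟨a, -, ha⟩ := glob_an hS hb (isHomogeneous_one _ _)
    fun j => an_one hS hb hbb hJ j (hJm j) (hI j)
  refine ⟨a, fun q G hq hG => ?_⟩
  have h1 := ha q G hq hG
  rwa [map_one, one_mul] at h1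

end MPb07157.O3
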