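import Pool.Agent.Lib.MP_b07157_agO3.CK

/-!
# Weighted orders of rational functions at the point `(1 : 0 : 0)`
-/

noncomputable section

namespace MPb07157.O3

open MvPolynomial
open MPb07157.OK
open MPb07157.OB (La sg ex io td co D Hm Ge Reg gc)

variable {α β : ℕ}

/-- The weighted order at the point `(1 : 0 : 0)` is at least `L`. -/
def OgW (α β : ℕ) (L : ℤ) (w : Kf) : Prop :=
  ∃ (m : ℤ) (a b : MvPolynomial (Fin 3) ℂ), Ge (wl α β) (m + L) (io a) ∧ Ge (wl α β) m (io b) ∧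
    gc (wl α β) m (io b) ≠ 0 ∧ w * fr b = fr a

theorem wl_mon (N : ℕ) : wl α β (N • (ex 0 + ex 1 + ex 2)) = (N * (α + β) : ℕ) := by
  rw [map_nsmul, map_add, map_add, wl_ex0, wl_ex1, wl_ex2]
  push_cast
  simp

theorem wge_io (p : MvPolynomial (Fin 3) ℂ) : Ge (wl α β) 0 (io p) := by
  intro m hm
  rw [wl_apply]
  have h1 : 0 ≤ m 1 := OB.Reg.io 1 p m hm
  have h2 : 0 ≤ m 2 := OB.Reg.io 2 p m hm
  positivity

theorem ogW_jo_iff {L : ℤ} {a : La} : OgW α β L (jo a) ↔ Ge (wl α β) L a := by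
  constructor
  · rintro ⟨m, x, b, hx, hb, hb0, e⟩
    have h1 : io b * a = io x := by
      apply jo_injective
      rw [map_mul, jo_io, jo_io, ← e, mul_comm]
    obtain ⟨s, hs⟩ := OB.exists_ge (wl α β) a
    exact OB.ge_of_mul hb hb0 hs (h1 ▸ hx)
  · intro h
    obtain ⟨N, p, hp⟩ := JoAux.exists_clear a
    have h1 : Hm (wl α β) ((N * (α + β) : ℕ) : ℤ) (io ((X 0 * X 1 * X 2) ^ N)) := by
      rw [JoAux.io_mon]
      exact OB.Hm.sg (wl_mon N) 1
    refine ⟨(N * (α + β) : ℕ), p, _, ?_, h1.ge, ?_, jo_clear hp⟩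
    · rw [← hp]
      exact h1.ge.mul h
    · rw [h1.gc_eq]
      exact OB.io_ne_zero (JoAux.mon_ne N)

namespace OgW

variable {L L' : ℤ} {w w' : Kf}

theorem mono (h : OgW α β L w) (hL : L' ≤ L) : OgW α β L' w := by
  obtain ⟨m, a, b, ha, hb, hb0, e⟩ := h
  exact ⟨m, a, b, ha.mono (by omega), hb, hb0, e⟩

theorem add (h : OgW α β L w) (h' : OgW α β L w') : OgW α β L (w + w') := by
  obtain ⟨m, a, b, ha, hb, hb0, e⟩ := h
  obtain ⟨m', a', b', ha', hb', hb0', e'⟩ := h'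
  refine ⟨m + m', a * b' + a' * b, b * b', ?_, ?_, ?_, ?_⟩
  · rw [map_add, map_mul, map_mul]
    apply OB.Ge.add
    · exact (ha.mul hb').mono (by omega)
    · exact (ha'.mul hb).mono (by omega)
  · rw [map_mul]
    exact hb.mul hb'
  · rw [map_mul, OB.gc_mul_low hb hb']
    exact mul_ne_zero hb0 hb0'
  · rw [map_mul, map_add, map_mul, map_mul, ← e, ← e']
    ring

theorem neg (h : OgW α β L w) : OgW α β L (-w) := by
  obtain ⟨m, a, b, ha, hb, hb0, e⟩ := h
  refine ⟨m, -a, b, ?_, hb, hb0, ?_⟩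
  · rw [map_neg]
    exact ha.neg
  · rw [map_neg, ← e]
    ring

theorem sub (h : OgW α β L w) (h' : OgW α β L w') : OgW α β L (w - w') := by
  rw [sub_eq_add_neg]
  exact h.add h'.neg

theorem mul (h : OgW α β L w) (h' : OgW α β L' w') : OgW α β (L + L') (w * w') := by
  obtain ⟨m, a, b, ha, hb, hb0, e⟩ := h
  obtain ⟨m', a', b', ha', hb', hb0', e'⟩ := h'
  refine ⟨m + m', a * a', b * b', ?_, ?_, ?_, ?_⟩
  · rw [map_mul]
    exact (ha.mul ha').mono (by omega)
  · rw [map_mul]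
    exact hb.mul hb'
  · rw [map_mul, OB.gc_mul_low hb hb']
    exact mul_ne_zero hb0 hb0'
  · rw [map_mul, map_mul, ← e, ← e']
    ring

theorem sum3 {w : Fin 3 → Kf} (h : ∀ i, OgW α β L (w i)) : OgW α β L (∑ i, w i) := by
  rw [Fin.sum_univ_three]
  exact ((h 0).add (h 1)).add (h 2)

theorem DK (h : OgW α β L w) (i : Fin 3) : OgW α β (L - (α + β)) (OK.DK i w) := by
  have h0 : OgW α β (L - wl α β (ex i)) (OK.DK i w) := by
    obtain ⟨m, a, b, ha, hb, hb0, e⟩ := h
    have h1 := congrArg (OK.DK i) e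
    rw [DK_mul, DK_fr, DK_fr] at h1
    refine ⟨m + m, pderiv i a * b - a * pderiv i b, b * b, ?_, ?_, ?_, ?_⟩
    · rw [map_sub, map_mul, map_mul, ← OB.D_io, ← OB.D_io]
      apply OB.Ge.sub
      · exact ((ha.D i).mul hb).mono (by omega)
      · exact (ha.mul (hb.D i)).mono (by omega)
    · rw [map_mul]
      exact hb.mul hb
    · rw [map_mul, OB.gc_mul_low hb hb]
      exact mul_ne_zero hb0 hb0
    · rw [map_mul, map_sub, map_mul, map_mul, ← h1, ← e]
      ring
  refine h0.mono ?_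
  have : wl α β (ex i) ≤ α + β := by
    fin_cases i
    · show wl α β (ex 0) ≤ α + β
      rw [wl_ex0]
      positivity
    · show wl α β (ex 1) ≤ α + β
      rw [wl_ex1]
      omega
    · show wl α β (ex 2) ≤ α + β
      rw [wl_ex2]
      omega
  omega

end OgW

theorem ogW_fr (p : MvPolynomial (Fin 3) ℂ) : OgW α β 0 (fr p) := by
  rw [← jo_io]
  exact ogW_jo_iff.2 (wge_io p)

/-- A homogeneous polynomial which does not vanish at `(1 : 0 : 0)` is a unit for orders. -/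
theorem ogW_inv {e : MvPolynomial (Fin 3) ℂ} {k : ℕ} (he : e.IsHomogeneous k)
    (he0 : eval (Pi.single 0 1) e ≠ 0) : OgW α β 0 (fr e)⁻¹ := by
  have hne : e ≠ 0 := by
    rintro rfl
    exact he0 (map_zero _)
  refine ⟨0, 1, e, ?_, wge_io e, ?_, ?_⟩
  · exact (wge_io 1).mono (by omega)
  · intro h
    have h1 := congrArg (OB.cf (OB.toZ (Finsupp.single 0 k))) h
    have h2 : wl α β (OB.toZ (Finsupp.single 0 k)) = 0 := by
      rw [wl_apply]
      simp [OB.toZ]
    rw [OB.cf_gc_of_eq h2, OB.cf_io, map_zero, ← JoAux.eval_single he] at h1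
    exact he0 h1
  · rw [map_one, inv_mul_cancel₀ (fr_ne_zero hne)]

/-- Approximation of functions with poles along `x_i = 0` and `e = 0`. -/
theorem approxW (hα : 0 < α) (hβ : 0 < β) {e : MvPolynomial (Fin 3) ℂ} {k : ℕ}
    (he : e.IsHomogeneous k) (he0 : eval (Pi.single 0 1) e ≠ 0) {w : Kf} {κ : ℤ} (hw : Hk κ w)
    (i : Fin 3) (hr : ∀ q, eval q (X i * e) ≠ 0 → RegAt q w) (L : ℕ) :
    ∃ a : La, (∀ j, j ≠ 0 → j ≠ i → Reg j a) ∧ Hm td κ a ∧ OgW α β L (w - jo a) := by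
  obtain ⟨N, a, ha⟩ := exists_pow hr
  have heN : (e ^ N).IsHomogeneous (k * N) := he.pow N
  have heN0 : eval (Pi.single 0 1) (e ^ N) ≠ 0 := by
    rw [map_pow]
    exact pow_ne_zero _ he0
  have heN1 : fr (e ^ N) ≠ 0 := by
    apply fr_ne_zero
    intro h
    rw [h, map_zero] at heN0
    exact heN0 rfl
  obtain ⟨E, hE1, hE2, hE3, hE4⟩ := OK.exists_inv heN heN0 (L + N * (α + β))
  have haH : Hm td (κ + ((1 + k) * N : ℕ)) (io a) := by
    apply hm_of_hk_jo
    rw [jo_io, ← ha]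
    exact hw.mul (Hk.fr (((isHomogeneous_X ℂ i).mul he).pow N))
  have hE5 : Ge (wl α β) ((L + N * (α + β) : ℕ) : ℤ) (io (e ^ N) * E - 1) := by
    intro m hm
    have h1 : ((L + N * (α + β) : ℕ) : ℤ) ≤ m 1 + m 2 := hE4 m hm
    have r1 : Reg 1 (io (e ^ N) * E - 1) := ((OB.Reg.io 1 _).mul hE1).sub (ApxAux.reg_one 1)
    have r2 : Reg 2 (io (e ^ N) * E - 1) := ((OB.Reg.io 2 _).mul hE2).sub (ApxAux.reg_one 2)
    have h2 : 0 ≤ m 1 := r1 m hm
    have h3 : 0 ≤ m 2 := r2 m hm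
    have hα' : (1 : ℤ) ≤ α := by exact_mod_cast hα
    have hβ' : (1 : ℤ) ≤ β := by exact_mod_cast hβ
    rw [wl_apply]
    nlinarith
  refine ⟨io a * E * sg (-(N • ex i)) 1, ?_, ?_, ?_⟩
  · intro j hj hji
    have h1 : Reg j E := by
      fin_cases j
      · exact absurd rfl hj
      · exact hE1
      · exact hE2
    refine ((OB.Reg.io j a).mul h1).mul (OB.Reg.sg ?_ _)
    rw [Pi.neg_apply, Pi.smul_apply, OB.ex_ne hji]
    simp
  · have h1 : Hm td (-(N : ℤ)) (sg (-(N • ex i)) 1) :=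
      OB.Hm.sg (by rw [map_neg, map_nsmul, OB.td_ex]; simp) _
    have h2 := (haH.mul hE3).mul h1
    have h3 : κ + ((1 + k) * N : ℕ) + -((k * N : ℕ) : ℤ) + -(N : ℤ) = κ := by
      push_cast
      ring
    rwa [h3] at h2
  · have e1 : w = fr a * jo (sg (-(N • ex i)) 1) * (fr (e ^ N))⁻¹ := by
      have h1 := ApxAux.jo_sg_mul i N
      rw [← ha, mul_pow, map_mul]
      calc w = w * (jo (sg (-(N • ex i)) 1) * fr (X i ^ N)) * (fr (e ^ N) * (fr (e ^ N))⁻¹) := by
            rw [h1, mul_inv_cancel₀ heN1, mul_one, mul_one]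
        _ = _ := by ring
    have e2 : w - jo (io a * E * sg (-(N • ex i)) 1) =
        jo (io a * sg (-(N • ex i)) 1) * (fr (e ^ N))⁻¹ * -jo (io (e ^ N) * E - 1) := by
      have h2 : jo (io (e ^ N) * E - 1) = fr (e ^ N) * jo E - 1 := by
        rw [map_sub, map_mul, jo_io, map_one]
      rw [h2, map_mul, map_mul, map_mul, jo_io]
      have h3 : (fr (e ^ N))⁻¹ * -(fr (e ^ N) * jo E - 1) = (fr (e ^ N))⁻¹ - jo E := by
        field_simp
        ring
      rw [mul_assoc _ (fr (e ^ N))⁻¹, h3]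
      conv_lhs => rw [e1]
      ring
    rw [e2]
    have h4 : Ge (wl α β) (-((N * (α + β) : ℕ) : ℤ)) (io a * sg (-(N • ex i)) 1) := by
      have h5 : Ge (wl α β) (-((N * (α + β) : ℕ) : ℤ)) (sg (-(N • ex i)) 1) := by
        refine OB.Ge.sg ?_ 1
        rw [map_neg, map_nsmul]
        have : wl α β (ex i) ≤ α + β := by
          fin_cases i
          · show wl α β (ex 0) ≤ α + β
            rw [wl_ex0]
            positivity
          · show wl α β (ex 1) ≤ α + β
            rw [wl_ex1]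
            omega
          · show wl α β (ex 2) ≤ α + β
            rw [wl_ex2]
            omega
        push_cast
        rw [nsmul_eq_mul, neg_le_neg_iff]
        exact mul_le_mul_of_nonneg_left this (by positivity)
      have := (wge_io a).mul h5
      rwa [zero_add] at this
    have h6 := ((ogW_jo_iff.2 h4).mul (ogW_inv heN heN0)).mul (ogW_jo_iff.2 hE5).neg
    exact h6.mono (by push_cast; omega)

end MPb07157.O3
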