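import Pool.Agent.Lib.MP_b07157_agO3.G1
import Pool.Agent.Lib.MP_b07157_agO3.G2
import Pool.Agent.Lib.MP_b07157_agO3.LA

/-!
# The root `-3/d` for curves with semi-quasi-homogeneous points
-/

noncomputable section

namespace MPb07157

open MvPolynomial MPb07157Q

namespace O3

open MPb07157.OK

theorem tay_C_mul (L : Loc) (c : ℂ) (F : MvPolynomial (Fin 3) ℂ) :
    L.tay (C c * F) = C c * L.tay F := by
  show Tay _ _ _ _ _ = _ * Tay _ _ _ _ _
  unfold Tay
  rw [map_mul, MvPolynomial.algHom_C, MvPolynomial.algebraMap_eq]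

theorem wge_C_mul {a b K : ℕ} {G : MvPolynomial (Fin 2) ℂ} {c : ℂ} (hc : c ≠ 0)
    (h : WGe a b K (C c * G)) : WGe a b K G := by
  intro m hm
  refine h m ?_
  rw [coeff_C_mul]
  exact mul_ne_zero hc hm

theorem wpart_C_mul {a b K : ℕ} {G : MvPolynomial (Fin 2) ℂ} {c : ℂ} (hc : c ≠ 0) :
    WPart a b K (C c * G) = C c * WPart a b K G := by
  unfold WPart
  have hs : (C c * G).support = G.support := by
    ext m
    rw [mem_support_iff, mem_support_iff, coeff_C_mul]
    constructor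
    · intro h1 h2
      exact h1 (by rw [h2, mul_zero])
    · intro h1
      exact mul_ne_zero hc h1
  rw [hs, Finset.mul_sum]
  refine Finset.sum_congr rfl fun m _ => ?_
  rw [coeff_C_mul, C_mul_monomial]

/-- Scaling the equation. -/
theorem sqh_of_C_mul {L : Loc} {G : MvPolynomial (Fin 3) ℂ} {c : ℂ} (hc : c ≠ 0)
    (h : L.Sqh (C c * G)) : L.Sqh G where
  ind := h.ind
  ha := h.ha
  hb := h.hb
  hN := h.hN
  hφ := h.hφ
  ge := by
    have h1 := h.ge
    rw [tay_C_mul] at h1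
    exact wge_C_mul hc h1
  sq := by
    have h1 := h.sq
    rw [tay_C_mul, wpart_C_mul hc] at h1
    exact Squarefree.squarefree_of_dvd ⟨C c, mul_comm _ _⟩ h1

/-- Subfamilies of independent families. -/
theorem IndepW.comp {r r' n : ℕ} {L : Fin r' → Loc} (h : IndepW L n) {φ : Fin r → Fin r'}
    (hφ : Function.Injective φ) : IndepW (fun j => L (φ j)) n := by
  classical
  intro c
  obtain ⟨τ, h1, h2⟩ := h fun i m => if hi : ∃ j, φ j = i then c hi.choose m else 0
  refine ⟨τ, h1, fun j m hm => ?_⟩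
  rw [h2 (φ j) m hm]
  have hi : ∃ j', φ j' = φ j := ⟨j, rfl⟩
  rw [dif_pos hi, hφ hi.choose_spec]

end O3

/-- (M) The root `-3/d` for these curves. -/
theorem root_of_sqhIndep {f : MvPolynomial (Fin 3) ℂ} (hf : f ≠ 0) {d : ℕ} (hd : 0 < d)
    (hh : f.IsHomogeneous d) (hNS : NS f) (h : SqhIndep f) {b : Polynomial ℂ}
    (hb : IsBernsteinSato f b) : b.eval (((-(3 / d) : ℚ)) : ℂ) = 0 := by
  classical
  obtain ⟨F, k, n', r', L', hs, hF1, hF2, hFn, hSq, hInd, hpts⟩ := h
  obtain ⟨l, g, m, hfact⟩ := exists_isFact hf hd hh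
  obtain ⟨n, hD⟩ := OB.dat_of_isFact hfact hd hh
  obtain ⟨c0, hc0, hFc⟩ := OB.eq_of_squarefree hfact hs hF1 hF2
  have hF0 : F ≠ 0 := hs.ne_zero
  have hnn : n' = n := by
    have h1 : F.IsHomogeneous n := by
      rw [hFc]
      exact (hD.hP).C_mul c0
    exact hFn.inj_right h1 hF0
  subst hnn
  obtain ⟨r, p, hp0, hpp, hbad, hq⟩ := OK.exists_bad hfact hd hh
  have hform := OB.form_of_bs hb
  rcases Nat.eq_zero_or_pos r with hr | hr
  · subst hr
    exact root_of_qh hfact hd hh (fun q hq0 h0 => hq q ⟨hq0, fun j => j.elim0⟩ h0) hNS b hform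
  · have ho : ∀ j, ∃ (i : Fin r') (c : ℂ), p j = c • (L' i).p := fun j => by
      rcases hpts (p j) (hp0 j) (hbad j).1 with h1 | h1
      · exact absurd (qhat_of_isWHAt hd hh (hp0 j) h1) (hbad j).2
      · exact h1
    choose ι c hc using ho
    have hcne : ∀ j, c j ≠ 0 := by
      intro j h0
      apply hp0 j
      rw [hc j, h0, zero_smul]
    have hb0 : ∀ j, (L' (ι j)).p ≠ 0 := by
      intro j h0
      apply hp0 j
      rw [hc j, h0, smul_zero]
    have hbb : ∀ i j, i ≠ j → ∀ a : ℂ, (L' (ι i)).p ≠ a • (L' (ι j)).p := by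
      intro i j hij a ha
      refine hpp i j hij (c i * a * (c j)⁻¹) ?_
      rw [hc i, ha, hc j, smul_smul, smul_smul]
      congr 1
      rw [mul_assoc, inv_mul_cancel₀ (hcne j), mul_one]
    have hinj : Function.Injective ι := by
      intro i j hij
      by_contra hne
      refine hbb i j hne 1 ?_
      rw [hij, one_smul]
    have hoff : ∀ q, OK.OffB (fun j => (L' (ι j)).p) q → OK.OffB p q := by
      intro q hq1
      refine ⟨hq1.1, fun j a ha => hq1.2 j (a * c j) ?_⟩
      rw [ha, hc j, smul_smul]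
    have key : ∀ G : MvPolynomial (Fin 3) (MvPolynomial (Fin 3) ℂ),
        (∀ q : ℕ, Psi ((f : MvPowerSeries (Fin 3) ℂ) ^ q) G = 0) → cc G = 0 := by
      intro G hG
      by_contra hcc
      obtain ⟨t, Sec, hS, hR⟩ := OK.totK' hD (fun q h1 h2 => hq q (hoff q h1) h2) hb0 G hG
      have hcn : -(cc G) ≠ 0 := neg_ne_zero.2 hcc
      have hSq' : ∀ j, (L' (ι j)).Sqh (∏ i, g i) := fun j => by
        refine O3.sqh_of_C_mul hc0 ?_
        rw [← hFc]
        exact hSq (ι j)
      obtain ⟨β, hβ⟩ := O3.glob_one (J := fun j k σ => O3.JJ (L' (ι j)) k σ) hS hb0 hbb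
        (fun j k σ _ hJ => O3.loc_an hfact hD hb0 hbb hcn hS hR j rfl (hSq' j) hJ)
        (fun j => O3.jj_of_mu (L' (ι j)) (hSq (ι j)).ind ⟨(hSq (ι j)).ha, (hSq (ι j)).hb⟩
          (hSq (ι j)).hφ)
        (O3.interp (L := fun j => L' (ι j)) (fun j => (hSq (ι j)).ind)
          (fun j => ⟨(hSq (ι j)).ha, (hSq (ι j)).hb⟩) (fun j => (hSq (ι j)).hφ)
          (O3.IndepW.comp hInd hinj))
      exact hcn (OK.c_eq_zero hD hb0 hS hNS hβ)
    have := OB.root_of_key hf hd hh key b hform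
    rw [← this]
    congr 1
    push_cast
    ring

/-- The strong monodromy conjecture at `-3/d` for these curves. -/
theorem smc_sqhIndep {f : MvPolynomial (Fin 3) ℂ} (hf : f ≠ 0) {d : ℕ} (hd : 0 < d)
    (hh : f.IsHomogeneous d) (h : SqhIndep f)
    (hp : IsPole (Zmot f) (-(3 / d)) ∨ IsPole (Zmot0 f) (-(3 / d))) {b : Polynomial ℂ}
    (hb : IsBernsteinSato f b) : b.eval (((-(3 / d) : ℚ)) : ℂ) = 0 := by
  by_cases hNS : NS f
  · exact root_of_sqhIndep hf hd hh hNS h hb
  · have h0 : coeff 0 f = 0 := by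
      rw [← MvPolynomial.notMem_support_iff]
      intro h
      have := hh (mem_support_iff.1 h)
      simp at this
      omega
    have hs : (-(3 / d) : ℚ) < 0 := by
      have : (0 : ℚ) < d := by exact_mod_cast hd
      have : (0 : ℚ) < 3 / d := by positivity
      linarith
    obtain ⟨h1, h2⟩ := stable_of_not_NS hf hd hh hNS
    rcases hp with hp | hp
    · exact SmcGlob.of_stableGlob h2 hf _ hs hp b hb
    · exact SmcLoc.of_stableLoc h1 hf h0 _ hs hp b (OB.form_of_bs hb)

end MPb07157
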