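import Pool.Agent.Lib.MP_b07157_agB3.PDefs

/-!
# Curves with semi-quasi-homogeneous points: definitions
-/

noncomputable section

namespace MPb07157

open MvPolynomial

/-- The equation in the local coordinates `y`, `z` at the point `p`:
`F (p + y u + (z + φ(y)) w)`. -/
def Tay (p u w : Fin 3 → ℂ) (φ : Polynomial ℂ) (F : MvPolynomial (Fin 3) ℂ) :
    MvPolynomial (Fin 2) ℂ :=
  aeval (fun i => C (p i) + C (u i) * X 0 + C (w i) * (X 1 + Polynomial.aeval (X 0) φ)) F

/-- All monomials of `G` have weight at least `K` (the variables have weights `a`, `b`). -/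
def WGe (a b K : ℕ) (G : MvPolynomial (Fin 2) ℂ) : Prop :=
  ∀ m, coeff m G ≠ 0 → K ≤ a * m 0 + b * m 1

/-- The part of weight `K`. -/
def WPart (a b K : ℕ) (G : MvPolynomial (Fin 2) ℂ) : MvPolynomial (Fin 2) ℂ :=
  ∑ m ∈ G.support.filter (fun m => a * m 0 + b * m 1 = K), monomial m (coeff m G)

/-- Local coordinates and weights at a point. -/
structure Loc where
  /-- The point. -/
  p : Fin 3 → ℂ
  /-- The direction of the first coordinate. -/
  u : Fin 3 → ℂ
  /-- The direction of the second coordinate. -/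
  w : Fin 3 → ℂ
  /-- The curve `z = φ(y)`. -/
  φ : Polynomial ℂ
  /-- The weight of the first coordinate. -/
  a : ℕ
  /-- The weight of the second coordinate. -/
  b : ℕ
  /-- The weight of the equation. -/
  N : ℕ

namespace Loc

/-- The local expression of a form. -/
abbrev tay (L : Loc) (F : MvPolynomial (Fin 3) ℂ) : MvPolynomial (Fin 2) ℂ :=
  Tay L.p L.u L.w L.φ F

/-- In these coordinates `F` is semi-quasi-homogeneous: its initial form for the weights `a`, `b`
has weight `N ≥ a + b` and is squarefree. -/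
structure Sqh (L : Loc) (F : MvPolynomial (Fin 3) ℂ) : Prop where
  ind : LinearIndependent ℂ ![L.p, L.u, L.w]
  ha : 0 < L.a
  hb : 0 < L.b
  hN : L.a + L.b ≤ L.N
  hφ : L.φ.eval 0 = 0
  ge : WGe L.a L.b L.N (L.tay F)
  sq : Squarefree (WPart L.a L.b L.N (L.tay F))

end Loc

/-- The conditions of weight less than `N - 2 a - 2 b` at the points `L j` are independent on the
forms of degree `n - 6` whose multiplicity at every other ordinary multiple point which is not
quasi-homogeneous is at least that of the reduced equation `F` minus 4. -/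
def IndepO {r : ℕ} (f F : MvPolynomial (Fin 3) ℂ) (L : Fin r → Loc) (n : ℕ) : Prop :=
  ∀ c : Fin r → (Fin 2 →₀ ℕ) → ℂ, ∃ τ : MvPolynomial (Fin 3) ℂ,
    (τ = 0 ∨ 6 ≤ n ∧ τ.IsHomogeneous (n - 6)) ∧
    (∀ j m, (L j).a * m 0 + (L j).b * m 1 + 2 * ((L j).a + (L j).b) < (L j).N →
      coeff m ((L j).tay τ) = c j m) ∧
    ∀ q, q ≠ 0 → ¬ IsWHAt f q → OrdPt f q → (∀ j (c : ℂ), q ≠ c • (L j).p) →
      ∀ μ, (∀ i < μ, homogeneousComponent i (translate q F) = 0) →
        ∀ i < μ - 4, homogeneousComponent i (translate q τ) = 0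

/-- Every point of the curve is quasi-homogeneous, or an ordinary multiple point of the reduced
curve, or one of finitely many points, in which the reduced curve (with equation `F`, of degree
`n`) is semi-quasi-homogeneous and the conditions of `IndepO` are independent. -/
def SqhOrd (f : MvPolynomial (Fin 3) ℂ) : Prop :=
  ∃ (F : MvPolynomial (Fin 3) ℂ) (k n r : ℕ) (L : Fin r → Loc), Squarefree F ∧ F ∣ f ∧ f ∣ F ^ k ∧
    F.IsHomogeneous n ∧ (∀ j, (L j).Sqh F) ∧ IndepO f F L n ∧
    ∀ q, q ≠ 0 → eval q f = 0 →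
      IsWHAt f q ∨ OrdPt f q ∨ ∃ (j : Fin r) (c : ℂ), q = c • (L j).p

end MPb07157
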