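import Pool.Agent.Lib.MP_b07157_agO3.CH
import Pool.Agent.Lib.MP_b07157_agB3.TrKR

/-!
# The local lemma at an arbitrary semi-quasi-homogeneous point
-/

noncomputable section

namespace MPb07157.O3

open MvPolynomial MPb07157Q
open MPb07157.OK
open MPb07157.OB (Dat)

namespace TGAux

open MPb07157.OK.TrAux
open MPb07157.OB.LinAux (sub sub_X sub_C sub_sub eval_subst homog_sub pderiv_sub sum_inv sum_inv'
  sum_row homogComp_sub translate_sub squarefree_equiv)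

variable {p q : Fin 3 → Fin 3 → ℂ} {D : ℂ}

theorem exists_mat_loc {a b c : Fin 3 → ℂ} (h : LinearIndependent ℂ ![a, b, c]) :
    ∃ (q : Fin 3 → Fin 3 → ℂ) (D : ℂ), Mat ![a, b, c] q D := by
  have h1 : IsUnit (Matrix.of ![a, b, c]) := by
    rw [← Matrix.linearIndependent_rows_iff_isUnit]
    exact h
  have h2 : (Matrix.of ![a, b, c]).det ≠ 0 :=
    ((Matrix.isUnit_iff_isUnit_det _).1 h1).ne_zero
  obtain ⟨q, hq⟩ := mat_of_det ![a, b, c] _ h2 (Matrix.det_fin_three _)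
  exact ⟨q, _, hq⟩

theorem tay_sub (a b c : Fin 3 → ℂ) (φ : Polynomial ℂ) (F : MvPolynomial (Fin 3) ℂ) :
    Tay0 φ (sub ![a, b, c] F) = Tay a b c φ F := by
  have h : (aeval (fun i => C ((Pi.single 0 1 : Fin 3 → ℂ) i) +
      C ((Pi.single 1 1 : Fin 3 → ℂ) i) * X 0 + C ((Pi.single 2 1 : Fin 3 → ℂ) i) *
        (X 1 + Polynomial.aeval (X 0) φ)) :
        MvPolynomial (Fin 3) ℂ →ₐ[ℂ] MvPolynomial (Fin 2) ℂ).comp (sub ![a, b, c]) =
      aeval (fun i => C (a i) + C (b i) * X 0 + C (c i) *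
        (X 1 + Polynomial.aeval (X 0) φ)) := by
    apply MvPolynomial.algHom_ext
    intro j
    rw [AlgHom.comp_apply, sub_X, aeval_X, map_sum, Fin.sum_univ_three]
    simp
  exact congrArg (fun F' : MvPolynomial (Fin 3) ℂ →ₐ[ℂ] MvPolynomial (Fin 2) ℂ => F' F) h

theorem lh_gen (M : Mat p q D) {f : MvPolynomial (Fin 3) ℂ} {v v' : Fin 3 → MvPolynomial (Fin 3) ℂ}
    {n : ℕ} {Y Z E : MvPolynomial (Fin 3) ℂ} {c : ℂ} {t₁ t₂ : Fin 3 → Kf} {G : Kf}
    (hv : ∀ i, v' i = ∑ l, C (p i l) * eqv M (v l))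
    (H : LH f v n ((eqv M).symm Y) ((eqv M).symm Z) E c t₁ t₂ G) :
    LH (eqv M f) v' n Y Z (eqv M E) c (vf M t₁) (vf M t₂)
      (algebraMap ℂ Kf D⁻¹ * phi M G) := by
  have e1 : ∀ x, eval x (Y * eqv M E) = eval (pt p x) ((eqv M).symm Y * E) := fun x => by
    rw [map_mul, map_mul, eval_symm, eval_eqv]
  have e2 : ∀ x, eval x (Z * eqv M E) = eval (pt p x) ((eqv M).symm Z * E) := fun x => by
    rw [map_mul, map_mul, eval_symm, eval_eqv]
  have e3 : ∀ x, eval x (Y * Z * eqv M E) =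
      eval (pt p x) ((eqv M).symm Y * (eqv M).symm Z * E) := fun x => by
    rw [map_mul, map_mul, map_mul, map_mul, eval_symm, eval_symm, eval_eqv]
  refine ⟨fun x hx k => ?_, fun x hx k => ?_, fun x hx => ?_, fun k => vf_hk M H.e₁ k,
    fun k => vf_hk M H.e₂ k, hk_C_mul _ ((hk_phi M).2 H.eg), vf_kill M H.k₁, vf_kill M H.k₂, ?_,
    ?_, fun k => ?_⟩
  · rw [e1] at hx
    exact vf_reg M (H.r₁ _ hx) k
  · rw [e2] at hx
    exact vf_reg M (H.r₂ _ hx) k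
  · rw [e3] at hx
    exact (RegAt.const x _).mul ((regAt_phi M).2 (H.rg _ hx))
  · rw [vf_div, H.d₁, phi_C]
  · rw [vf_div, H.d₂, phi_C]
  · have h1 : vf M t₁ k - vf M t₂ k = vf M (cuK (fun j => G * fr (v j))) k := by
      unfold vf
      rw [← Finset.sum_sub_distrib]
      refine Finset.sum_congr rfl fun j _ => ?_
      rw [← mul_sub, ← map_sub, H.cu j]
    have h2 : (fun j => algebraMap ℂ Kf D⁻¹ *
        ∑ l, algebraMap ℂ Kf (p j l) * phi M (G * fr (v l))) =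
        fun j => algebraMap ℂ Kf D⁻¹ * phi M G * fr (v' j) := by
      funext j
      rw [hv, map_sum, mul_assoc, Finset.mul_sum (a := phi M G)]
      congr 1
      refine Finset.sum_congr rfl fun l _ => ?_
      rw [map_mul, map_mul, phi_fr, fr_C]
      ring
    rw [h1, vf_curl, h2]

theorem ks_back (M : Mat p q D) {n k : ℕ} {Y Z E σ : MvPolynomial (Fin 3) ℂ} {G : Kf}
    (H : KS n k Y Z (eqv M E) (eqv M σ) (algebraMap ℂ Kf D⁻¹ * phi M G)) :
    KS n k ((eqv M).symm Y) ((eqv M).symm Z) E σ G := by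
  obtain ⟨s, h1, h2, h3⟩ := H
  have e1 : ∀ x, eval x (Y * eqv M E) = eval (pt p x) ((eqv M).symm Y * E) := fun x => by
    rw [map_mul, map_mul, eval_symm, eval_eqv]
  have e2 : ∀ x, eval x (Z * eqv M E) = eval (pt p x) ((eqv M).symm Z * E) := fun x => by
    rw [map_mul, map_mul, eval_symm, eval_eqv]
  have hφ : ∀ u : Kf, phi M (algebraMap ℂ Kf D * (phi M).symm u) = algebraMap ℂ Kf D * u :=
    fun u => by rw [map_mul, phi_C, RingEquiv.apply_symm_apply]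
  have hD : algebraMap ℂ Kf D * algebraMap ℂ Kf D⁻¹ = 1 := by
    rw [← map_mul, mul_inv_cancel₀ M.D0, map_one]
  refine ⟨algebraMap ℂ Kf D * (phi M).symm s, ?_, ?_, ?_⟩
  · rw [← hk_phi M, hφ]
    exact hk_C_mul _ h1
  · intro y hy
    obtain ⟨x, rfl⟩ := exists_pt M y
    rw [← regAt_phi M, hφ]
    rw [← e1] at hy
    exact (RegAt.const x _).mul (h2 x hy)
  · intro y hy
    obtain ⟨x, rfl⟩ := exists_pt M y
    rw [← e2] at hy
    rw [← regAt_phi M, map_sub, map_mul, hφ, phi_fr]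
    have h4 : fr (eqv M σ) * phi M G - algebraMap ℂ Kf D * s = algebraMap ℂ Kf D *
        (fr (eqv M σ) * (algebraMap ℂ Kf D⁻¹ * phi M G) - s) := by
      linear_combination (-(fr (eqv M σ) * phi M G)) * hD
    rw [h4]
    exact (RegAt.const x _).mul (h3 x hy)

end TGAux

open MPb07157.OK.TrAux TGAux in
/-- The local lemma at a semi-quasi-homogeneous point. -/
theorem loc_gen {l : ℕ} {f : MvPolynomial (Fin 3) ℂ} {g : Fin l → MvPolynomial (Fin 3) ℂ}
    {m : Fin l → ℕ} {d n : ℕ} (hf : IsFact f g m) (h : Dat f (∏ j, g j) (vv g m) d n) {L : Loc}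
    (hL : L.Sqh (∏ j, g j)) :
    ∃ (x y z : MvPolynomial (Fin 3) ℂ) (mz : ℕ), x.IsHomogeneous 1 ∧ y.IsHomogeneous 1 ∧
      z.IsHomogeneous mz ∧ 0 < mz ∧ eval L.p x ≠ 0 ∧ eval L.p y = 0 ∧ eval L.p z = 0 ∧ y ≠ 0 ∧
      z ≠ 0 ∧ (∀ q, eval q x ≠ 0 → eval q y = 0 → eval q z = 0 → ∃ c : ℂ, q = c • L.p) ∧
      ∀ (e : MvPolynomial (Fin 3) ℂ) (κ : ℕ) (c : ℂ) (t₁ t₂ : Fin 3 → Kf) (G : Kf),
        e.IsHomogeneous κ → eval L.p e ≠ 0 → x ∣ e → c ≠ 0 →
        LH f (vv g m) n y z e c t₁ t₂ G → Res f x (y * e) t₁ → Res f x (z * e) t₂ →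
        ∀ (k : ℕ) (σ : MvPolynomial (Fin 3) ℂ), JJ L k σ → KS n k y z e σ G := by
  obtain ⟨q, D, M⟩ := exists_mat_loc hL.ind
  have hev : ∀ F : MvPolynomial (Fin 3) ℂ,
      eval L.p ((eqv M).symm F) = eval (Pi.single 0 1) F := fun F => by
    have h1 := eval_symm M F (Pi.single 0 1)
    rw [pt_single] at h1
    exact h1
  have hf' := isFact_eqv M hf
  obtain ⟨n', h'⟩ := MPb07157.OB.dat_of_isFact hf' h.hd (hom_eqv M h.hf)
  have hP : ∏ j, eqv M (g j) = eqv M (∏ j, g j) := (map_prod (eqv M) _ _).symm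
  have hnn : n' = n := by
    have h1 := h'.hP
    rw [hP] at h1
    have h2 : eqv M (∏ j, g j) ≠ 0 := (map_ne_zero_iff _ (eqv M).injective).2 h.P0
    exact h1.inj_right (hom_eqv M h.hP) h2
  subst hnn
  have htay : ∀ F, Tay0 L.φ (eqv M F) = L.tay F := fun F => tay_sub L.p L.u L.w L.φ F
  have hge : WGe L.a L.b L.N (Tay0 L.φ (∏ j, eqv M (g j))) := by
    rw [hP, htay]
    exact hL.ge
  have hsq : Squarefree (WPart L.a L.b L.N (Tay0 L.φ (∏ j, eqv M (g j)))) := by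
    rw [hP, htay]
    exact hL.sq
  refine ⟨(eqv M).symm (X 0), (eqv M).symm (X 1), (eqv M).symm (zn L.φ), L.φ.natDegree + 1,
    hom_symm M (isHomogeneous_X ℂ 0), hom_symm M (isHomogeneous_X ℂ 1), hom_symm M (zn_hom L.φ),
    Nat.succ_pos _, ?_, ?_, ?_, ?_, ?_, fun y h1 h2 h3 => ?_, ?_⟩
  · rw [hev, eval_X, Pi.single_eq_same]
    exact one_ne_zero
  · rw [hev, eval_X]
    rfl
  · have h1 : (Pi.single 0 1 : Fin 3 → ℂ) 0 ≠ 0 := by
      rw [Pi.single_eq_same]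
      exact one_ne_zero
    have h2 : (Pi.single 0 1 : Fin 3 → ℂ) 2 = 0 := rfl
    have h3 : (Pi.single 0 1 : Fin 3 → ℂ) 1 = 0 := rfl
    rw [hev, eval_zn L.φ h1, h2, h3, zero_div, hL.hφ]
    ring
  · exact (map_ne_zero_iff _ (eqv M).symm.injective).2 (X_ne_zero 1)
  · exact (map_ne_zero_iff _ (eqv M).symm.injective).2 (zn_ne L.φ)
  · obtain ⟨x, rfl⟩ := exists_pt M y
    rw [eval_symm, eval_X] at h1 h2
    rw [eval_symm, eval_zn L.φ h1, h2, zero_div, hL.hφ, mul_zero, sub_zero] at h3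
    have h4 : x 2 = 0 := (mul_eq_zero.1 h3).resolve_left (pow_ne_zero _ h1)
    refine ⟨x 0, ?_⟩
    unfold pt
    rw [Fin.sum_univ_three, h2, h4, zero_smul, zero_smul, add_zero, add_zero]
    rfl
  · intro e κ c t₁ t₂ G he he0 hx hc H R₁ R₂ k σ hσ
    refine ks_back M (loc_ch hf' h' hL.hφ hL.ha hL.hb hL.hN hge hsq (hom_eqv M he) ?_ ?_ hc
      (lh_gen M (fun i => vv_eqv M g m i) H) ?_ ?_ (hom_eqv M hσ.1) ?_)
    · rw [eval_eqv, pt_single]
      exact he0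
    · have h1 := map_dvd (eqv M) hx
      rwa [AlgEquiv.apply_symm_apply] at h1
    · have h1 := res_eqv M R₁
      rwa [map_mul, AlgEquiv.apply_symm_apply, AlgEquiv.apply_symm_apply] at h1
    · have h1 := res_eqv M R₂
      rwa [map_mul, AlgEquiv.apply_symm_apply, AlgEquiv.apply_symm_apply] at h1
    · rw [htay]
      exact hσ.2

end MPb07157.O3
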