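import Pool.Agent.Lib.MP_b07157_agO3.CD

/-!
# Coprimality of the lowest parts with weights
-/

noncomputable section

namespace MPb07157.O3

open MvPolynomial
open MPb07157.OB (La sg ex io td co D Hm Ge Reg gc Dat)

namespace VSb

/-! ### Polynomials -/

section Pol

variable {i : Fin 3} {F₀ R₀ f₀ a b : MvPolynomial (Fin 3) ℂ}

theorem dvd_of (hF0 : F₀ ≠ 0) (H : ∀ q, Prime q → q ∣ F₀ → q ∣ a → q ∣ b → q ∣ X i) :
    ∃ s : ℕ, ∀ δ : MvPolynomial (Fin 3) ℂ, F₀ ∣ a * δ → F₀ ∣ b * δ → F₀ ∣ X i ^ s * δ := by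
  classical
  let _ : GCDMonoid (MvPolynomial (Fin 3) ℂ) :=
    UniqueFactorizationMonoid.toGCDMonoid _
  obtain ⟨s, hs'⟩ := OB.OrdB.exists_pow (i := i) (gcd F₀ (gcd a b)) (by
    intro h
    exact hF0 ((gcd_eq_zero_iff _ _).1 h).1) (by
    intro q hq hqg
    exact H q hq (hqg.trans (gcd_dvd_left _ _))
      ((hqg.trans (gcd_dvd_right _ _)).trans (gcd_dvd_left _ _))
      ((hqg.trans (gcd_dvd_right _ _)).trans (gcd_dvd_right _ _)))
  refine ⟨s, fun δ h1 h2 => ?_⟩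
  have h3 : F₀ ∣ gcd F₀ (gcd a b) * δ := by
    have e1 : F₀ ∣ gcd (F₀ * δ) (gcd a b * δ) := by
      apply dvd_gcd (dvd_mul_right _ _)
      have e2 : F₀ ∣ gcd (a * δ) (b * δ) := dvd_gcd h1 h2
      exact e2.trans (gcd_mul_right' _ _ _).dvd
    exact e1.trans (gcd_mul_right' _ _ _).dvd
  exact h3.trans (mul_dvd_mul_right hs' δ)

theorem cop_of (hd : ∃ s : ℕ, ∀ δ : MvPolynomial (Fin 3) ℂ, F₀ ∣ a * δ → F₀ ∣ b * δ →
    F₀ ∣ X i ^ s * δ) : OB.Cop i (io F₀) (io a) (io b) := by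
  obtain ⟨s, hdvd⟩ := hd
  intro j hji δ hδ ⟨u₁, hu₁, e₁⟩ ⟨u₂, hu₂, e₂⟩
  obtain ⟨N₀, h0⟩ := OB.exists_clear j hδ
  obtain ⟨N₁, h1⟩ := OB.exists_clear j hu₁
  obtain ⟨N₂, h2⟩ := OB.exists_clear j hu₂
  set N := max N₀ (max N₁ N₂) with hN
  obtain ⟨δ', hδ'⟩ := h0 N (le_max_left _ _)
  obtain ⟨v₁, hv₁⟩ := h1 N ((le_max_left _ _).trans (le_max_right _ _))
  obtain ⟨v₂, hv₂⟩ := h2 N ((le_max_right _ _).trans (le_max_right _ _))
  have c1 : a * δ' = F₀ * v₁ := by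
    apply OB.io_injective
    rw [map_mul, map_mul, ← hδ', ← hv₁]
    linear_combination io ((X (j + 1) * X (j + 2)) ^ N) * e₁
  have c2 : b * δ' = F₀ * v₂ := by
    apply OB.io_injective
    rw [map_mul, map_mul, ← hδ', ← hv₂]
    linear_combination io ((X (j + 1) * X (j + 2)) ^ N) * e₂
  obtain ⟨w, hw⟩ := hdvd δ' ⟨v₁, c1⟩ ⟨v₂, c2⟩
  obtain ⟨e, he, he'⟩ := OB.io_XX_isUnit j N
  have hx : io (X i ^ s) * sg (-(s • ex i)) 1 = 1 := by
    rw [map_pow, OB.io_X, OB.sg_pow, OB.sg_mul_sg, add_neg_cancel, one_pow, one_mul, OB.one_eq_sg]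
  refine ⟨e * sg (-(s • ex i)) 1 * io w, (he.mul (Reg.sg ?_ 1)).mul (Reg.io j w), ?_⟩
  · simp [OB.ex_ne hji]
  · have h3 := congrArg io hw
    rw [map_mul, map_mul, ← hδ'] at h3
    calc δ = (io ((X (j + 1) * X (j + 2)) ^ N) * e) * (io (X i ^ s) * sg (-(s • ex i)) 1) * δ := by
          rw [he', hx, one_mul, one_mul]
      _ = (io (X i ^ s) * (io ((X (j + 1) * X (j + 2)) ^ N) * δ)) * (e * sg (-(s • ex i)) 1) := by
          ring
      _ = _ := by rw [h3]; ring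

end Pol

/-! ### Setting `x = 1` -/

/-- The exponents of `y`, `z`. -/
def red (m : Fin 3 →₀ ℕ) : Fin 2 →₀ ℕ := Finsupp.single 0 (m 1) + Finsupp.single 1 (m 2)

theorem red_zero (m : Fin 3 →₀ ℕ) : red m 0 = m 1 := by
  simp [red]

theorem red_one (m : Fin 3 →₀ ℕ) : red m 1 = m 2 := by
  simp [red]

/-- `x = 1`. -/
def dh : MvPolynomial (Fin 3) ℂ →ₐ[ℂ] MvPolynomial (Fin 2) ℂ := aeval ![1, X 0, X 1]

theorem dh_monomial (m : Fin 3 →₀ ℕ) (c : ℂ) : dh (monomial m c) = monomial (red m) c := by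
  unfold dh red
  rw [aeval_monomial, Finsupp.prod_fintype _ _ (fun i => pow_zero _), Fin.prod_univ_three,
    monomial_single_add, ← C_mul_X_pow_eq_monomial, algebraMap_eq]
  show C c * (1 ^ m 0 * X 0 ^ m 1 * X 1 ^ m 2) = _
  rw [one_pow]
  ring

theorem dh_eq (q : MvPolynomial (Fin 3) ℂ) :
    dh q = ∑ v ∈ q.support, monomial (red v) (coeff v q) := by
  conv_lhs => rw [q.as_sum]
  rw [map_sum]
  exact Finset.sum_congr rfl fun v _ => dh_monomial _ _

theorem deg_of_mem {q : MvPolynomial (Fin 3) ℂ} {e : ℕ} (hq : q.IsHomogeneous e)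
    {v : Fin 3 →₀ ℕ} (hv : coeff v q ≠ 0) : v 0 + v 1 + v 2 = e := by
  by_contra hcon
  apply hv
  apply hq.coeff_eq_zero
  rw [Finsupp.degree_eq_sum, Fin.sum_univ_three]
  exact hcon

theorem coeff_dh {q : MvPolynomial (Fin 3) ℂ} {e : ℕ} (hq : q.IsHomogeneous e)
    {m : Fin 3 →₀ ℕ} (hm : m 0 + m 1 + m 2 = e) : coeff (red m) (dh q) = coeff m q := by
  classical
  rw [dh_eq, coeff_sum]
  simp only [coeff_monomial]
  rw [Finset.sum_eq_single m]
  · rw [if_pos rfl]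
  · intro v hv hne
    rw [if_neg]
    intro h
    apply hne
    have hv' := deg_of_mem hq (mem_support_iff.1 hv)
    have h1 : v 1 = m 1 := by rw [← red_zero v, ← red_zero m, h]
    have h2 : v 2 = m 2 := by rw [← red_one v, ← red_one m, h]
    ext j
    fin_cases j
    · show v 0 = m 0
      omega
    · exact h1
    · exact h2
  · intro hm'
    rw [if_pos rfl]
    exact notMem_support_iff.1 hm'

theorem coeff_dh_zero {q : MvPolynomial (Fin 3) ℂ} {e : ℕ} (hq : q.IsHomogeneous e)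
    {m : Fin 2 →₀ ℕ} (hm : e < m 0 + m 1) : coeff m (dh q) = 0 := by
  classical
  rw [dh_eq, coeff_sum]
  simp only [coeff_monomial]
  apply Finset.sum_eq_zero
  intro v hv
  rw [if_neg]
  intro h
  have hv' := deg_of_mem hq (mem_support_iff.1 hv)
  rw [← h, red_zero, red_one] at hm
  omega

/-- A homogeneous prime which is a multiple of a power of `x`. -/
theorem dvd_X {q : MvPolynomial (Fin 3) ℂ} {e : ℕ} (hq : Prime q) (hh : q.IsHomogeneous e)
    (h : ∀ m, coeff m q ≠ 0 → m 1 = 0 ∧ m 2 = 0) : q ∣ X 0 := by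
  have h1 : q = monomial (Finsupp.single 0 e) (coeff (Finsupp.single 0 e) q) := by
    ext m
    rw [coeff_monomial]
    by_cases hm : Finsupp.single 0 e = m
    · rw [if_pos hm, hm]
    · rw [if_neg hm]
      by_contra hcon
      apply hm
      obtain ⟨h2, h3⟩ := h m hcon
      have h4 := deg_of_mem hh hcon
      ext j
      fin_cases j
      · show Finsupp.single (0 : Fin 3) e 0 = m 0
        rw [Finsupp.single_eq_same]
        omega
      · show Finsupp.single (0 : Fin 3) e 1 = m 1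
        rw [h2, Finsupp.single_eq_of_ne (by decide)]
      · show Finsupp.single (0 : Fin 3) e 2 = m 2
        rw [h3, Finsupp.single_eq_of_ne (by decide)]
  set c := coeff (Finsupp.single 0 e) q with hc
  have hc0 : c ≠ 0 := by
    intro h0
    rw [h0, map_zero] at h1
    exact hq.ne_zero h1
  rw [← C_mul_X_pow_eq_monomial] at h1
  have h2 : q ∣ X 0 ^ e := by
    refine ⟨C c⁻¹, ?_⟩
    rw [h1, mul_right_comm, ← C_mul, mul_inv_cancel₀ hc0, C_1, one_mul]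
  exact hq.dvd_of_dvd_pow h2

theorem zero_of_pderiv {q : MvPolynomial (Fin 3) ℂ} {j : Fin 3} (hj : pderiv j q = 0)
    {m : Fin 3 →₀ ℕ} (hm : coeff m q ≠ 0) : m j = 0 := by
  by_contra hmj
  have h3 := congrArg (coeff (m - Finsupp.single j 1)) hj
  rw [coeff_pderiv, coeff_zero, tsub_add_cancel_of_le
    (Finsupp.single_le_iff.2 (Nat.one_le_iff_ne_zero.2 hmj)), mul_eq_zero] at h3
  rcases h3 with h3 | h3
  · exact hm h3
  · exact Nat.cast_add_one_ne_zero ((m - Finsupp.single j 1 : Fin 3 →₀ ℕ) j) h3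

theorem prime_dvd {F₀ R₀ f₀ a b : MvPolynomial (Fin 3) ℂ} {k : ℕ} (hf : f₀ ≠ 0)
    (hR : f₀ = F₀ * R₀) (hh : F₀.IsHomogeneous k) (hs : Squarefree (dh F₀))
    (ha : F₀ * pderiv 1 f₀ = f₀ * a) (hb : F₀ * pderiv 2 f₀ = f₀ * b)
    {q : MvPolynomial (Fin 3) ℂ} (hq : Prime q) (h1 : q ∣ F₀) (h2 : q ∣ a) (h3 : q ∣ b) :
    q ∣ X 0 := by
  have hF0 : F₀ ≠ 0 := by
    rintro rfl
    rw [zero_mul] at hR
    exact hf hR
  obtain ⟨e, he⟩ := isHomogeneous_of_dvd hh hF0 h1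
  by_contra hcon
  obtain ⟨H, hH⟩ := h1
  have hqH : ¬ q ∣ H := by
    rintro ⟨H', rfl⟩
    have hu : IsUnit (dh q) := hs (dh q) ⟨dh H', by rw [hH, map_mul, map_mul]; ring⟩
    rw [MvPolynomial.isUnit_iff_eq_C_of_isReduced] at hu
    obtain ⟨c, -, hc⟩ := hu
    apply hcon
    apply dvd_X hq he
    intro m hm
    have h4 := coeff_dh he (deg_of_mem he hm)
    rw [← h4, hc, coeff_C] at hm
    have h5 : (0 : Fin 2 →₀ ℕ) = red m := by
      by_contra h6
      rw [if_neg h6] at hm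
      exact hm rfl
    refine ⟨?_, ?_⟩
    · rw [← red_zero, ← h5, Finsupp.coe_zero, Pi.zero_apply]
    · rw [← red_one, ← h5, Finsupp.coe_zero, Pi.zero_apply]
  have e1 := OB.OrdB.step hf hq hH hqH ⟨R₀, hR⟩ ha h2
  have e2 := OB.OrdB.step hf hq hH hqH ⟨R₀, hR⟩ hb h3
  exact hcon (dvd_X hq he fun m hm => ⟨zero_of_pderiv e1 hm, zero_of_pderiv e2 hm⟩)

theorem coeff_WPart (a b K : ℕ) (G : MvPolynomial (Fin 2) ℂ) (m : Fin 2 →₀ ℕ) :
    coeff m (WPart a b K G) = if a * m 0 + b * m 1 = K then coeff m G else 0 := by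
  classical
  unfold WPart
  rw [coeff_sum]
  simp only [coeff_monomial]
  rw [Finset.sum_ite_eq']
  by_cases h : a * m 0 + b * m 1 = K
  · rw [if_pos h]
    split_ifs with h2
    · rfl
    · by_contra h3
      exact h2 (Finset.mem_filter.2 ⟨mem_support_iff.2 (Ne.symm h3), h⟩)
  · rw [if_neg h, if_neg]
    intro h2
    exact h (Finset.mem_filter.1 h2).2

/-! ### Laurent polynomials -/

/-- Clearing the powers of `x`. -/
theorem exists_clr0 {a : La} (h : ∀ j, j ≠ 0 → Reg j a) :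
    ∃ R : ℕ, ∀ N, R ≤ N → ∃ p, io (X 0 ^ N) * a = io p := by
  obtain ⟨s, hs⟩ := OB.exists_ge (co 0) a
  refine ⟨(-s).toNat, fun N hN => OB.exists_io fun j => ?_⟩
  by_cases hj : j = 0
  · subst hj
    have h1 : Ge (co 0) N (io (X 0 ^ N)) := by
      rw [map_pow, OB.io_X, OB.sg_pow, one_pow]
      apply Ge.sg
      rw [OB.co_apply]
      simp [ex]
    have h2 := h1.mul hs
    exact h2.mono (by omega)
  · exact (Reg.io j _).mul (h j hj)

theorem D_X0 {j : Fin 3} (hj : j ≠ 0) (N : ℕ) (a : La) :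
    D j (io (X 0 ^ N) * a) = io (X 0 ^ N) * D j a := by
  have h1 : D j (io (X 0 ^ N)) = 0 := by
    rw [OB.D_io, Derivation.leibniz_pow, pderiv_X_of_ne (Ne.symm hj)]
    simp
  rw [OB.D_mul, h1, mul_zero, add_zero]

variable {α β N n d : ℕ} {F P R : La} {v : Fin 3 → La}

theorem ge_v {M : ℤ} (h : DL F P v d n) (f1 : Ge (wl α β) M F) (f2 : gc (wl α β) M F ≠ 0)
    (P1 : Ge (wl α β) N P) (j : Fin 3) : Ge (wl α β) ((N : ℤ) - wl α β (ex j)) (v j) := by
  obtain ⟨s, hs⟩ := OB.exists_ge (wl α β) (v j)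
  apply OB.ge_of_mul f1 f2 hs
  rw [← h.rel j]
  exact (P1.mul (f1.D j)).mono (by omega)

theorem low_rel0 {M : ℤ} (h : DL F P v d n) (f1 : Ge (wl α β) M F) (f2 : gc (wl α β) M F ≠ 0)
    (P1 : Ge (wl α β) N P) (j : Fin 3) :
    gc (wl α β) N P * D j (gc (wl α β) M F) =
      gc (wl α β) M F * gc (wl α β) ((N : ℤ) - wl α β (ex j)) (v j) := by
  rw [← OB.gc_D, ← OB.gc_mul_low P1 (f1.D j), ← OB.gc_mul_low f1 (ge_v h f1 f2 P1 j), h.rel j]
  congr 1
  congr 1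
  ring

theorem main (hα : 0 < α) (hβ : 0 < β) (hN : α + β ≤ N) (h : DL F P v d n) (hFR : F = P * R)
    (rR : ∀ j, j ≠ 0 → Reg j R) (P1 : Ge (wl α β) N P) {W : MvPolynomial (Fin 2) ℂ}
    (hW : Squarefree W) (hc : ∀ m : Fin 2 →₀ ℕ, coeff m W =
      if α * m 0 + β * m 1 = N then OB.cf ![(n : ℤ) - m 0 - m 1, m 0, m 1] P else 0) :
    ∃ M, VL α β F P v M N := by
  classical
  obtain ⟨s, f1, f2⟩ := OB.exists_order (wl α β) h.F0
  have hs0 : 0 ≤ s := by
    have h1 : ∃ m, OB.cf m (gc (wl α β) s F) ≠ 0 := by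
      by_contra hcon
      push Not at hcon
      exact f2 (OB.La.ext' fun m => by rw [hcon m, map_zero])
    obtain ⟨m, hm⟩ := h1
    have h2 := OB.gc_hm (wl α β) s F m hm
    have h3 : OB.cf m F ≠ 0 := by
      intro h4
      apply hm
      rw [OB.cf_gc_of_eq h2, h4]
    have h4 : 0 ≤ m 1 := h.rF 1 (by decide) m h3
    have h5 : 0 ≤ m 2 := h.rF 2 (by decide) m h3
    rw [← h2, wl_apply]
    positivity
  obtain ⟨M, rfl⟩ := Int.eq_ofNat_of_zero_le hs0
  have P2 : gc (wl α β) N P ≠ 0 := by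
    intro h1
    apply hW.ne_zero
    ext m
    rw [hc, coeff_zero]
    split_ifs with h2
    · have h3 : wl α β ![(n : ℤ) - m 0 - m 1, m 0, m 1] = N := by
        rw [wl_apply]
        show (α : ℤ) * (m 0 : ℕ) + β * (m 1 : ℕ) = N
        exact_mod_cast h2
      rw [← OB.cf_gc_of_eq h3, h1, map_zero]
    · rfl
  refine ⟨M, hα, hβ, hN, f1, f2, P1, P2, ?_⟩
  have hR0 : R ≠ 0 := by
    rintro rfl
    rw [mul_zero] at hFR
    exact h.F0 hFR
  obtain ⟨t, R1, R2⟩ := OB.exists_order (wl α β) hR0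
  have hfR : gc (wl α β) (N + t) F = gc (wl α β) N P * gc (wl α β) t R := by
    rw [hFR, OB.gc_mul_low P1 R1]
  have hfR1 : Ge (wl α β) (N + t) F := by
    rw [hFR]
    exact P1.mul R1
  have hMs : (M : ℤ) = N + t := by
    rcases lt_trichotomy (M : ℤ) (N + t) with hlt | heq | hgt
    · exact absurd (OB.gc_eq_zero_of_lt hfR1 hlt) f2
    · exact heq
    · have := OB.gc_eq_zero_of_lt f1 hgt
      rw [hfR] at this
      exact absurd this (mul_ne_zero P2 R2)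
  rw [← hMs] at hfR
  have l1 := low_rel0 h f1 f2 P1 1
  have l2 := low_rel0 h f1 f2 P1 2
  rw [wl_ex1] at l1
  rw [wl_ex2] at l2
  set PN := gc (wl α β) N P with hPN
  set FM := gc (wl α β) M F with hFM
  set RT := gc (wl α β) t R with hRT
  set A₁ := gc (wl α β) ((N : ℤ) - α) (v 1) with hA₁
  set A₂ := gc (wl α β) ((N : ℤ) - β) (v 2) with hA₂
  obtain ⟨n₁, c₁⟩ := exists_clr0 (a := PN) fun j hj => Ge.gc (h.rP j hj) _ _
  obtain ⟨n₂, c₂⟩ := exists_clr0 (a := A₁) fun j hj => Ge.gc (h.rv 1 j hj) _ _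
  obtain ⟨n₃, c₃⟩ := exists_clr0 (a := A₂) fun j hj => Ge.gc (h.rv 2 j hj) _ _
  obtain ⟨n₄, c₄⟩ := exists_clr0 (a := RT) fun j hj => Ge.gc (rR j hj) _ _
  set K := max n₁ (max n₂ n₃) with hK
  obtain ⟨F₀, hF₀⟩ := c₁ K (le_max_left _ _)
  obtain ⟨a, ha⟩ := c₂ K ((le_max_left _ _).trans (le_max_right _ _))
  obtain ⟨b, hb⟩ := c₃ K ((le_max_right _ _).trans (le_max_right _ _))
  obtain ⟨R₀, hR₀⟩ := c₄ n₄ le_rfl
  have hf₀ : io (F₀ * R₀) = io (X 0 ^ (K + n₄)) * FM := by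
    rw [map_mul, ← hF₀, ← hR₀, hfR, pow_add, map_mul]
    ring
  have hx : ∀ k : ℕ, io (X 0 ^ k) * sg (-(k • ex 0)) 1 = 1 := by
    intro k
    rw [map_pow, OB.io_X, OB.sg_pow, OB.sg_mul_sg, add_neg_cancel, one_pow, one_mul, OB.one_eq_sg]
  have hf₀0 : F₀ * R₀ ≠ 0 := by
    intro h0
    rw [h0, map_zero] at hf₀
    exact f2 ((mul_eq_zero.1 hf₀.symm).resolve_left (OB.io_ne_zero (pow_ne_zero _ (X_ne_zero 0))))
  have ea : F₀ * pderiv 1 (F₀ * R₀) = F₀ * R₀ * a := by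
    apply OB.io_injective
    rw [map_mul io F₀, map_mul io (F₀ * R₀), ← OB.D_io, hf₀, D_X0 (by decide), ← hF₀, ← ha]
    linear_combination io (X 0 ^ K) * io (X 0 ^ (K + n₄)) * l1
  have eb : F₀ * pderiv 2 (F₀ * R₀) = F₀ * R₀ * b := by
    apply OB.io_injective
    rw [map_mul io F₀, map_mul io (F₀ * R₀), ← OB.D_io, hf₀, D_X0 (by decide), ← hF₀, ← hb]
    linear_combination io (X 0 ^ K) * io (X 0 ^ (K + n₄)) * l2
  have hm : Hm td ((K + n : ℕ) : ℤ) (io F₀) := by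
    rw [← hF₀]
    have h1 : Hm td K (io (X 0 ^ K)) := OB.hm_io (isHomogeneous_X_pow _ _)
    have h2 := h1.mul ((h.hP).gc (wl α β) N)
    rw [Nat.cast_add]
    exact h2
  have hh : F₀.IsHomogeneous (K + n) := by
    have := OK.JoAux.isHomogeneous_of_hm (by positivity) hm
    rwa [Int.toNat_natCast] at this
  have hcf : ∀ m, OB.cf m PN = OB.cf (K • ex 0 + m) (io F₀) := by
    intro m
    rw [← hF₀, map_pow, OB.io_X, OB.sg_pow, one_pow, OB.cf_sg_mul, one_mul, add_sub_cancel_left]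
  have hdh : dh F₀ = W := by
    ext m
    rw [hc]
    have h1 : (if α * m 0 + β * m 1 = N then OB.cf ![(n : ℤ) - m 0 - m 1, m 0, m 1] P else 0) =
        OB.cf ![(n : ℤ) - m 0 - m 1, m 0, m 1] PN := by
      have h3 : wl α β ![(n : ℤ) - m 0 - m 1, m 0, m 1] = ((α * m 0 + β * m 1 : ℕ) : ℤ) := by
        rw [wl_apply]
        show (α : ℤ) * (m 0 : ℕ) + β * (m 1 : ℕ) = _
        push_cast
        rfl
      split_ifs with h2
      · rw [hPN, OB.cf_gc_of_eq (by rw [h3, h2])]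
      · rw [hPN, OB.cf_gc_of_ne (by rw [h3]; exact_mod_cast h2)]
    rw [h1, hcf]
    by_cases h4 : m 0 + m 1 ≤ K + n
    · set u : Fin 3 →₀ ℕ := Finsupp.single 0 (K + n - m 0 - m 1) + Finsupp.single 1 (m 0) +
        Finsupp.single 2 (m 1) with hu
      have u0 : u 0 = K + n - m 0 - m 1 := by simp [hu]
      have u1 : u 1 = m 0 := by simp [hu]
      have u2 : u 2 = m 1 := by simp [hu]
      have h5 : red u = m := by
        ext j
        fin_cases j
        · show red u 0 = m 0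
          rw [red_zero, u1]
        · show red u 1 = m 1
          rw [red_one, u2]
      have h6 : OB.toZ u = K • ex 0 + ![(n : ℤ) - m 0 - m 1, m 0, m 1] := by
        funext j
        fin_cases j
        · show ((u 0 : ℕ) : ℤ) = (K • ex 0) 0 + ((n : ℤ) - m 0 - m 1)
          rw [u0]
          simp [ex]
          omega
        · show ((u 1 : ℕ) : ℤ) = (K • ex 0) 1 + (m 0 : ℕ)
          rw [u1]
          simp [ex]
        · show ((u 2 : ℕ) : ℤ) = (K • ex 0) 2 + (m 1 : ℕ)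
          rw [u2]
          simp [ex]
      rw [← h6, OB.cf_io, ← coeff_dh hh (by omega), h5]
    · rw [coeff_dh_zero hh (by omega)]
      symm
      apply OB.cf_io_neg (i := 0)
      show (K • ex 0) 0 + ((n : ℤ) - m 0 - m 1) < 0
      simp [ex]
      omega
  have cop : OB.Cop 0 (io F₀) (io a) (io b) := by
    apply cop_of
    apply dvd_of (left_ne_zero_of_mul hf₀0)
    intro q hq q1 q2 q3
    exact prime_dvd hf₀0 rfl hh (by rw [hdh]; exact hW) ea eb hq q1 q2 q3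
  intro j hj δ hδ ⟨u₁, hu₁, e₁⟩ ⟨u₂, hu₂, e₂⟩
  obtain ⟨u, hu, e⟩ := cop j hj δ hδ
    ⟨u₁, hu₁, by rw [← ha, ← hF₀, mul_assoc, e₁, mul_assoc]⟩
    ⟨u₂, hu₂, by rw [← hb, ← hF₀, mul_assoc, e₂, mul_assoc]⟩
  refine ⟨io (X 0 ^ K) * u, (Reg.io j _).mul hu, ?_⟩
  rw [e, ← hF₀]
  ring

end VSb

end MPb07157.O3
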