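import Pool.Agent.Lib.MP_b07157_agO3.KW
import Pool.Agent.Lib.MP_b07157_agB3.LocKR

/-!
# The local lemma at a semi-quasi-homogeneous vertex
-/

noncomputable section

namespace MPb07157.O3

open MvPolynomial
open MPb07157.OK
open MPb07157.OB (La sg ex io td co D Hm Ge Reg gc)

/-- The additional relation. -/
def ResW (F : La) (hh : MvPolynomial (Fin 3) ℂ) (t : Fin 3 → Kf) : Prop :=
  ∃ (r : Kf) (η : Fin 3 → Kf), Hk 0 r ∧ (∀ q : Fin 3 → ℂ, q 0 ≠ 0 → RegAt q r) ∧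
    (∀ k, Hk 1 (η k)) ∧ (∀ k q, eval q hh ≠ 0 → RegAt q (η k)) ∧
    ∑ k, η k * DK k (jo F) = 0 ∧ t 0 = fr (X 0) * (r + dvK η)

/-- Local data near the point `(1 : 0 : 0)`. -/
structure LHW (F : La) (v : Fin 3 → La) (n : ℕ) (e : MvPolynomial (Fin 3) ℂ) (c : ℂ)
    (t₁ t₂ : Fin 3 → Kf) (g : Kf) : Prop where
  r₁ : ∀ q, eval q (X 1 * e) ≠ 0 → ∀ k, RegAt q (t₁ k)
  r₂ : ∀ q, eval q (X 2 * e) ≠ 0 → ∀ k, RegAt q (t₂ k)
  rg : ∀ q, eval q (X 1 * X 2 * e) ≠ 0 → RegAt q g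
  e₁ : ∀ k, Hk 1 (t₁ k)
  e₂ : ∀ k, Hk 1 (t₂ k)
  eg : Hk (3 - n) g
  k₁ : ∑ k, t₁ k * DK k (jo F) = 0
  k₂ : ∑ k, t₂ k * DK k (jo F) = 0
  d₁ : dvK t₁ = algebraMap ℂ Kf c
  d₂ : dvK t₂ = algebraMap ℂ Kf c
  cu : ∀ k, t₁ k - t₂ k = cuK (fun j => g * jo (v j)) k
  R₁ : ResW F (X 1 * e) t₁
  R₂ : ResW F (X 2 * e) t₂

variable {α β : ℕ} {F P : La} {v : Fin 3 → La} {d n M μ : ℕ}

theorem cu_killK {F P : Kf} {v : Fin 3 → Kf} (hF : F ≠ 0) (hP : P ≠ 0)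
    (hr : ∀ i, P * DK i F = F * v i) (g : Kf) :
    ∑ k, cuK (fun j => g * v j) k * DK k F = 0 := by
  have h1 : ∀ j, F * v j = P * DK j F := fun j => (hr j).symm
  have key : P * (F * ∑ k, cuK (fun j => g * v j) k * DK k F) = 0 := by
    have e1 : ∀ j k, F * DK k (g * v j) = DK k (F * (g * v j)) - g * v j * DK k F := by
      intro j k
      have := DK_mul k F (g * v j)
      linear_combination -this
    have e2 : ∀ j k, DK k (F * (g * v j)) = g * P * DK k (DK j F) + DK j F * DK k (g * P) := by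
      intro j k
      have : F * (g * v j) = (g * P) * DK j F := by
        rw [mul_left_comm, h1]
        ring
      rw [this, DK_mul]
    rw [Fin.sum_univ_three, cuK0, cuK1, cuK2]
    have c1 := DK_comm 1 2 F
    have c2 := DK_comm 0 2 F
    have c3 := DK_comm 0 1 F
    have a12 := e1 2 1
    have a21 := e1 1 2
    have a02 := e1 0 2
    have a20 := e1 2 0
    have a10 := e1 1 0
    have a01 := e1 0 1
    rw [e2] at a12 a21 a02 a20 a10 a01
    have r0 := hr 0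
    have r1 := hr 1
    have r2 := hr 2
    linear_combination P * DK 0 F * (a12 - a21) + P * DK 1 F * (a02 - a20) +
      P * DK 2 F * (a10 - a01) + P * DK 0 F * (g * P) * c1 - P * DK 1 F * (g * P) * c2 +
      P * DK 2 F * (g * P) * c3
  have h2 := (mul_eq_zero.1 key).resolve_left hP
  exact (mul_eq_zero.1 h2).resolve_left hF

theorem jo_ne_zero {a : La} (h : a ≠ 0) : jo a ≠ 0 := fun h1 =>
  h (jo_injective (by rw [h1, map_zero]))

theorem rel_jo (h : DL F P v d n) (i : Fin 3) : jo P * DK i (jo F) = jo F * jo (v i) := by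
  rw [DK_jo, ← map_mul, h.rel, map_mul]

theorem hk_cuv (h : DL F P v d n) {γ : Kf} (hγ : Hk (3 - n) γ) (k : Fin 3) :
    Hk 1 (cuK (fun j => γ * jo (v j)) k) := by
  have h1 : ∀ j, Hk ((3 - n : ℤ) + ((n : ℤ) - 1)) (γ * jo (v j)) := fun j =>
    hγ.mul (hk_jo (h.hv j))
  have h2 := LocKA.hk_cuK h1 k
  have h3 : (3 - n : ℤ) + ((n : ℤ) - 1) - 1 = 1 := by ring
  rwa [h3] at h2

theorem regAt_jo0 {q : Fin 3 → ℂ} (hq : q 0 ≠ 0) {a : La} (h : ∀ j, j ≠ 0 → Reg j a) :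
    RegAt q (jo a) :=
  LocKA.regAt_jo fun i hi => h i (by rintro rfl; exact hq hi)

/-- A corrected vector field. -/
theorem corrW (h : DL F P v d n) {t : Fin 3 → Kf} {γ : Kf} {c : ℂ} (e : ∀ k, Hk 1 (t k))
    (hk : ∑ k, t k * DK k (jo F) = 0) (hd : dvK t = algebraMap ℂ Kf c) (hγ : Hk (3 - n) γ) :
    (∀ k, Hk 1 (t k - cuK (fun j => γ * jo (v j)) k)) ∧
    ∑ k, (t k - cuK (fun j => γ * jo (v j)) k) * DK k (jo F) = 0 ∧
    dvK (fun k => t k - cuK (fun j => γ * jo (v j)) k) = algebraMap ℂ Kf c := by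
  refine ⟨fun k => (e k).sub (hk_cuv h hγ k), ?_, ?_⟩
  · have h1 := cu_killK (jo_ne_zero h.F0) (jo_ne_zero h.P0) (rel_jo h) γ
    calc _ = ∑ k, (t k * DK k (jo F) - cuK (fun j => γ * jo (v j)) k * DK k (jo F)) :=
          Finset.sum_congr rfl fun k _ => by ring
      _ = 0 := by rw [Finset.sum_sub_distrib, hk, h1, sub_zero]
  · rw [LocKA.dvK_sub, hd]
    have h1 : dvK (cuK fun j => γ * jo (v j)) = 0 := dvK_cuK _
    rw [h1, sub_zero]

theorem X0_xi : fr (X 0) * jo xi = 1 := by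
  have h : fr (X 0) = jo (xx 0) := by
    rw [← jo_io, OB.io_X]
    rfl
  rw [h, ← map_mul, xx_xi, map_one]

theorem DK_xi {i : Fin 3} (hi : i ≠ 0) : DK i (jo xi) = 0 := by
  rw [DK_jo]
  have h : D i xi = 0 := by
    apply OB.La.ext'
    intro m
    rw [OB.cf_D, map_zero]
    unfold xi
    rw [OB.cf_sg]
    by_cases h1 : -ex 0 = m + ex i
    · have h2 := congrFun h1 i
      rw [Pi.neg_apply, OB.ex_ne hi, neg_zero, Pi.add_apply, OB.ex_same] at h2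
      have h3 : (m i : ℂ) + 1 = 0 := by exact_mod_cast h2.symm
      rw [h3, zero_mul]
    · rw [if_neg h1, mul_zero]
  rw [h, map_zero]

theorem ResW.corr (h : DL F P v d n) {hh : MvPolynomial (Fin 3) ℂ} (hx : X 0 ∣ hh)
    {t : Fin 3 → Kf} {γ : Kf} (H : ResW F hh t) (hg : Hk (3 - n) γ)
    (hr : ∀ q, eval q hh ≠ 0 → RegAt q γ) :
    ResW F hh fun j => t j - cuK (fun l => γ * jo (v l)) j := by
  obtain ⟨r, η, h1, h2, h3, h4, h5, h6⟩ := H
  have hxi : Hk (-1) (jo xi) := hk_jo hm_xi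
  have hv : ∀ l, Hk 1 (γ * jo (v l) * jo xi) := by
    intro l
    have := (hg.mul (hk_jo (h.hv l))).mul hxi
    have e : (3 - n : ℤ) + ((n : ℤ) - 1) + -1 = 1 := by ring
    rwa [e] at this
  have rv : ∀ l q, eval q hh ≠ 0 → RegAt q (γ * jo (v l) * jo xi) := by
    intro l q hq
    have hq0 : q 0 ≠ 0 := by
      intro h0
      obtain ⟨w, rfl⟩ := hx
      apply hq
      rw [map_mul, eval_X, h0, zero_mul]
    exact ((hr q hq).mul (regAt_jo0 hq0 (h.rv l))).mul (regAt_jo0 hq0 fun j hj => reg_xi hj)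
  set ζ : Fin 3 → Kf := ![0, γ * jo (v 2) * jo xi, -(γ * jo (v 1) * jo xi)] with hζ
  have z0 : ζ 0 = 0 := rfl
  have z1 : ζ 1 = γ * jo (v 2) * jo xi := rfl
  have z2 : ζ 2 = -(γ * jo (v 1) * jo xi) := rfl
  refine ⟨r, fun k => η k - ζ k, h1, h2, fun k => (h3 k).sub ?_, fun k q hq => (h4 k q hq).sub ?_,
    ?_, ?_⟩
  · fin_cases k
    · exact Hk.zero _
    · exact hv 2
    · exact (hv 1).neg
  · fin_cases k
    · exact RegAt.zero q
    · exact rv 2 q hq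
    · exact (rv 1 q hq).neg
  · have hP : jo P ≠ 0 := jo_ne_zero h.P0
    have h7 : ∑ k, ζ k * DK k (jo F) = 0 := by
      apply mul_left_cancel₀ hP
      rw [mul_zero, Fin.sum_univ_three, z0, z1, z2]
      have r1 := rel_jo h 1
      have r2 := rel_jo h 2
      linear_combination γ * jo (v 2) * jo xi * r1 - γ * jo (v 1) * jo xi * r2
    have h8 : ∑ k, (η k - ζ k) * DK k (jo F) =
        ∑ k, η k * DK k (jo F) - ∑ k, ζ k * DK k (jo F) := by
      rw [← Finset.sum_sub_distrib]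
      exact Finset.sum_congr rfl fun k _ => sub_mul _ _ _
    rw [h8, h5, h7, sub_zero]
  · show t 0 - cuK (fun l => γ * jo (v l)) 0 = _
    rw [LocKA.dvK_sub, h6]
    have h9 : dvK ζ = jo xi * cuK (fun l => γ * jo (v l)) 0 := by
      unfold dvK
      rw [Fin.sum_univ_three, z0, z1, z2, map_zero, map_neg, DK_mul 1 (γ * jo (v 2)),
        DK_mul 2 (γ * jo (v 1)), DK_xi (by decide : (1 : Fin 3) ≠ 0),
        DK_xi (by decide : (2 : Fin 3) ≠ 0), cuK0]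
      ring
    rw [h9]
    linear_combination cuK (fun l => γ * jo (v l)) 0 * X0_xi

/-! ### Approximations -/

theorem apx_killW (hF : Ge (wl α β) 0 F) {t : Fin 3 → Kf} {a : Fin 3 → La}
    (hk : ∑ k, t k * DK k (jo F) = 0)
    (ha : ∀ k, OgW α β ((M + 1 + (α + β) : ℕ) : ℤ) (t k - jo (a k))) :
    Ge (wl α β) (M + 1) (∑ k, a k * D k F) := by
  rw [← ogW_jo_iff, map_sum]
  have h1 : ∑ k, jo (a k * D k F) = -∑ k, (t k - jo (a k)) * DK k (jo F) := by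
    have h2 : ∀ k, jo (a k * D k F) = t k * DK k (jo F) - (t k - jo (a k)) * DK k (jo F) := by
      intro k
      rw [map_mul, DK_jo]
      ring
    rw [Finset.sum_congr rfl fun k _ => h2 k, Finset.sum_sub_distrib, hk, zero_sub]
  rw [h1]
  refine OgW.neg (OgW.sum3 fun k => ?_)
  refine ((ha k).mul ((ogW_jo_iff.2 hF).DK k)).mono ?_
  push_cast
  omega

theorem apx_divW {t : Fin 3 → Kf} {a : Fin 3 → La} {c : ℂ} (hd : dvK t = algebraMap ℂ Kf c)
    (ha : ∀ k, OgW α β ((M + 1 + (α + β) : ℕ) : ℤ) (t k - jo (a k))) :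
    Ge (wl α β) 1 (OB.dv a - sg 0 c) := by
  have h0 : jo (sg 0 c) = algebraMap ℂ Kf c := by
    rw [← OB.io_C, jo_io, fr_C]
  rw [← ogW_jo_iff, map_sub, h0, LocKA.jo_dv, ← hd]
  have h1 : dvK (fun k => jo (a k)) - dvK t = -∑ k, DK k (t k - jo (a k)) := by
    unfold dvK
    rw [← Finset.sum_sub_distrib, ← Finset.sum_neg_distrib]
    refine Finset.sum_congr rfl fun k _ => ?_
    rw [map_sub]
    ring
  rw [h1]
  refine OgW.neg (OgW.sum3 fun k => ?_)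
  refine ((ha k).DK k).mono ?_
  push_cast
  omega

/-- The additional relation for the approximations. -/
theorem rw_of_res (hF : Ge (wl α β) 0 F) {j : Fin 3} {hh : MvPolynomial (Fin 3) ℂ}
    {s : Fin 3 → Kf} {a : Fin 3 → La} (H : ResW F hh s)
    (hap : ∀ w : Kf, Hk 1 w → (∀ q, eval q hh ≠ 0 → RegAt q w) →
      ∃ b : La, Reg j b ∧ Hm td 1 b ∧ OgW α β ((M + 1 + (α + β) : ℕ) : ℤ) (w - jo b))
    (ha : ∀ k, OgW α β ((M + 1 + (α + β) : ℕ) : ℤ) (s k - jo (a k))) : RW α β F j M a := by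
  obtain ⟨r, η, h1, h2, h3, h4, h5, h6⟩ := H
  choose b rb eb ob using fun k => hap (η k) (h3 k) (h4 k)
  refine ⟨b, rb, eb, (apx_killW hF h5 ob).mono (by omega), ?_⟩
  have o1 : OgW α β 0 r := by
    obtain ⟨N, p, hp⟩ := exists_pow (h := X 0) (g := r) fun q hq => h2 q (by rwa [eval_X] at hq)
    have e2 : r = fr p * (fr (X 0 ^ N))⁻¹ := by
      rw [← hp, mul_assoc, mul_inv_cancel₀ (fr_ne_zero (pow_ne_zero N (X_ne_zero 0))), mul_one]
    rw [e2]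
    have h7 := (ogW_fr (α := α) (β := β) p).mul
      (ogW_inv ((isHomogeneous_X ℂ (0 : Fin 3)).pow N) (by
        rw [map_pow, eval_X, Pi.single_eq_same, one_pow]
        exact one_ne_zero))
    rwa [add_zero] at h7
  have o2 : OgW α β 0 (jo xi) := ogW_jo_iff.2 wm_xi.ge
  rw [← ogW_jo_iff]
  show OgW α β 0 (jo (xi * a 0 - OB.dv b))
  rw [map_sub, map_mul, LocKA.jo_dv]
  have e3 : jo xi * jo (a 0) - dvK (fun k => jo (b k)) =
      r - jo xi * (s 0 - jo (a 0)) + ∑ k, DK k (η k - jo (b k)) := by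
    have e4 : ∑ k, DK k (η k - jo (b k)) = dvK η - dvK (fun k => jo (b k)) := by
      unfold dvK
      rw [← Finset.sum_sub_distrib]
      exact Finset.sum_congr rfl fun k _ => map_sub _ _ _
    rw [e4, h6]
    linear_combination (r + dvK η) * X0_xi
  rw [e3]
  refine (o1.sub ?_).add (OgW.sum3 fun k => ?_)
  · have := o2.mul (ha 0)
    refine this.mono ?_
    push_cast
    omega
  · refine ((ob k).DK k).mono ?_
    push_cast
    omega

/-- The part with exponents of the third variable not negative. -/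
theorem reg_sub_pA' (hα : 0 < α) (hβ : 0 < β) {a : La} (ha : Ge (wl α β) (1 - (α + β)) a) :
    Reg 1 (a - LocKA.pA a) := by
  intro m hm
  by_cases h2 : 0 ≤ m 2
  · rw [map_sub, LocKA.pA, OB.cf_cpt_pos (P := fun m : Fin 3 → ℤ => 0 ≤ m 2) h2, sub_self] at hm
    exact absurd rfl hm
  · rw [map_sub, LocKA.pA, OB.cf_cpt_neg (P := fun m : Fin 3 → ℤ => 0 ≤ m 2) h2, sub_zero] at hm
    have h3 := ha m hm
    rw [wl_apply] at h3
    show 0 ≤ m 1
    by_contra h1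
    have hα' : (1 : ℤ) ≤ α := by exact_mod_cast hα
    have hβ' : (1 : ℤ) ≤ β := by exact_mod_cast hβ
    have h1' : m 1 ≤ -1 := by omega
    have h2' : m 2 ≤ -1 := by omega
    nlinarith

/-- **The local lemma at a semi-quasi-homogeneous vertex.** -/
theorem loc_vw (h : DL F P v d n) (hV : VL α β F P v M μ) {e : MvPolynomial (Fin 3) ℂ} {κ : ℕ}
    (he : e.IsHomogeneous κ) (he0 : eval (Pi.single 0 1) e ≠ 0) (hx : X 0 ∣ e) {c : ℂ}
    (hc : c ≠ 0) {t₁ t₂ : Fin 3 → Kf} {g : Kf} (H : LHW F v n e c t₁ t₂ g) {σ : La} {k K : ℕ}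
    (s1 : Reg 1 σ) (s2 : Reg 2 σ) (sk : Hm td k σ) (sK : Ge (wl α β) K σ)
    (hK : μ ≤ K + 2 * (α + β)) :
    ∃ s : Kf, Hk (3 - n + k) s ∧ (∀ q, eval q (X 1 * e) ≠ 0 → RegAt q s) ∧
      ∀ q, eval q (X 2 * e) ≠ 0 → RegAt q (jo σ * g - s) := by
  obtain ⟨γ₁, γ₂, a, hg, hγ₁, hγ₂, ha, rγ₁, rγ₂, hneg⟩ := split he he0 hx H.eg H.rg
  obtain ⟨e₁, k₁, d₁⟩ := corrW h H.e₁ H.k₁ H.d₁ hγ₁
  obtain ⟨e₂, k₂, d₂⟩ := corrW h H.e₂ H.k₂ H.d₂ hγ₂
  have R₁ := H.R₁.corr h (hx.mul_left _) hγ₁ rγ₁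
  have R₂ := H.R₂.corr h (hx.mul_left _) hγ₂ rγ₂
  have hF0 : Ge (wl α β) 0 F := hV.F1.mono (by omega)
  set s₁ : Fin 3 → Kf := fun k => t₁ k - cuK (fun j => γ₁ * jo (v j)) k with hs₁
  set s₂ : Fin 3 → Kf := fun k => t₂ k - cuK (fun j => γ₂ * jo (v j)) k with hs₂
  have rv : ∀ q : Fin 3 → ℂ, q 0 ≠ 0 → ∀ j, RegAt q (jo (v j)) := fun q hq j =>
    regAt_jo0 hq (h.rv j)
  have r₁ : ∀ k q, eval q (X 1 * e) ≠ 0 → RegAt q (s₁ k) := fun k q hq =>
    (H.r₁ q hq k).sub (LocKA.regAt_cuK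
      (fun j => (rγ₁ q hq).mul (rv q (LocKA.ne_of_off hx hq).1 j)) k)
  have r₂ : ∀ k q, eval q (X 2 * e) ≠ 0 → RegAt q (s₂ k) := fun k q hq =>
    (H.r₂ q hq k).sub (LocKA.regAt_cuK
      (fun j => (rγ₂ q hq).mul (rv q (LocKA.ne_of_off hx hq).1 j)) k)
  have hcu : ∀ k, s₁ k - s₂ k = cuK (fun j => jo a * jo (v j)) k := by
    intro k
    have h1 : (fun j => g * jo (v j)) = fun j =>
        (γ₁ * jo (v j) - γ₂ * jo (v j)) + jo a * jo (v j) := by
      funext j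
      rw [hg]
      ring
    have h2 := H.cu k
    rw [h1, LocKA.cuK_add (fun j => γ₁ * jo (v j) - γ₂ * jo (v j)) fun j => jo a * jo (v j),
      LocKA.cuK_sub (fun j => γ₁ * jo (v j)) fun j => γ₂ * jo (v j)] at h2
    show t₁ k - cuK (fun j => γ₁ * jo (v j)) k - (t₂ k - cuK (fun j => γ₂ * jo (v j)) k) = _
    linear_combination h2
  have ap₁ : ∀ w : Kf, Hk 1 w → (∀ q, eval q (X 1 * e) ≠ 0 → RegAt q w) →
      ∃ b : La, Reg 2 b ∧ Hm td 1 b ∧ OgW α β ((M + 1 + (α + β) : ℕ) : ℤ) (w - jo b) := by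
    intro w hw hr
    obtain ⟨b, b1, b2, b3⟩ := approxW hV.hα hV.hβ he he0 hw 1 hr (M + 1 + (α + β))
    exact ⟨b, b1 2 (by decide) (by decide), b2, b3⟩
  have ap₂ : ∀ w : Kf, Hk 1 w → (∀ q, eval q (X 2 * e) ≠ 0 → RegAt q w) →
      ∃ b : La, Reg 1 b ∧ Hm td 1 b ∧ OgW α β ((M + 1 + (α + β) : ℕ) : ℤ) (w - jo b) := by
    intro w hw hr
    obtain ⟨b, b1, b2, b3⟩ := approxW hV.hα hV.hβ he he0 hw 2 hr (M + 1 + (α + β))
    exact ⟨b, b1 1 (by decide) (by decide), b2, b3⟩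
  choose a₁ ra₁ ea₁ oa₁ using fun k => ap₁ (s₁ k) (e₁ k) (r₁ k)
  choose a₂ ra₂ ea₂ oa₂ using fun k => ap₂ (s₂ k) (e₂ k) (r₂ k)
  have hcu' : ∀ k, Ge (wl α β) (α + β) (a₂ k - a₁ k - OB.cu (fun j => (-a) * v j) k) := by
    intro k
    rw [← ogW_jo_iff, map_sub, map_sub, LocKA.jo_cu]
    have h1 : (fun j => jo ((-a) * v j)) = fun j => 0 - jo a * jo (v j) := by
      funext j
      rw [map_mul, map_neg]
      ring
    have h2 : cuK (fun _ => 0 : Fin 3 → Kf) k = 0 := by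
      unfold cuK
      rw [map_zero, map_zero, sub_zero]
    have h4 : jo (a₂ k) - jo (a₁ k) - cuK (fun j => jo ((-a) * v j)) k =
        (s₁ k - jo (a₁ k)) - (s₂ k - jo (a₂ k)) := by
      rw [h1, LocKA.cuK_sub (fun _ => 0) fun j => jo a * jo (v j), h2, ← hcu k]
      ring
    rw [h4]
    refine ((oa₁ k).sub (oa₂ k)).mono ?_
    push_cast
    omega
  have key := locW h hV (rw_of_res hF0 R₂ ap₂ oa₂) (rw_of_res hF0 R₁ ap₁ oa₁) ra₂ ra₁ ea₂ ea₁
    (apx_killW hF0 k₂ oa₂) (apx_killW hF0 k₁ oa₁) hc (apx_divW d₂ oa₂) ha.neg hcu'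
    (fun m hm => hneg m (by rwa [map_neg, neg_ne_zero] at hm))
  have key' : Ge (wl α β) (α + β + 1 - μ) a := by
    have := key.neg
    rwa [neg_neg] at this
  have hσa : Ge (wl α β) (1 - (α + β)) (σ * a) := (sK.mul key').mono (by
    have : (μ : ℤ) ≤ K + 2 * (α + β) := by exact_mod_cast hK
    omega)
  have hhm : Hm td (3 - n + k) (σ * a) := by
    have h1 := sk.mul ha
    rwa [add_comm] at h1
  have rσ : ∀ q : Fin 3 → ℂ, q 0 ≠ 0 → RegAt q (jo σ) := fun q hq => regAt_jo0 hq fun j hj => by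
    fin_cases j
    · exact absurd rfl hj
    · exact s1
    · exact s2
  refine ⟨jo σ * γ₁ + jo (LocKA.pA (σ * a)), ?_, fun q hq => ?_, fun q hq => ?_⟩
  · have h1 := (hk_jo sk).mul hγ₁
    rw [add_comm] at h1
    exact h1.add (hk_jo (hhm.cpt _))
  · exact ((rσ q (LocKA.ne_of_off hx hq).1).mul (rγ₁ q hq)).add
      (LocKA.regAt_off₁ hx (LocKA.reg_pA _) hq)
  · have h1 : jo σ * g - (jo σ * γ₁ + jo (LocKA.pA (σ * a))) =
        jo (σ * a - LocKA.pA (σ * a)) - jo σ * γ₂ := by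
      rw [hg, map_sub, map_mul]
      ring
    rw [h1]
    exact (LocKA.regAt_off₂ hx (reg_sub_pA' hV.hα hV.hβ hσa) hq).sub
      ((rσ q (LocKA.ne_of_off hx hq).1).mul (rγ₂ q hq))

end MPb07157.O3
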