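import Pool.Agent.Lib.MP_b07157_agO3.WD

/-!
# The local lemma with weights: the lowest parts
-/

noncomputable section

namespace MPb07157.O3

open MPb07157.OB

variable {α β : ℕ} {F P : La} {v : Fin 3 → La} {d n M μ : ℕ}

/-- The variables. -/
def xx (i : Fin 3) : La := sg (ex i) 1

theorem cast_smul (k : ℤ) (a : La) : (k : ℂ) • a = (k : La) * a := by
  rw [Algebra.smul_def, map_intCast]

theorem eulerT {k : ℤ} {a : La} (h : Hm td k a) :
    xx 0 * D 0 a + xx 1 * D 1 a + xx 2 * D 2 a = (k : La) * a := by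
  have := euler_td h 0
  rw [cast_smul] at this
  exact this

theorem eulerW {k : ℤ} {a : La} (h : Hm (wl α β) k a) :
    (α : La) * (xx 1 * D 1 a) + (β : La) * (xx 2 * D 2 a) = (k : La) * a := by
  rw [← cast_smul]
  have e1 : ∀ (c : ℕ) (b : La), (c : La) * b = (c : ℂ) • b := by
    intro c b
    rw [Algebra.smul_def, map_natCast]
  rw [e1, e1]
  apply La.ext'
  intro m
  rw [map_add, map_smul, map_smul, map_smul, xx, xx, cf_xD, cf_xD, smul_eq_mul, smul_eq_mul,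
    smul_eq_mul]
  by_cases h1 : OB.cf m a = 0
  · rw [h1]
    ring
  · rw [← h m h1, wl_apply]
    push_cast
    ring

theorem xx_ne (i : Fin 3) : xx i ≠ 0 := LocN.sg_ne_zero _

theorem hm_xx (i : Fin 3) : Hm td 1 (xx i) := Hm.sg (td_ex i) 1

theorem wm_xx (i : Fin 3) : Hm (wl α β) (wl α β (ex i)) (xx i) := Hm.sg rfl 1

theorem reg_xx (j i : Fin 3) : Reg j (xx i) := LocN.reg_sg_ex j i 1

theorem D_xx_same (i : Fin 3) : D i (xx i) = 1 := LocN.D_sg_same i

theorem D_xx_ne {i j : Fin 3} (h : i ≠ j) : D i (xx j) = 0 := LocN.D_sg_ne h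

theorem D_natCast (i : Fin 3) (k : ℕ) : D i (k : La) = 0 := by
  rw [← map_natCast (algebraMap ℂ La) k]
  exact (D i).map_algebraMap _

theorem D_cmul (i : Fin 3) (k : ℕ) (a : La) : D i ((k : La) * a) = (k : La) * D i a := by
  rw [D_mul, D_natCast, mul_zero, add_zero]

theorem natCast_ne {k : ℕ} (h : k ≠ 0) : (k : La) ≠ 0 := by
  rw [← map_natCast (algebraMap ℂ La) k]
  intro h1
  have := (map_eq_zero_iff _ (algebraMap ℂ La).injective).1 h1
  exact h (by exact_mod_cast this)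

theorem intCast_ne {k : ℤ} (h : k ≠ 0) : (k : La) ≠ 0 := by
  rw [← map_intCast (algebraMap ℂ La) k]
  intro h1
  have := (map_eq_zero_iff _ (algebraMap ℂ La).injective).1 h1
  exact h (by exact_mod_cast this)

/-- The lowest parts: `G` of `F`, `Φ` of `P`, `X`, `Y`, `Z` of `v`. -/
structure Low (α β d n M μ : ℕ) (G Φ X Y Z : La) : Prop where
  hα : 0 < α
  hβ : 0 < β
  hμ : α + β ≤ μ
  hd : 0 < d
  G0 : G ≠ 0
  P0 : Φ ≠ 0
  l0 : Φ * D 0 G = G * X
  l1 : Φ * D 1 G = G * Y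
  l2 : Φ * D 2 G = G * Z
  tG : Hm td d G
  wG : Hm (wl α β) M G
  rG : ∀ j, j ≠ 0 → Reg j G
  tP : Hm td n Φ
  wP : Hm (wl α β) μ Φ
  tX : Hm td ((n : ℤ) - 1) X
  tY : Hm td ((n : ℤ) - 1) Y
  tZ : Hm td ((n : ℤ) - 1) Z
  wX : Hm (wl α β) μ X
  wY : Hm (wl α β) ((μ : ℤ) - α) Y
  wZ : Hm (wl α β) ((μ : ℤ) - β) Z
  cop : Cop 0 Φ Y Z

theorem ge_v (h : DL F P v d n) (hV : VL α β F P v M μ) (j : Fin 3) :
    Ge (wl α β) ((μ : ℤ) - wl α β (ex j)) (v j) := by
  obtain ⟨s, hs⟩ := exists_ge (wl α β) (v j)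
  apply ge_of_mul hV.F1 hV.F2 hs
  rw [← h.rel j]
  exact (hV.P1.mul (hV.F1.D j)).mono (by omega)

theorem low_rel (h : DL F P v d n) (hV : VL α β F P v M μ) (j : Fin 3) :
    gc (wl α β) μ P * D j (gc (wl α β) M F) =
      gc (wl α β) M F * gc (wl α β) ((μ : ℤ) - wl α β (ex j)) (v j) := by
  rw [← gc_D, ← gc_mul_low hV.P1 (hV.F1.D j), ← gc_mul_low hV.F1 (ge_v h hV j), h.rel j]
  congr 1
  congr 1
  ring

theorem low (h : DL F P v d n) (hV : VL α β F P v M μ) :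
    Low α β d n M μ (gc (wl α β) M F) (gc (wl α β) μ P) (gc (wl α β) μ (v 0))
      (gc (wl α β) ((μ : ℤ) - α) (v 1)) (gc (wl α β) ((μ : ℤ) - β) (v 2)) where
  hα := hV.hα
  hβ := hV.hβ
  hμ := hV.hμ
  hd := h.hd
  G0 := hV.F2
  P0 := hV.P2
  l0 := by
    have := low_rel h hV 0
    rwa [wl_ex0, sub_zero] at this
  l1 := by
    have := low_rel h hV 1
    rwa [wl_ex1] at this
  l2 := by
    have := low_rel h hV 2
    rwa [wl_ex2] at this
  tG := h.hF.gc _ _
  wG := gc_hm _ _ _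
  rG := fun j hj => Ge.gc (h.rF j hj) _ _
  tP := h.hP.gc _ _
  wP := gc_hm _ _ _
  tX := (h.hv 0).gc _ _
  tY := (h.hv 1).gc _ _
  tZ := (h.hv 2).gc _ _
  wX := gc_hm _ _ _
  wY := gc_hm _ _ _
  wZ := gc_hm _ _ _
  cop := hV.cop

namespace Low

variable {G Φ X Y Z : La}

theorem ge_of_reg (hα : 0 < α) (hβ : 0 < β) {a : La} (h1 : Reg 1 a) (h2 : Reg 2 a) :
    Ge (wl α β) 0 a := by
  intro m hm
  have a1 := h1 m hm
  have a2 := h2 m hm
  rw [co_apply] at a1 a2
  rw [wl_apply]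
  positivity

/-- The quotient of an element by `Φ` in both rings is the same. -/
theorem cop_both (L : Low α β d n M μ G Φ X Y Z) {δ : La} (r1 : Reg 1 δ) (r2 : Reg 2 δ)
    {u₁ u₂ : La} (a1 : Reg 1 u₁) (a2 : Reg 2 u₁) (b1 : Reg 1 u₂) (b2 : Reg 2 u₂)
    (h1 : Y * δ = Φ * u₁) (h2 : Z * δ = Φ * u₂) : Ge (wl α β) μ δ := by
  obtain ⟨w1, c1, c2⟩ := L.cop 1 (by decide) δ r1 ⟨u₁, a1, h1⟩ ⟨u₂, b1, h2⟩
  obtain ⟨w2, c3, c4⟩ := L.cop 2 (by decide) δ r2 ⟨u₁, a2, h1⟩ ⟨u₂, b2, h2⟩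
  have : w1 = w2 := by
    apply mul_left_cancel₀ L.P0
    rw [← c2, c4]
  subst this
  rw [c2]
  have := L.wP.ge.mul (ge_of_reg L.hα L.hβ c1 c3)
  rwa [add_zero] at this

/-- `y Y + z Z = M Φ` with weights. -/
theorem eW (L : Low α β d n M μ G Φ X Y Z) :
    (α : La) * (xx 1 * Y) + (β : La) * (xx 2 * Z) = (M : La) * Φ := by
  have h3 := eulerW L.wG
  apply mul_left_cancel₀ L.G0
  rw [Int.cast_natCast] at h3
  linear_combination Φ * h3 - (α : La) * xx 1 * L.l1 - (β : La) * xx 2 * L.l2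

/-- `x X + y Y + z Z = d Φ`. -/
theorem eT (L : Low α β d n M μ G Φ X Y Z) :
    xx 0 * X + xx 1 * Y + xx 2 * Z = (d : La) * Φ := by
  have h3 := eulerT L.tG
  apply mul_left_cancel₀ L.G0
  rw [Int.cast_natCast] at h3
  linear_combination Φ * h3 - xx 0 * L.l0 - xx 1 * L.l1 - xx 2 * L.l2

/-- `M ≠ 0`. -/
theorem M0 (L : Low α β d n M μ G Φ X Y Z) : M ≠ 0 := by
  intro hM
  have e0 : ∀ j, j ≠ 0 → D j G = 0 := by
    intro j hj
    apply La.ext'
    intro m
    rw [map_zero]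
    by_contra hm
    have h4 := L.wG.D j m hm
    have h7 : 0 ≤ m 1 := (L.rG 1 (by decide)).D j m hm
    have h8 : 0 ≤ m 2 := (L.rG 2 (by decide)).D j m hm
    have h9 : 0 < wl α β (ex j) := by
      fin_cases j
      · exact absurd rfl hj
      · show 0 < wl α β (ex 1)
        rw [wl_ex1]
        exact_mod_cast L.hα
      · show 0 < wl α β (ex 2)
        rw [wl_ex2]
        exact_mod_cast L.hβ
    have h10 : 0 ≤ wl α β m := by
      rw [wl_apply]
      positivity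
    rw [hM, Nat.cast_zero] at h4
    omega
  have hY : Y = 0 := by
    have := L.l1
    rw [e0 1 (by decide), mul_zero] at this
    exact (mul_eq_zero.1 this.symm).resolve_left L.G0
  have hZ : Z = 0 := by
    have := L.l2
    rw [e0 2 (by decide), mul_zero] at this
    exact (mul_eq_zero.1 this.symm).resolve_left L.G0
  have h1 := L.cop_both (δ := 1) (u₁ := 0) (u₂ := 0) (Reg.sg (by simp) 1) (Reg.sg (by simp) 1)
    (Reg.zero _) (Reg.zero _) (Reg.zero _) (Reg.zero _)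
    (by rw [hY, zero_mul, mul_zero]) (by rw [hZ, zero_mul, mul_zero])
  have h2 := h1 0 (by rw [one_eq_sg, cf_sg, if_pos rfl]; exact one_ne_zero)
  rw [map_zero] at h2
  have := L.hμ
  have := L.hα
  omega

/-- The determinant of the two Euler fields and the field `t`, `h = t_x / x`. -/
def det (α β : ℕ) (h ty tz : La) : La :=
  (α : La) * (xx 1 * tz) - (β : La) * (xx 2 * ty) - ((α : La) - β) * (h * xx 1 * xx 2)

theorem det_mul (L : Low α β d n M μ G Φ X Y Z) {h ty tz : La}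
    (kt : xx 0 * h * X + ty * Y + tz * Z = 0) :
    Y * det α β h ty tz = Φ * ((M : La) * tz + ((d : La) * β - M) * (h * xx 2)) ∧
    Z * det α β h ty tz = Φ * (-((M : La) * ty + ((d : La) * α - M) * (h * xx 1))) := by
  have hE := L.eW
  have hT := L.eT
  unfold det
  constructor
  · linear_combination (tz - h * xx 2) * hE + (β : La) * xx 2 * h * hT - (β : La) * xx 2 * kt
  · linear_combination (h * xx 1 - ty) * hE - (α : La) * xx 1 * h * hT + (α : La) * xx 1 * kt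

/-- The decomposition of a vector field which kills `G`. -/
theorem dec (L : Low α β d n M μ G Φ X Y Z) {j : Fin 3} (hj : j ≠ 0) {h ty tz : La}
    (rx : Reg j h) (ry : Reg j ty) (rz : Reg j tz) (kt : xx 0 * h * X + ty * Y + tz * Z = 0) :
    ∃ b, Reg j b ∧ det α β h ty tz = Φ * b ∧
      Y * b = (M : La) * tz + ((d : La) * β - M) * (h * xx 2) ∧
      Z * b = -((M : La) * ty + ((d : La) * α - M) * (h * xx 1)) := by
  have rn : ∀ k : ℕ, Reg j (k : La) := by
    intro k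
    rw [← mul_one (k : La), ← map_natCast (algebraMap ℂ La) k, ← Algebra.smul_def]
    exact (Reg.sg (by simp) 1).smul _
  obtain ⟨x1, x2⟩ := L.det_mul kt
  have rd : Reg j (det α β h ty tz) := by
    unfold det
    exact (((rn α).mul ((reg_xx j 1).mul rz)).sub ((rn β).mul ((reg_xx j 2).mul ry))).sub
      (((rn α).sub (rn β)).mul ((rx.mul (reg_xx j 1)).mul (reg_xx j 2)))
  have r1 : Reg j ((M : La) * tz + ((d : La) * β - M) * (h * xx 2)) :=
    ((rn M).mul rz).add ((((rn d).mul (rn β)).sub (rn M)).mul (rx.mul (reg_xx j 2)))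
  have r2 : Reg j (-((M : La) * ty + ((d : La) * α - M) * (h * xx 1))) :=
    (((rn M).mul ry).add ((((rn d).mul (rn α)).sub (rn M)).mul (rx.mul (reg_xx j 1)))).neg
  obtain ⟨b, rb, hb⟩ := L.cop j hj _ rd ⟨_, r1, x1⟩ ⟨_, r2, x2⟩
  refine ⟨b, rb, hb, ?_, ?_⟩
  · apply mul_left_cancel₀ L.P0
    rw [← x1, hb]
    ring
  · apply mul_left_cancel₀ L.P0
    rw [← x2, hb]
    ring

/-- The divergence of such a vector field. -/
theorem div {w : ℤ} {h ty tz b : La} (e0 : Hm td 0 h) (w0 : Hm (wl α β) w h)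
    (hz : Y * b = (M : La) * tz + ((d : La) * β - M) * (h * xx 2))
    (hy : Z * b = -((M : La) * ty + ((d : La) * α - M) * (h * xx 1))) :
    (M : La) * (D 0 (xx 0 * h) + D 1 ty + D 2 tz) =
      (D 2 (Y * b) - D 1 (Z * b)) + ((3 * M - d * (α + β + w) : ℤ) : La) * h := by
  have b1 := eulerT e0
  have b2 := eulerW w0
  have e1 := congrArg (D 1) hy
  have e2 := congrArg (D 2) hz
  have s1 : ((d : La) * α - M) * (h * xx 1) = ((d * α : ℕ) : La) * (h * xx 1) -
      (M : La) * (h * xx 1) := by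
    push_cast
    ring
  have s2 : ((d : La) * β - M) * (h * xx 2) = ((d * β : ℕ) : La) * (h * xx 2) -
      (M : La) * (h * xx 2) := by
    push_cast
    ring
  rw [s1, map_neg, map_add, map_sub, D_cmul, D_cmul, D_cmul, D_mul 1 h, D_xx_same] at e1
  rw [s2, map_add, map_sub, D_cmul, D_cmul, D_cmul, D_mul 2 h, D_xx_same] at e2
  rw [e1, e2, D_mul 0, D_xx_same]
  push_cast at b1 b2 ⊢
  linear_combination (M : La) * b1 - (d : La) * b2

/-- The components of the curl of `g v`. -/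
theorem det_cu (L : Low α β d n M μ G Φ X Y Z) {s : ℤ} {g : La} (tg : Hm td (3 - n) g)
    (wg : Hm (wl α β) s g) {h : La} (hh : xx 0 * h = D 1 (g * Z) - D 2 (g * Y)) :
    xx 0 * det α β h (D 2 (g * X) - D 0 (g * Z)) (D 0 (g * Y) - D 1 (g * X)) =
      ((3 * M - d * (s + μ) : ℤ) : La) * (g * Φ) := by
  have hE := L.eW
  have hT := L.eT
  have a1 := eulerT (tg.mul L.tP)
  have a2 := eulerW (wg.mul L.wP)
  have c1 : ∀ j, D j (g * ((α : La) * (xx 1 * Y) + (β : La) * (xx 2 * Z))) =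
      (M : La) * D j (g * Φ) := by
    intro j
    rw [hE, ← D_cmul]
    congr 1
    ring
  have c2 : ∀ j, D j (g * (xx 0 * X + xx 1 * Y + xx 2 * Z)) = (d : La) * D j (g * Φ) := by
    intro j
    rw [hT, ← D_cmul]
    congr 1
    ring
  have p1 : g * ((α : La) * (xx 1 * Y) + (β : La) * (xx 2 * Z)) =
      (α : La) * (xx 1 * (g * Y)) + (β : La) * (xx 2 * (g * Z)) := by ring
  have p2 : g * (xx 0 * X + xx 1 * Y + xx 2 * Z) =
      xx 0 * (g * X) + xx 1 * (g * Y) + xx 2 * (g * Z) := by ring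
  have d10 := c1 0
  have d11 := c1 1
  have d12 := c1 2
  have d21 := c2 1
  have d22 := c2 2
  rw [p1, map_add, D_cmul, D_cmul, D_mul 0 (xx 1), D_mul 0 (xx 2), D_xx_ne (by decide),
    D_xx_ne (by decide)] at d10
  rw [p1, map_add, D_cmul, D_cmul, D_mul 1 (xx 1), D_mul 1 (xx 2), D_xx_same,
    D_xx_ne (by decide)] at d11
  rw [p1, map_add, D_cmul, D_cmul, D_mul 2 (xx 1), D_mul 2 (xx 2), D_xx_same,
    D_xx_ne (by decide)] at d12
  rw [p2, map_add, map_add, D_mul 1 (xx 0), D_mul 1 (xx 1), D_mul 1 (xx 2), D_xx_same,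
    D_xx_ne (by decide), D_xx_ne (by decide)] at d21
  rw [p2, map_add, map_add, D_mul 2 (xx 0), D_mul 2 (xx 1), D_mul 2 (xx 2), D_xx_same,
    D_xx_ne (by decide), D_xx_ne (by decide)] at d22
  have hn : (3 : ℤ) - n + n = 3 := by ring
  rw [hn] at a1
  unfold det
  push_cast at a1 a2 ⊢
  linear_combination xx 0 * d10 + xx 1 * d11 + xx 2 * d12 - (α : La) * xx 1 * d21 -
    (β : La) * xx 2 * d22 + (M : La) * a1 - (d : La) * a2 -
    ((α : La) - β) * (xx 1 * xx 2) * hh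

end Low

end MPb07157.O3
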