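import Pool.Agent.Lib.MP_b07157_agO3.W1

/-!
# The local lemma with weights: vector fields
-/

noncomputable section

namespace MPb07157.O3

open MPb07157.OB

variable {α β : ℕ} {F P : La} {v : Fin 3 → La} {d n M μ : ℕ}

theorem gcD0 (w : ℤ) (a : La) : gc (wl α β) w (D 0 a) = D 0 (gc (wl α β) w a) := by
  have := gc_D (wl α β) w 0 a
  rwa [wl_ex0, sub_zero] at this

theorem gcD1 (w : ℤ) (a : La) : gc (wl α β) w (D 1 a) = D 1 (gc (wl α β) (w + α) a) := by
  have := gc_D (wl α β) (w + α) 1 a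
  rwa [wl_ex1, add_sub_cancel_right] at this

theorem gcD2 (w : ℤ) (a : La) : gc (wl α β) w (D 2 a) = D 2 (gc (wl α β) (w + β) a) := by
  have := gc_D (wl α β) (w + β) 2 a
  rwa [wl_ex2, add_sub_cancel_right] at this

theorem gc_dv (w : ℤ) (t : Fin 3 → La) : gc (wl α β) w (dv t) =
    D 0 (gc (wl α β) w (t 0)) + D 1 (gc (wl α β) (w + α) (t 1)) +
      D 2 (gc (wl α β) (w + β) (t 2)) := by
  unfold dv
  rw [Fin.sum_univ_three, map_add, map_add, gcD0, gcD1, gcD2]

theorem cu0 (t : Fin 3 → La) : cu t 0 = D 1 (t 2) - D 2 (t 1) := rfl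

theorem cu1 (t : Fin 3 → La) : cu t 1 = D 2 (t 0) - D 0 (t 2) := rfl

theorem cu2 (t : Fin 3 → La) : cu t 2 = D 0 (t 1) - D 1 (t 0) := rfl

/-- A vector `g v` kills `F` after taking the curl. -/
theorem cu_kill (h : DL F P v d n) (g : La) : ∑ k, cu (fun j => g * v j) k * D k F = 0 := by
  have h1 : ∀ j, F * v j = P * D j F := fun j => (h.rel j).symm
  have key : P * (F * ∑ k, cu (fun j => g * v j) k * D k F) = 0 := by
    have e1 : ∀ j k, F * D k (g * v j) = D k (F * (g * v j)) - g * v j * D k F := by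
      intro j k
      have := D_mul k F (g * v j)
      linear_combination -this
    have e2 : ∀ j k, D k (F * (g * v j)) = g * P * D k (D j F) + D j F * D k (g * P) := by
      intro j k
      have : F * (g * v j) = (g * P) * D j F := by
        rw [mul_left_comm, h1]
        ring
      rw [this, D_mul]
    rw [Fin.sum_univ_three, cu0, cu1, cu2]
    have c1 := D_comm 1 2 F
    have c2 := D_comm 0 2 F
    have c3 := D_comm 0 1 F
    have a12 := e1 2 1
    have a21 := e1 1 2
    have a02 := e1 0 2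
    have a20 := e1 2 0
    have a10 := e1 1 0
    have a01 := e1 0 1
    rw [e2] at a12 a21 a02 a20 a10 a01
    have r0 := h.rel 0
    have r1 := h.rel 1
    have r2 := h.rel 2
    linear_combination P * D 0 F * (a12 - a21) + P * D 1 F * (a02 - a20) +
      P * D 2 F * (a10 - a01) + P * D 0 F * (g * P) * c1 - P * D 1 F * (g * P) * c2 +
      P * D 2 F * (g * P) * c3
  have h2 := (mul_eq_zero.1 key).resolve_left h.P0
  exact (mul_eq_zero.1 h2).resolve_left h.F0

theorem dv_cu' (t : Fin 3 → La) : dv (cu t) = 0 := dv_cu t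

theorem dv_sub' (s t : Fin 3 → La) : dv (fun k => s k - t k) = dv s - dv t := LocAux.dv_sub s t

theorem cu_reg {i : Fin 3} {a : La} (ha : Reg i a) {v : Fin 3 → La} (hv : ∀ k, Reg i (v k))
    (k : Fin 3) : Reg i (cu (fun j => a * v j) k) := by
  show Reg i (D (k + 1) (a * v (k + 2)) - D (k + 2) (a * v (k + 1)))
  exact ((ha.mul (hv _)).D _).sub ((ha.mul (hv _)).D _)

theorem cu_hm (h : DL F P v d n) {a : La} (ha : Hm td (3 - n) a) (k : Fin 3) :
    Hm td 1 (cu (fun j => a * v j) k) := by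
  have h1 : ∀ j l, Hm td 1 (D l (a * v j)) := by
    intro j l
    have h2 := (ha.mul (h.hv j)).D l
    rwa [td_ex, show (3 : ℤ) - n + (n - 1) - 1 = 1 by ring] at h2
  show Hm td 1 (D (k + 1) (a * v (k + 2)) - D (k + 2) (a * v (k + 1)))
  exact (h1 _ _).sub (h1 _ _)

theorem ge_v0 (h : DL F P v d n) (hV : VL α β F P v M μ) : Ge (wl α β) μ (v 0) := by
  have := ge_v h hV 0
  rwa [wl_ex0, sub_zero] at this

theorem ge_v1 (h : DL F P v d n) (hV : VL α β F P v M μ) : Ge (wl α β) ((μ : ℤ) - α) (v 1) := by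
  have := ge_v h hV 1
  rwa [wl_ex1] at this

theorem ge_v2 (h : DL F P v d n) (hV : VL α β F P v M μ) : Ge (wl α β) ((μ : ℤ) - β) (v 2) := by
  have := ge_v h hV 2
  rwa [wl_ex2] at this

theorem ge_D (i : Fin 3) {k : ℤ} {a : La} (h : Ge (wl α β) k a) :
    Ge (wl α β) (k - wl α β (ex i)) (D i a) := h.D i

/-- The weight of the curl. -/
theorem gv_cu (h : DL F P v d n) (hV : VL α β F P v M μ) {s : ℤ} {g : La}
    (hg : Ge (wl α β) s g) : Gv α β (s + μ - α - β) (cu fun j => g * v j) := by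
  have a0 := hg.mul (ge_v0 h hV)
  have a1 := hg.mul (ge_v1 h hV)
  have a2 := hg.mul (ge_v2 h hV)
  refine ⟨?_, ?_, ?_⟩
  · rw [cu0]
    have b1 := a2.D 1
    have b2 := a1.D 2
    rw [wl_ex1] at b1
    rw [wl_ex2] at b2
    exact (b1.mono (by omega)).sub (b2.mono (by omega))
  · rw [cu1]
    have b1 := a0.D 2
    have b2 := a2.D 0
    rw [wl_ex2] at b1
    rw [wl_ex0] at b2
    exact (b1.mono (by omega)).sub (b2.mono (by omega))
  · rw [cu2]
    have b1 := a1.D 0
    have b2 := a0.D 1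
    rw [wl_ex0] at b1
    rw [wl_ex1] at b2
    exact (b1.mono (by omega)).sub (b2.mono (by omega))

/-- The lowest part of the curl. -/
theorem low_cu (h : DL F P v d n) (hV : VL α β F P v M μ) {s w : ℤ} {g : La}
    (hg : Ge (wl α β) s g) (hw : w = s + μ - α - β) :
    gc (wl α β) w (cu (fun j => g * v j) 0) =
      D 1 (gc (wl α β) s g * gc (wl α β) ((μ : ℤ) - β) (v 2)) -
        D 2 (gc (wl α β) s g * gc (wl α β) ((μ : ℤ) - α) (v 1)) ∧
    gc (wl α β) (w + α) (cu (fun j => g * v j) 1) =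
      D 2 (gc (wl α β) s g * gc (wl α β) μ (v 0)) -
        D 0 (gc (wl α β) s g * gc (wl α β) ((μ : ℤ) - β) (v 2)) ∧
    gc (wl α β) (w + β) (cu (fun j => g * v j) 2) =
      D 0 (gc (wl α β) s g * gc (wl α β) ((μ : ℤ) - α) (v 1)) -
        D 1 (gc (wl α β) s g * gc (wl α β) μ (v 0)) := by
  have a0 := gc_mul_low hg (ge_v0 h hV)
  have a1 := gc_mul_low hg (ge_v1 h hV)
  have a2 := gc_mul_low hg (ge_v2 h hV)
  refine ⟨?_, ?_, ?_⟩
  · rw [cu0, map_sub, gcD1, gcD2, show w + (α : ℤ) = s + (μ - β) by omega, a2,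
      show w + (β : ℤ) = s + (μ - α) by omega, a1]
  · rw [cu1, map_sub, gcD2, gcD0, show w + (α : ℤ) + β = s + μ by omega, a0,
      show w + (α : ℤ) = s + (μ - β) by omega, a2]
  · rw [cu2, map_sub, gcD0, gcD1, show w + (β : ℤ) + α = s + μ by omega, a0,
      show w + (β : ℤ) = s + (μ - α) by omega, a1]

/-- The lowest part of a vector field which kills `F` up to high weight. -/
theorem kill_low (h : DL F P v d n) (hV : VL α β F P v M μ) {w : ℤ} {t : Fin 3 → La}
    (kt : Ge (wl α β) (w + M + 1) (∑ k, t k * D k F)) (hw : Gv α β w t) :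
    gc (wl α β) w (t 0) * gc (wl α β) μ (v 0) +
      gc (wl α β) (w + α) (t 1) * gc (wl α β) ((μ : ℤ) - α) (v 1) +
      gc (wl α β) (w + β) (t 2) * gc (wl α β) ((μ : ℤ) - β) (v 2) = 0 := by
  obtain ⟨h0, h1, h2⟩ := hw
  have k1 : gc (wl α β) (w + M) (∑ k, t k * D k F) = 0 := gc_eq_zero_of_lt kt (by omega)
  rw [Fin.sum_univ_three, map_add, map_add] at k1
  have a0 := gc_mul_low h0 (hV.F1.D 0)
  have a1 := gc_mul_low h1 (hV.F1.D 1)
  have a2 := gc_mul_low h2 (hV.F1.D 2)
  rw [wl_ex0, sub_zero, gcD0] at a0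
  rw [wl_ex1, gcD1, show w + (α : ℤ) + (M - α) = w + M by ring, sub_add_cancel] at a1
  rw [wl_ex2, gcD2, show w + (β : ℤ) + (M - β) = w + M by ring, sub_add_cancel] at a2
  rw [a0, a1, a2] at k1
  have L := low h hV
  apply mul_left_cancel₀ L.G0
  rw [mul_zero]
  linear_combination gc (wl α β) μ P * k1 - gc (wl α β) w (t 0) * L.l0 -
    gc (wl α β) (w + α) (t 1) * L.l1 - gc (wl α β) (w + β) (t 2) * L.l2

theorem Gv.sub' {w : ℤ} {s t : Fin 3 → La} (h : Gv α β w s) (h' : Gv α β w t) :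
    Gv α β w (fun k => s k - t k) := ⟨h.1.sub h'.1, h.2.1.sub h'.2.1, h.2.2.sub h'.2.2⟩

theorem Gv.succ {w : ℤ} {t : Fin 3 → La} (h : Gv α β w t) (h0 : gc (wl α β) w (t 0) = 0)
    (h1 : gc (wl α β) (w + α) (t 1) = 0) (h2 : gc (wl α β) (w + β) (t 2) = 0) :
    Gv α β (w + 1) t := by
  refine ⟨h.1.succ h0, ?_, ?_⟩
  · have := h.2.1.succ h1
    rwa [show w + (α : ℤ) + 1 = w + 1 + α by ring] at this
  · have := h.2.2.succ h2
    rwa [show w + (β : ℤ) + 1 = w + 1 + β by ring] at this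

theorem exists_gv (α β : ℕ) (t : Fin 3 → La) (k : ℤ) : ∃ N : ℕ, Gv α β (k - N) t := by
  obtain ⟨a, ha⟩ := exists_ge (wl α β) (t 0)
  obtain ⟨b, hb⟩ := exists_ge (wl α β) (t 1)
  obtain ⟨c, hc⟩ := exists_ge (wl α β) (t 2)
  exact ⟨a.natAbs + b.natAbs + c.natAbs + k.natAbs + α + β, ha.mono (by omega),
    hb.mono (by omega), hc.mono (by omega)⟩

/-- The components are regular in both variables below the weight `k`. -/
def Lr (α β : ℕ) (k : ℤ) (a : La) : Prop := ∀ m, wl α β m < k → OB.cf m a ≠ 0 → 0 ≤ m 1 ∧ 0 ≤ m 2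

theorem lr_left {a b : La} (r1 : Reg 1 a) (r2 : Reg 2 b) {k : ℤ} (hd : Ge (wl α β) k (a - b)) :
    Lr α β k a := by
  intro m hm ha
  have h1 : OB.cf m (a - b) = 0 := by
    by_contra hcon
    have := hd m hcon
    omega
  rw [map_sub, sub_eq_zero] at h1
  exact ⟨r1 m ha, r2 m (h1 ▸ ha)⟩

theorem lr_right {a b : La} (r1 : Reg 1 a) (r2 : Reg 2 b) {k : ℤ}
    (hd : Ge (wl α β) k (a - b)) : Lr α β k b := by
  intro m hm hb
  have h1 : OB.cf m (a - b) = 0 := by
    by_contra hcon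
    have := hd m hcon
    omega
  rw [map_sub, sub_eq_zero] at h1
  exact ⟨r1 m (by rw [h1]; exact hb), r2 m hb⟩

theorem Lr.ge {k : ℤ} {a : La} (h : Lr α β k a) (hk : k ≤ 0) : Ge (wl α β) k a := by
  intro m hm
  by_contra hcon
  obtain ⟨h1, h2⟩ := h m (by omega) hm
  apply hcon
  refine hk.trans ?_
  rw [wl_apply]
  positivity

theorem Lr.reg {k w : ℤ} {a : La} (h : Lr α β k a) (hw : w < k) (j : Fin 3) (hj : j ≠ 0) :
    Reg j (gc (wl α β) w a) := by
  intro m hm
  have h1 := gc_hm (wl α β) w a m hm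
  rw [cf_gc_of_eq h1] at hm
  obtain ⟨h2, h3⟩ := h m (by omega) hm
  fin_cases j
  · exact absurd rfl hj
  · exact h2
  · exact h3

/-- The components of low weight vanish. -/
theorem gv_of_lr (h : DL F P v d n) (hV : VL α β F P v M μ) {k : ℤ} (hk : k ≤ 0)
    {t : Fin 3 → La} (kt : Ge (wl α β) (M + 1) (∑ k, t k * D k F)) (l0 : Lr α β k (t 0))
    (l1 : Lr α β (k + α) (t 1)) (l2 : Lr α β (k + β) (t 2)) : Gv α β k t := by
  have L := low h hV
  have key : ∀ N : ℕ, Gv α β (k - N) t → Gv α β k t := by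
    intro N
    induction N with
    | zero =>
      intro h0
      simpa using h0
    | succ N ih =>
      intro hN
      apply ih
      set w : ℤ := k - ((N + 1 : ℕ) : ℤ) with hw
      have hwk : w < k := by
        rw [hw]
        push_cast
        omega
      have x0 : gc (wl α β) w (t 0) = 0 := gc_eq_zero_of_lt (l0.ge hk) hwk
      have kk := kill_low h hV (kt.mono (by omega)) hN
      rw [x0, zero_mul, zero_add] at kk
      have q1 : ∀ j, j ≠ 0 → Reg j (gc (wl α β) (w + α) (t 1)) := fun j hj =>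
        l1.reg (by omega) j hj
      have q2 : ∀ j, j ≠ 0 → Reg j (gc (wl α β) (w + β) (t 2)) := fun j hj =>
        l2.reg (by omega) j hj
      have kk' : xx 0 * 0 * gc (wl α β) μ (v 0) +
          gc (wl α β) (w + α) (t 1) * gc (wl α β) ((μ : ℤ) - α) (v 1) +
          gc (wl α β) (w + β) (t 2) * gc (wl α β) ((μ : ℤ) - β) (v 2) = 0 := by
        rw [mul_zero, zero_mul, zero_add]
        exact kk
      obtain ⟨b1, rb1, e1, f1, g1⟩ := L.dec (j := 1) (by decide) (Reg.zero 1) (q1 1 (by decide))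
        (q2 1 (by decide)) kk'
      obtain ⟨b2, rb2, e2, f2, g2⟩ := L.dec (j := 2) (by decide) (Reg.zero 2) (q1 2 (by decide))
        (q2 2 (by decide)) kk'
      have hb : b1 = b2 := by
        apply mul_left_cancel₀ L.P0
        rw [← e1, ← e2]
      subst hb
      have c1 := L.wP.ge.mul (Low.ge_of_reg L.hα L.hβ rb1 rb2)
      rw [← e1, add_zero] at c1
      have c2 : Hm (wl α β) (w + α + β) (Low.det α β 0 (gc (wl α β) (w + α) (t 1))
          (gc (wl α β) (w + β) (t 2))) := by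
        unfold Low.det
        have w1 := (wm_xx (α := α) (β := β) 1).mul (gc_hm (wl α β) (w + β) (t 2))
        have w2 := (wm_xx (α := α) (β := β) 2).mul (gc_hm (wl α β) (w + α) (t 1))
        rw [wl_ex1, show (α : ℤ) + (w + β) = w + α + β by ring] at w1
        rw [wl_ex2, show (β : ℤ) + (w + α) = w + α + β by ring] at w2
        have s1 : ∀ (c : ℕ) (u : La), (c : La) * u = (c : ℂ) • u := by
          intro c u
          rw [Algebra.smul_def, map_natCast]
        rw [zero_mul, zero_mul, mul_zero, sub_zero, s1, s1]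
        exact (w1.smul _).sub (w2.smul _)
      have c3 : Low.det α β 0 (gc (wl α β) (w + α) (t 1)) (gc (wl α β) (w + β) (t 2)) = 0 := by
        apply La.ext'
        intro m
        rw [map_zero]
        by_contra hm
        have a1 := c1 m hm
        have a2 := c2 m hm
        have := L.hμ
        omega
      have c4 : b1 = 0 := (mul_eq_zero.1 (e1.symm.trans c3)).resolve_left L.P0
      have hM := natCast_ne L.M0
      rw [c4, mul_zero, zero_mul, mul_zero, add_zero] at f1 g1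
      have x2 := (mul_eq_zero.1 f1.symm).resolve_left hM
      have x1 := (mul_eq_zero.1 (neg_eq_zero.1 g1.symm)).resolve_left hM
      have := hN.succ x0 x1 x2
      rwa [show w + 1 = k - (N : ℤ) by rw [hw]; push_cast; ring] at this
  obtain ⟨N, hN⟩ := exists_gv α β t k
  exact key N hN

end MPb07157.O3
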