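import Pool.Agent.Lib.MP_b07157_agO3.W2
import Pool.Agent.Lib.MP_b07157_agB3.LocR

/-!
# The local lemma with weights: resonances
-/

noncomputable section

namespace MPb07157.O3

open MPb07157.OB

variable {α β : ℕ} {F P : La} {v : Fin 3 → La} {d n M μ : ℕ}

theorem s1 (c : ℂ) (u : La) : c • u = algebraMap ℂ La c * u := Algebra.smul_def c u

theorem s2 (c : ℕ) (u : La) : (c : La) * u = (c : ℂ) • u := by
  rw [Algebra.smul_def, map_natCast]

/-- `1 / x`. -/
def xi : La := sg (-ex 0) 1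

theorem xx_xi : xx 0 * xi = 1 := LocR.inv_mul_cancel 0

theorem wm_xi : Hm (wl α β) 0 xi := Hm.sg (by rw [map_neg, wl_ex0, neg_zero]) 1

theorem hm_xi : Hm td (-1) xi := Hm.sg (by rw [map_neg, td_ex]) 1

theorem reg_xi {j : Fin 3} (hj : j ≠ 0) : Reg j xi := LocN.reg_neg_ex hj 1

theorem xx_mul_xi (a : La) : xx 0 * (xi * a) = a := by rw [← mul_assoc, xx_xi, one_mul]

theorem gc_xi (w : ℤ) (a : La) : gc (wl α β) w (xi * a) = xi * gc (wl α β) w a := by
  have := gc_mul_hm (wm_xi (α := α) (β := β)) w a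
  rwa [add_zero, mul_comm, mul_comm _ xi] at this

/-- A solution of `d F ∂_k ρ = 3 ρ ∂_k F` is regular in `x_k`. -/
theorem reg_of_log {k : Fin 3} {F ρ : La} (hF : F ≠ 0) (rF : Reg k F) (hd : 0 < d)
    (h : (d : La) * (F * D k ρ) = 3 * (ρ * D k F)) : Reg k ρ := by
  by_cases hρ : ρ = 0
  · rw [hρ]
    exact Reg.zero k
  obtain ⟨e, he, he0⟩ := exists_order (co k) hρ
  obtain ⟨p, hp, hp0⟩ := exists_order (co k) hF
  have hc : co k (ex k) = 1 := ex_same k
  have a1 : 0 ≤ p := by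
    by_contra hcon
    exact hp0 (gc_eq_zero_of_lt rF (by omega))
  have b1 := gc_mul_low hp (he.D k)
  have b2 := gc_mul_low he (hp.D k)
  rw [gc_D] at b1 b2
  have e3 : (3 : La) = ((3 : ℕ) : La) := by norm_num
  rw [e3, s2, s2] at h
  have b3 := congrArg (gc (co k) (p + (e - co k (ex k)))) h
  rw [map_smul, map_smul, b1, show p + (e - co k (ex k)) = e + (p - co k (ex k)) by ring,
    b2] at b3
  have c1 := LocR.cf_xD' k (gc_hm (co k) e ρ)
  have c2 := LocR.cf_xD' k (gc_hm (co k) p F)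
  have d1 : algebraMap ℂ La ((d : ℂ) * e - 3 * p) * (gc (co k) p F * gc (co k) e ρ) = 0 := by
    rw [s1] at b3 c1 c2
    rw [s1] at b3
    rw [map_sub, map_mul, map_mul]
    have e4 : algebraMap ℂ La ((3 : ℕ) : ℂ) = algebraMap ℂ La 3 := by norm_num
    rw [e4] at b3
    linear_combination sg (ex k) 1 * b3 - algebraMap ℂ La (d : ℂ) * gc (co k) p F * c1 +
      algebraMap ℂ La 3 * gc (co k) e ρ * c2
  have d2 : ((d : ℂ) * e - 3 * p) = 0 := by
    have := (mul_eq_zero.1 d1).resolve_right (mul_ne_zero hp0 he0)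
    exact (map_eq_zero_iff _ (algebraMap ℂ La).injective).1 this
  have d3 : (d : ℤ) * e = 3 * p := by
    have : ((d * e - 3 * p : ℤ) : ℂ) = 0 := by
      push_cast
      exact d2
    have := Int.cast_eq_zero.1 this
    omega
  have d4 : 0 ≤ e := by
    by_contra hcon
    have : (d : ℤ) * e < 0 := mul_neg_of_pos_of_neg (by exact_mod_cast hd) (by omega)
    omega
  exact he.mono d4

namespace Low

variable {G Φ X Y Z : La}

/-- The curl of `δ v` kills the lowest part. -/
theorem kill_cu (L : Low α β d n M μ G Φ X Y Z) (δ : La) :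
    (D 1 (δ * Z) - D 2 (δ * Y)) * X + (D 2 (δ * X) - D 0 (δ * Z)) * Y +
      (D 0 (δ * Y) - D 1 (δ * X)) * Z = 0 := by
  have key : Φ * (G * ((D 1 (δ * Z) - D 2 (δ * Y)) * D 0 G + (D 2 (δ * X) - D 0 (δ * Z)) * D 1 G +
      (D 0 (δ * Y) - D 1 (δ * X)) * D 2 G)) = 0 := by
    have e1 : ∀ (V : La) k, G * D k (δ * V) = D k (G * (δ * V)) - δ * V * D k G := by
      intro V k
      have := D_mul k G (δ * V)
      linear_combination -this
    have e2 : ∀ (V : La) (j k : Fin 3), Φ * D j G = G * V →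
        D k (G * (δ * V)) = δ * Φ * D k (D j G) + D j G * D k (δ * Φ) := by
      intro V j k hV
      have : G * (δ * V) = (δ * Φ) * D j G := by
        linear_combination -δ * hV
      rw [this, D_mul]
    have c1 := D_comm 1 2 G
    have c2 := D_comm 0 2 G
    have c3 := D_comm 0 1 G
    have a12 := e1 Z 1
    have a21 := e1 Y 2
    have a02 := e1 X 2
    have a20 := e1 Z 0
    have a10 := e1 Y 0
    have a01 := e1 X 1
    rw [e2 _ _ _ L.l2] at a12 a20
    rw [e2 _ _ _ L.l1] at a21 a10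
    rw [e2 _ _ _ L.l0] at a02 a01
    have r0 := L.l0
    have r1 := L.l1
    have r2 := L.l2
    linear_combination Φ * D 0 G * (a12 - a21) + Φ * D 1 G * (a02 - a20) +
      Φ * D 2 G * (a10 - a01) + Φ * D 0 G * (δ * Φ) * c1 - Φ * D 1 G * (δ * Φ) * c2 +
      Φ * D 2 G * (δ * Φ) * c3
  have h2 := (mul_eq_zero.1 ((mul_eq_zero.1 key).resolve_left L.P0)).resolve_left L.G0
  apply mul_left_cancel₀ L.G0
  rw [mul_zero]
  linear_combination Φ * h2 - (D 1 (δ * Z) - D 2 (δ * Y)) * L.l0 -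
    (D 2 (δ * X) - D 0 (δ * Z)) * L.l1 - (D 0 (δ * Y) - D 1 (δ * X)) * L.l2

/-- At a resonant weight the curl of `δ v` determines `δ`. -/
theorem inj (L : Low α β d n M μ G Φ X Y Z) {s : ℤ} {δ : La} (eδ : Hm td (3 - n) δ)
    (wδ : Hm (wl α β) s δ) (h3 : (3 * M : ℤ) = d * (s + μ)) (hs : s + μ < α + β)
    (h0 : D 1 (δ * Z) - D 2 (δ * Y) = 0) : δ = 0 := by
  have hM := natCast_ne L.M0
  have k0 := L.kill_cu δ
  have y1 := L.det_cu eδ wδ (h := 0) (by rw [h0, mul_zero])
  have y2 : ((3 * M - d * (s + μ) : ℤ) : La) = 0 := by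
    rw [h3, sub_self, Int.cast_zero]
  rw [y2, zero_mul] at y1
  have y3 := (mul_eq_zero.1 y1).resolve_left (xx_ne 0)
  have x1 := L.det_mul (h := 0) (ty := D 2 (δ * X) - D 0 (δ * Z))
    (tz := D 0 (δ * Y) - D 1 (δ * X)) (by linear_combination k0 - X * h0)
  rw [y3, mul_zero, mul_zero, zero_mul, zero_mul, mul_zero, mul_zero, add_zero, add_zero] at x1
  have z2 : D 0 (δ * Y) - D 1 (δ * X) = 0 :=
    (mul_eq_zero.1 ((mul_eq_zero.1 x1.1.symm).resolve_left L.P0)).resolve_left hM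
  have z1 : D 2 (δ * X) - D 0 (δ * Z) = 0 :=
    (mul_eq_zero.1 (neg_eq_zero.1 ((mul_eq_zero.1 x1.2.symm).resolve_left L.P0))).resolve_left hM
  have hT := L.eT
  have tY := eulerT (eδ.mul L.tY)
  have tZ := eulerT (eδ.mul L.tZ)
  rw [show (3 : ℤ) - n + (n - 1) = 2 by ring] at tY tZ
  push_cast at tY tZ
  have c2 : ∀ j, D j (δ * (xx 0 * X + xx 1 * Y + xx 2 * Z)) = (d : La) * D j (δ * Φ) := by
    intro j
    rw [hT, ← D_cmul]
    congr 1
    ring
  have p2 : δ * (xx 0 * X + xx 1 * Y + xx 2 * Z) =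
      xx 0 * (δ * X) + xx 1 * (δ * Y) + xx 2 * (δ * Z) := by ring
  have d21 := c2 1
  have d22 := c2 2
  rw [p2, map_add, map_add, D_mul 1 (xx 0), D_mul 1 (xx 1), D_mul 1 (xx 2), D_xx_same,
    D_xx_ne (by decide), D_xx_ne (by decide)] at d21
  rw [p2, map_add, map_add, D_mul 2 (xx 0), D_mul 2 (xx 1), D_mul 2 (xx 2), D_xx_same,
    D_xx_ne (by decide), D_xx_ne (by decide)] at d22
  have r1 : (d : La) * D 1 (δ * Φ) = 3 * (δ * Y) := by
    linear_combination tY - d21 - xx 0 * z2 + xx 2 * h0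
  have r2 : (d : La) * D 2 (δ * Φ) = 3 * (δ * Z) := by
    linear_combination tZ - d22 + xx 0 * z1 - xx 1 * h0
  have g1 : Reg 1 (δ * Φ) := by
    apply reg_of_log L.G0 (L.rG 1 (by decide)) L.hd
    linear_combination G * r1 - 3 * δ * L.l1
  have g2 : Reg 2 (δ * Φ) := by
    apply reg_of_log L.G0 (L.rG 2 (by decide)) L.hd
    linear_combination G * r2 - 3 * δ * L.l2
  have e3 : ∀ u : La, (3 : La) * u = (3 : ℂ) • u := by
    intro u
    rw [Algebra.smul_def, map_ofNat]
  have ru : ∀ {j i : Fin 3} {u : La}, Reg j (δ * Φ) → (d : La) * D i (δ * Φ) = 3 * u →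
      Reg j u := by
    intro j i u hj hu
    have h1 : Reg j ((d : La) * D i (δ * Φ)) := by
      rw [s2]
      exact (hj.D i).smul _
    rw [hu, e3] at h1
    have h2 := h1.smul (3 : ℂ)⁻¹
    rwa [smul_smul, inv_mul_cancel₀ (by norm_num), one_smul] at h2
  have q1 := L.cop_both g1 g2 (u₁ := δ * Y) (u₂ := δ * Z) (ru g1 r1) (ru g2 r1) (ru g1 r2)
    (ru g2 r2) (by ring) (by ring)
  have q2 := wδ.mul L.wP
  have q3 : δ * Φ = 0 := by
    apply La.ext'
    intro m
    rw [map_zero]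
    by_contra hm
    have a1 := q1 m hm
    have a2 := q2 m hm
    have := L.hμ
    omega
  exact (mul_eq_zero.1 q3).resolve_right L.P0

theorem hm_det {e : ℤ} {h ty tz : La} (hh : Hm td (e - 1) h) (hy : Hm td e ty) (hz : Hm td e tz) :
    Hm td (e + 1) (det α β h ty tz) := by
  unfold det
  have a1 := (hm_xx 1).mul hz
  have a2 := (hm_xx 2).mul hy
  have a3 := (hh.mul (hm_xx 1)).mul (hm_xx 2)
  rw [show (1 : ℤ) + e = e + 1 by ring] at a1 a2
  rw [show e - 1 + 1 + 1 = e + 1 by ring] at a3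
  have e4 : ((α : La) - β) * (h * xx 1 * xx 2) = (α : La) * (h * xx 1 * xx 2) -
      (β : La) * (h * xx 1 * xx 2) := by ring
  rw [e4, s2, s2, s2, s2]
  exact ((a1.smul _).sub (a2.smul _)).sub ((a3.smul _).sub (a3.smul _))

theorem wm_det {w : ℤ} {h ty tz : La} (hh : Hm (wl α β) w h) (hy : Hm (wl α β) (w + α) ty)
    (hz : Hm (wl α β) (w + β) tz) : Hm (wl α β) (w + α + β) (det α β h ty tz) := by
  unfold det
  have a1 := (wm_xx (α := α) (β := β) 1).mul hz
  have a2 := (wm_xx (α := α) (β := β) 2).mul hy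
  have a3 := (hh.mul (wm_xx (α := α) (β := β) 1)).mul (wm_xx (α := α) (β := β) 2)
  rw [wl_ex1] at a1 a3
  rw [wl_ex2] at a2 a3
  rw [show (α : ℤ) + (w + β) = w + α + β by ring] at a1
  rw [show (β : ℤ) + (w + α) = w + α + β by ring] at a2
  have e4 : ((α : La) - β) * (h * xx 1 * xx 2) = (α : La) * (h * xx 1 * xx 2) -
      (β : La) * (h * xx 1 * xx 2) := by ring
  rw [e4, s2, s2, s2, s2]
  exact ((a1.smul _).sub (a2.smul _)).sub ((a3.smul _).sub (a3.smul _))

end Low

/-- The part of weight `w` of a vector field which kills `F`. -/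
theorem dec_gv (h : DL F P v d n) (hV : VL α β F P v M μ) {j : Fin 3} (hj : j ≠ 0) {w : ℤ}
    {η : Fin 3 → La} (rη : ∀ k, Reg j (η k)) (eη : ∀ k, Hm td 1 (η k))
    (kη : Ge (wl α β) (w + M + 1) (∑ k, η k * D k F)) (hη : Gv α β w η) :
    ∃ b, Reg j b ∧ Hm td (2 - n) b ∧ Hm (wl α β) (w + α + β - μ) b ∧
      Low.det α β (xi * gc (wl α β) w (η 0)) (gc (wl α β) (w + α) (η 1))
        (gc (wl α β) (w + β) (η 2)) = gc (wl α β) μ P * b ∧
      gc (wl α β) ((μ : ℤ) - α) (v 1) * b = (M : La) * gc (wl α β) (w + β) (η 2) +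
        ((d : La) * β - M) * ((xi * gc (wl α β) w (η 0)) * xx 2) ∧
      gc (wl α β) ((μ : ℤ) - β) (v 2) * b = -((M : La) * gc (wl α β) (w + α) (η 1) +
        ((d : La) * α - M) * ((xi * gc (wl α β) w (η 0)) * xx 1)) ∧
      (M : La) * gc (wl α β) w (dv η) =
        (D 2 (gc (wl α β) ((μ : ℤ) - α) (v 1) * b) - D 1 (gc (wl α β) ((μ : ℤ) - β) (v 2) * b)) +
          ((3 * M - d * (α + β + w) : ℤ) : La) * (xi * gc (wl α β) w (η 0)) := by
  have L := low h hV
  have kk := kill_low h hV kη hη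
  rw [← xx_mul_xi (gc (wl α β) w (η 0))] at kk
  obtain ⟨b, rb, hb, b1, b2⟩ := L.dec hj ((reg_xi hj).mul ((rη 0).gc _ _)) ((rη 1).gc _ _)
    ((rη 2).gc _ _) kk
  have t0 : Hm td 0 (xi * gc (wl α β) w (η 0)) := by
    have := hm_xi.mul ((eη 0).gc (wl α β) w)
    rwa [neg_add_cancel] at this
  have w0 : Hm (wl α β) w (xi * gc (wl α β) w (η 0)) := by
    have := wm_xi.mul (gc_hm (wl α β) w (η 0))
    rwa [zero_add] at this
  have m1 := Low.hm_det (α := α) (β := β) (e := 1) (by rwa [sub_self]) ((eη 1).gc (wl α β) (w + α))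
    ((eη 2).gc (wl α β) (w + β))
  have m2 := Low.wm_det w0 (gc_hm (wl α β) (w + α) (η 1)) (gc_hm (wl α β) (w + β) (η 2))
  rw [hb] at m1 m2
  have m3 := LocR.hm_of_mul L.tP L.P0 m1
  have m4 := LocR.hm_of_mul L.wP L.P0 m2
  have e1 := Low.div t0 w0 b1 b2
  rw [xx_mul_xi, ← gc_dv] at e1
  exact ⟨b, rb, m3, m4, hb, b1, b2, e1⟩

/-- At a resonant point the additional relation makes the part of weight `k` of `t_x` the
`x`-component of a curl. -/
theorem res_low (h : DL F P v d n) (hV : VL α β F P v M μ) {k : ℤ} (hk : k < 0)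
    (h3 : (3 * M : ℤ) = d * (α + β + k)) {j : Fin 3} (hj : j ≠ 0) {tx : La}
    (htx : Ge (wl α β) k tx) (N : ℕ) : ∀ η : Fin 3 → La,
    (∀ k, Reg j (η k)) → (∀ k, Hm td 1 (η k)) → Ge (wl α β) M (∑ k, η k * D k F) →
    Ge (wl α β) 0 (xi * tx - dv η) → Gv α β (k - N) η →
    ∃ g, Reg j g ∧ Hm td (3 - n) g ∧ Hm (wl α β) (k + α + β - μ) g ∧
      D 1 (g * gc (wl α β) ((μ : ℤ) - β) (v 2)) - D 2 (g * gc (wl α β) ((μ : ℤ) - α) (v 1)) =
        gc (wl α β) k tx := by
  have L := low h hV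
  have hM := natCast_ne L.M0
  have hMc : (M : ℂ) ≠ 0 := by exact_mod_cast L.M0
  induction N with
  | zero =>
    intro η rη eη kη dη hη
    rw [Nat.cast_zero, sub_zero] at hη
    obtain ⟨b, rb, tb, wb, hb, b1, b2, e1⟩ := dec_gv h hV hj rη eη (kη.mono (by omega)) hη
    have e2 : gc (wl α β) k (xi * tx - dv η) = 0 := gc_eq_zero_of_lt dη hk
    rw [map_sub, gc_xi, sub_eq_zero] at e2
    rw [← e2, h3, sub_self, Int.cast_zero, zero_mul, add_zero] at e1
    refine ⟨(-(M : ℂ)⁻¹) • (xx 0 * b), ((reg_xx j 0).mul rb).smul _, ?_, ?_, ?_⟩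
    · have := ((hm_xx 0).mul tb).smul (-(M : ℂ)⁻¹)
      rwa [show (1 : ℤ) + (2 - n) = 3 - n by ring] at this
    · have := ((wm_xx (α := α) (β := β) 0).mul wb).smul (-(M : ℂ)⁻¹)
      rwa [wl_ex0, zero_add] at this
    · have e3 : ∀ a : La, (-(M : ℂ)⁻¹) • (xx 0 * b) * a = (-(M : ℂ)⁻¹) • (xx 0 * (a * b)) := by
        intro a
        rw [smul_mul_assoc, mul_assoc, mul_comm b]
      rw [e3, e3, Derivation.map_smul, Derivation.map_smul, D_mul 1 (xx 0), D_mul 2 (xx 0),
        D_xx_ne (by decide), D_xx_ne (by decide), mul_zero, mul_zero, add_zero, add_zero,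
        ← smul_sub, ← mul_sub]
      have e4 : D 1 (gc (wl α β) ((μ : ℤ) - β) (v 2) * b) -
          D 2 (gc (wl α β) ((μ : ℤ) - α) (v 1) * b) =
          -((M : La) * (xi * gc (wl α β) k tx)) := by
        rw [e1]
        ring
      rw [e4, s2, mul_neg, mul_smul_comm, xx_mul_xi, smul_neg, smul_smul, neg_mul,
        inv_mul_cancel₀ hMc, neg_smul, neg_neg, one_smul]
  | succ N ih =>
    intro η rη eη kη dη hη
    set w : ℤ := k - ((N + 1 : ℕ) : ℤ) with hw
    have hw2 : w < k := by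
      rw [hw]
      push_cast
      omega
    obtain ⟨b, rb, tb, wb, hb, b1, b2, e1⟩ := dec_gv h hV hj rη eη (kη.mono (by omega)) hη
    have e2 : gc (wl α β) w (dv η) = 0 := by
      have a1 : Ge (wl α β) k (xi * tx) := by
        have := (wm_xi (α := α) (β := β)).ge.mul htx
        rwa [zero_add] at this
      have a2 : dv η = xi * tx - (xi * tx - dv η) := by ring
      rw [a2]
      exact gc_eq_zero_of_lt (a1.sub (dη.mono hk.le)) hw2
    rw [e2, mul_zero] at e1
    -- the curl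
    set K : ℤ := 3 * M - d * (α + β + w) with hK
    have hK0 : K ≠ 0 := by
      have hd : (0 : ℤ) < d := by exact_mod_cast h.hd
      have : K = d * (k - w) := by
        rw [hK, h3]
        ring
      rw [this]
      exact mul_ne_zero hd.ne' (by omega)
    have hKc : (K : ℂ) ≠ 0 := by exact_mod_cast hK0
    set g : La := (K : ℂ)⁻¹ • (xx 0 * b) with hg
    have rg : Reg j g := ((reg_xx j 0).mul rb).smul _
    have eg : Hm td (3 - n) g := by
      have := ((hm_xx 0).mul tb).smul (K : ℂ)⁻¹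
      rwa [show (1 : ℤ) + (2 - n) = 3 - n by ring] at this
    have wg : Hm (wl α β) (w + α + β - μ) g := by
      have := ((wm_xx (α := α) (β := β) 0).mul wb).smul (K : ℂ)⁻¹
      rwa [wl_ex0, zero_add] at this
    have gw := gv_cu h hV wg.ge
    rw [show w + α + β - (μ : ℤ) + μ - α - β = w by ring] at gw
    have rcu := fun k => cu_reg rg (fun k => h.rv k j hj) k
    have ecu := fun k => cu_hm h eg k
    obtain ⟨b', _, _, _, hb', b1', b2', e1'⟩ := dec_gv h hV hj rcu ecu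
      (by rw [cu_kill h g]; exact Ge.zero _ _) gw
    rw [dv_cu', map_zero, mul_zero] at e1'
    obtain ⟨l0, l1, l2⟩ := low_cu h hV wg.ge (w := w) (by ring)
    rw [wg.gc_eq] at l0 l1 l2
    have y1 := L.det_cu eg wg (h := xi * gc (wl α β) w (cu (fun j => g * v j) 0))
      (by rw [xx_mul_xi, l0])
    rw [← l1, ← l2, hb', show w + α + β - (μ : ℤ) + μ = α + β + w by ring, ← hK] at y1
    have y2 : b' = b := by
      apply mul_left_cancel₀ L.P0
      apply mul_left_cancel₀ (xx_ne 0)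
      rw [y1, ← cast_smul, hg, smul_mul_assoc, smul_smul, mul_inv_cancel₀ hKc, one_smul]
      ring
    rw [y2] at b1' b2' e1'
    -- comparison
    have z0 : gc (wl α β) w (η 0) = gc (wl α β) w (cu (fun j => g * v j) 0) := by
      have a1 := intCast_ne hK0
      have a2 := e1.symm.trans e1'
      have a3 := mul_left_cancel₀ a1 (add_left_cancel a2)
      have a4 := congrArg (fun u => xx 0 * u) a3
      simp only [xx_mul_xi] at a4
      exact a4
    have z2 : gc (wl α β) (w + β) (η 2) = gc (wl α β) (w + β) (cu (fun j => g * v j) 2) := by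
      rw [b1, z0] at b1'
      exact mul_left_cancel₀ hM (add_right_cancel b1')
    have z1 : gc (wl α β) (w + α) (η 1) = gc (wl α β) (w + α) (cu (fun j => g * v j) 1) := by
      rw [b2, z0] at b2'
      exact mul_left_cancel₀ hM (add_right_cancel (neg_injective b2'))
    apply ih (fun k => η k - cu (fun j => g * v j) k)
    · exact fun k => (rη k).sub (rcu k)
    · exact fun k => (eη k).sub (ecu k)
    · have a1 : ∑ k, (η k - cu (fun j => g * v j) k) * D k F = ∑ k, η k * D k F := by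
        simp only [sub_mul]
        rw [Finset.sum_sub_distrib, cu_kill h g, sub_zero]
      rw [a1]
      exact kη
    · rw [dv_sub', dv_cu', sub_zero]
      exact dη
    · have := (hη.sub' gw).succ (by rw [map_sub, z0, sub_self]) (by rw [map_sub, z1, sub_self])
        (by rw [map_sub, z2, sub_self])
      rwa [show w + 1 = k - (N : ℤ) by rw [hw]; push_cast; ring] at this

end MPb07157.O3
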