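import Pool.Agent.Lib.MP_b07157_agO3.W3

/-!
# The local lemma with weights
-/

noncomputable section

namespace MPb07157.O3

open MPb07157.OB

variable {α β : ℕ} {F P : La} {v : Fin 3 → La} {d n M μ : ℕ}

/-- The resonant case is excluded by the additional relations. -/
theorem res_contra (h : DL F P v d n) (hV : VL α β F P v M μ) {k s : ℤ} (hk : k < 0)
    (hs : k = s + μ - α - β) (h3 : (3 * M : ℤ) = d * (α + β + k)) {t₁ t₂ : Fin 3 → La}
    (R₁ : RW α β F 1 M t₁) (R₂ : RW α β F 2 M t₂) (p0 : Ge (wl α β) k (t₁ 0))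
    (q0 : Ge (wl α β) k (t₂ 0)) {g : La} (hg : Hm td (3 - n) g) (hgs : Ge (wl α β) s g)
    (hs0 : gc (wl α β) s g ≠ 0)
    (hcu : Ge (wl α β) (α + β) (t₁ 0 - t₂ 0 - cu (fun j => g * v j) 0))
    (hn : ∀ m, OB.cf m g ≠ 0 → m 1 < 0 ∧ m 2 < 0) : False := by
  have L := low h hV
  obtain ⟨η₁, rη₁, eη₁, kη₁, dη₁⟩ := R₁
  obtain ⟨η₂, rη₂, eη₂, kη₂, dη₂⟩ := R₂
  obtain ⟨N₁, hN₁⟩ := exists_gv α β η₁ k
  obtain ⟨N₂, hN₂⟩ := exists_gv α β η₂ k
  obtain ⟨g₁, r1, e1, w1, c1⟩ := res_low h hV hk h3 (by decide) p0 N₁ η₁ rη₁ eη₁ kη₁ dη₁ hN₁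
  obtain ⟨g₂, r2, e2, w2, c2⟩ := res_low h hV hk h3 (by decide) q0 N₂ η₂ rη₂ eη₂ kη₂ dη₂ hN₂
  have hsk : k + α + β - μ = s := by omega
  rw [hsk] at w1 w2
  have c := gc_eq_zero_of_lt hcu (show k < α + β by omega)
  rw [map_sub, map_sub, (low_cu h hV hgs hs).1, sub_eq_zero] at c
  have e : g₁ - g₂ - gc (wl α β) s g = 0 := by
    apply L.inj ((e1.sub e2).sub (hg.gc _ _)) ((w1.sub w2).sub (gc_hm _ _ _))
    · rw [h3]
      congr 1
      omega
    · have := hV.hα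
      omega
    · simp only [sub_mul, map_sub]
      linear_combination c1 - c2 + c
  obtain ⟨m, hm⟩ : ∃ m, OB.cf m (gc (wl α β) s g) ≠ 0 := by
    by_contra hcon
    push Not at hcon
    apply hs0
    apply La.ext'
    intro m
    rw [hcon m, map_zero]
  have hw := gc_hm (wl α β) s g m hm
  obtain ⟨a1, a2⟩ := hn m (by rwa [cf_gc_of_eq hw] at hm)
  have e' := congrArg (OB.cf m) e
  rw [map_sub, map_sub, map_zero] at e'
  have z1 : OB.cf m g₁ = 0 := by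
    by_contra hne
    have : 0 ≤ m 1 := r1 m hne
    omega
  have z2 : OB.cf m g₂ = 0 := by
    by_contra hne
    have : 0 ≤ m 2 := r2 m hne
    omega
  rw [z1, z2, sub_zero, zero_sub, neg_eq_zero] at e'
  exact hm e'

/-- **The local lemma with weights.** -/
theorem locW (h : DL F P v d n) (hV : VL α β F P v M μ) {t₁ t₂ : Fin 3 → La}
    (R₁ : RW α β F 1 M t₁) (R₂ : RW α β F 2 M t₂) (r₁ : ∀ k, Reg 1 (t₁ k))
    (r₂ : ∀ k, Reg 2 (t₂ k)) (e₁ : ∀ k, Hm td 1 (t₁ k)) (e₂ : ∀ k, Hm td 1 (t₂ k))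
    (k₁ : Ge (wl α β) (M + 1) (∑ k, t₁ k * D k F))
    (k₂ : Ge (wl α β) (M + 1) (∑ k, t₂ k * D k F)) {c : ℂ} (hc : c ≠ 0)
    (d₁ : Ge (wl α β) 1 (dv t₁ - sg 0 c)) {g : La} (hg : Hm td (3 - n) g)
    (hcu : ∀ k, Ge (wl α β) (α + β) (t₁ k - t₂ k - cu (fun j => g * v j) k))
    (hn : ∀ m, OB.cf m g ≠ 0 → m 1 < 0 ∧ m 2 < 0) :
    Ge (wl α β) (α + β + 1 - μ) g := by
  intro m₀ hm₀
  by_contra hcon
  have L := low h hV
  have hα : (0 : ℤ) < α := by exact_mod_cast hV.hα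
  have hβ : (0 : ℤ) < β := by exact_mod_cast hV.hβ
  have hg0 : g ≠ 0 := by
    rintro rfl
    exact hm₀ (map_zero _)
  obtain ⟨s, hs, hs0⟩ := exists_order (wl α β) hg0
  have hsm : s ≤ α + β - μ := by
    have := hs m₀ hm₀
    omega
  obtain ⟨m₁, hm₁⟩ : ∃ m, OB.cf m (gc (wl α β) s g) ≠ 0 := by
    by_contra hcon2
    push Not at hcon2
    apply hs0
    apply La.ext'
    intro m
    rw [hcon2 m, map_zero]
  have hw₁ := gc_hm (wl α β) s g m₁ hm₁
  have hg₁ : OB.cf m₁ g ≠ 0 := by rwa [cf_gc_of_eq hw₁] at hm₁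
  obtain ⟨ny, nz⟩ := hn m₁ hg₁
  have hs2 : s ≤ -(α + β) := by
    rw [wl_apply] at hw₁
    nlinarith
  -- orders of the curl
  obtain ⟨k, hk⟩ : ∃ k, k = s + μ - α - β := ⟨_, rfl⟩
  have hk0 : k ≤ 0 := by omega
  have gw := gv_cu h hV hs
  rw [← hk] at gw
  have o0 : Ge (wl α β) k (t₁ 0 - t₂ 0) := by
    have := gw.1.add ((hcu 0).mono (show k ≤ α + β by omega))
    rwa [add_sub_cancel] at this
  have o1 : Ge (wl α β) (k + α) (t₁ 1 - t₂ 1) := by
    have := gw.2.1.add ((hcu 1).mono (show k + α ≤ α + β by omega))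
    rwa [add_sub_cancel] at this
  have o2 : Ge (wl α β) (k + β) (t₁ 2 - t₂ 2) := by
    have := gw.2.2.add ((hcu 2).mono (show k + β ≤ α + β by omega))
    rwa [add_sub_cancel] at this
  have P1 := gv_of_lr h hV hk0 k₁ (lr_left (r₁ 0) (r₂ 0) o0) (lr_left (r₁ 1) (r₂ 1) o1)
    (lr_left (r₁ 2) (r₂ 2) o2)
  have P2 := gv_of_lr h hV hk0 k₂ (lr_right (r₁ 0) (r₂ 0) o0) (lr_right (r₁ 1) (r₂ 1) o1)
    (lr_right (r₁ 2) (r₂ 2) o2)
  obtain ⟨b₁, rb₁, tb₁, wb₁, x1, y1, z1, v1⟩ :=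
    dec_gv h hV (by decide) r₁ e₁ (k₁.mono (by omega)) P1
  obtain ⟨b₂, rb₂, -, -, x2, y2, z2, -⟩ :=
    dec_gv h hV (by decide) r₂ e₂ (k₂.mono (by omega)) P2
  -- comparison
  obtain ⟨l0, l1, l2⟩ := low_cu h hV hs hk
  have c0 : gc (wl α β) k (t₁ 0) - gc (wl α β) k (t₂ 0) =
      gc (wl α β) k (cu (fun j => g * v j) 0) := by
    have := gc_eq_zero_of_lt (hcu 0) (show k < α + β by omega)
    rwa [map_sub, map_sub, sub_eq_zero] at this
  have c1 : gc (wl α β) (k + α) (t₁ 1) - gc (wl α β) (k + α) (t₂ 1) =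
      gc (wl α β) (k + α) (cu (fun j => g * v j) 1) := by
    have := gc_eq_zero_of_lt (hcu 1) (show k + α < α + β by omega)
    rwa [map_sub, map_sub, sub_eq_zero] at this
  have c2 : gc (wl α β) (k + β) (t₁ 2) - gc (wl α β) (k + β) (t₂ 2) =
      gc (wl α β) (k + β) (cu (fun j => g * v j) 2) := by
    have := gc_eq_zero_of_lt (hcu 2) (show k + β < α + β by omega)
    rwa [map_sub, map_sub, sub_eq_zero] at this
  have q1 := L.det_cu (hg.gc (wl α β) s) (gc_hm (wl α β) s g)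
    (h := xi * gc (wl α β) k (cu (fun j => g * v j) 0)) (by rw [xx_mul_xi, l0])
  rw [← l1, ← l2] at q1
  have q2 : Low.det α β (xi * gc (wl α β) k (cu (fun j => g * v j) 0))
      (gc (wl α β) (k + α) (cu (fun j => g * v j) 1))
      (gc (wl α β) (k + β) (cu (fun j => g * v j) 2)) = gc (wl α β) μ P * (b₁ - b₂) := by
    rw [← c0, ← c1, ← c2]
    unfold Low.det at x1 x2 ⊢
    linear_combination x1 - x2
  rw [q2] at q1
  have q3 : xx 0 * (b₁ - b₂) = ((3 * M - d * (s + μ) : ℤ) : ℂ) • gc (wl α β) s g := by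
    apply mul_left_cancel₀ L.P0
    rw [cast_smul]
    linear_combination q1
  have q4 : ((3 * M - d * (s + μ) : ℤ) : ℂ) = 0 := by
    have w1 : OB.cf m₁ (xx 0 * b₁) = 0 := by
      by_contra hne
      have : 0 ≤ m₁ 1 := ((reg_xx 1 0).mul rb₁) m₁ hne
      omega
    have w2 : OB.cf m₁ (xx 0 * b₂) = 0 := by
      by_contra hne
      have : 0 ≤ m₁ 2 := ((reg_xx 2 0).mul rb₂) m₁ hne
      omega
    have w3 := congrArg (OB.cf m₁) q3
    rw [mul_sub, map_sub, w1, w2, sub_zero, map_smul, smul_eq_mul] at w3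
    exact (mul_eq_zero.1 w3.symm).resolve_right hm₁
  have q5 : 3 * (M : ℤ) - d * (s + μ) = 0 := by exact_mod_cast q4
  have q6 : s + μ = α + β + k := by omega
  have h3 : (3 * M : ℤ) = d * (α + β + k) := by
    rw [← q6]
    omega
  rcases lt_or_eq_of_le hk0 with hk1 | hk1
  · exact res_contra h hV hk1 hk h3 R₁ R₂ P1.1 P2.1 hg hs hs0 (hcu 0) hn
  · subst hk1
    have a1 : b₁ = b₂ := by
      rw [q4, zero_smul] at q3
      exact sub_eq_zero.1 ((mul_eq_zero.1 q3).resolve_left (xx_ne 0))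
    have a2 : b₁ = 0 := by
      have a3 := Low.ge_of_reg hV.hα hV.hβ rb₁ (a1 ▸ rb₂)
      apply La.ext'
      intro m
      rw [map_zero]
      by_contra hm
      have a4 := a3 m hm
      have a5 := wb₁ m hm
      omega
    rw [a2, mul_zero, mul_zero, map_zero, map_zero, sub_zero, zero_add, h3] at v1
    have a3 : ((d * (α + β + 0) - d * (α + β + 0) : ℤ) : La) = 0 := by
      rw [sub_self, Int.cast_zero]
    rw [a3, zero_mul] at v1
    have a4 := (mul_eq_zero.1 v1).resolve_left (natCast_ne L.M0)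
    have a5 : gc (wl α β) 0 (dv t₁) = gc (wl α β) 0 (sg 0 c) := by
      have := gc_eq_zero_of_lt d₁ (by norm_num : (0 : ℤ) < 1)
      rwa [map_sub, sub_eq_zero] at this
    rw [a4, (Hm.sg (map_zero _) c : Hm (wl α β) 0 (sg 0 c)).gc_eq] at a5
    exact hc (AddMonoidAlgebra.single_eq_zero.1 a5.symm)

end MPb07157.O3
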