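import Pool.Agent.Lib.MP_b07157_agB.Loc

/-!
# The local lemma with weights: definitions

The point is `(1 : 0 : 0)`, the variables `x_1`, `x_2` have weights `α`, `β`; `F`, `P`, `v` are
Laurent polynomials without negative exponents of `x_1`, `x_2`.
-/

noncomputable section

namespace MPb07157.O3

open MPb07157.OB

/-- The weight `α m_1 + β m_2`. -/
def wl (α β : ℕ) : (Fin 3 → ℤ) →+ ℤ := α • co 1 + β • co 2

theorem wl_apply (α β : ℕ) (m : Fin 3 → ℤ) : wl α β m = α * m 1 + β * m 2 := by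
  unfold wl
  rw [AddMonoidHom.add_apply, AddMonoidHom.smul_apply, AddMonoidHom.smul_apply, co_apply,
    co_apply, nsmul_eq_mul, nsmul_eq_mul]

theorem wl_ex0 (α β : ℕ) : wl α β (ex 0) = 0 := by
  rw [wl_apply, ex_ne (by decide), ex_ne (by decide), mul_zero, mul_zero, add_zero]

theorem wl_ex1 (α β : ℕ) : wl α β (ex 1) = α := by
  rw [wl_apply, ex_same, ex_ne (by decide), mul_one, mul_zero, add_zero]

theorem wl_ex2 (α β : ℕ) : wl α β (ex 2) = β := by
  rw [wl_apply, ex_same, ex_ne (by decide), mul_one, mul_zero, zero_add]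

/-- The data: `v = P grad F / F`. -/
structure DL (F P : La) (v : Fin 3 → La) (d n : ℕ) : Prop where
  F0 : F ≠ 0
  P0 : P ≠ 0
  hd : 0 < d
  hF : Hm td d F
  hP : Hm td n P
  hv : ∀ i, Hm td ((n : ℤ) - 1) (v i)
  rF : ∀ j, j ≠ 0 → Reg j F
  rP : ∀ j, j ≠ 0 → Reg j P
  rv : ∀ i j, j ≠ 0 → Reg j (v i)
  rel : ∀ i, P * D i F = F * v i

/-- The conditions at the point `(1 : 0 : 0)`: `M` and `μ` are the weights of `F` and `P`. -/
structure VL (α β : ℕ) (F P : La) (v : Fin 3 → La) (M μ : ℕ) : Prop where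
  hα : 0 < α
  hβ : 0 < β
  hμ : α + β ≤ μ
  F1 : Ge (wl α β) M F
  F2 : gc (wl α β) M F ≠ 0
  P1 : Ge (wl α β) μ P
  P2 : gc (wl α β) μ P ≠ 0
  cop : Cop 0 (gc (wl α β) μ P) (gc (wl α β) ((μ : ℤ) - α) (v 1))
    (gc (wl α β) ((μ : ℤ) - β) (v 2))

/-- The additional relation: `t_x / x` is the divergence of a vector field which kills `F`, up to
terms of weight `≥ 0`. -/
def RW (α β : ℕ) (F : La) (j : Fin 3) (M : ℕ) (t : Fin 3 → La) : Prop :=
  ∃ η : Fin 3 → La, (∀ k, Reg j (η k)) ∧ (∀ k, Hm td 1 (η k)) ∧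
    Ge (wl α β) M (∑ k, η k * D k F) ∧ Ge (wl α β) 0 (sg (-ex 0) 1 * t 0 - dv η)

/-- The vector field has weight at least `w`. -/
def Gv (α β : ℕ) (w : ℤ) (t : Fin 3 → La) : Prop :=
  Ge (wl α β) w (t 0) ∧ Ge (wl α β) (w + α) (t 1) ∧ Ge (wl α β) (w + β) (t 2)

end MPb07157.O3
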